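import Mathlib

/-!
# Boolean circuits with NOT gates and arbitrary gates, in layers
-/

namespace Pool.Agent.V8H38.NL

/-- A node of a circuit with `n` inputs: an input variable, a constant, a two-input AND or OR gate,
a NOT gate, or a gate that applies an arbitrary function to any number of nodes. The natural numbers
are the numbers (counted from zero) of the nodes read by the gate. -/
inductive Node (n : ℕ) : Type
  | input (i : Fin n)
  | const (b : Bool)
  | and (a b : ℕ)
  | or (a b : ℕ)
  | not (a : ℕ)
  | any (l : List ℕ) (φ : List Bool → Bool)

namespace Node

variable {n : ℕ}

/-- The value of a node, given the input `x` and the values `v` of the nodes it reads. -/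
def eval (x : Fin n → Bool) (v : ℕ → Bool) : Node n → Bool
  | input i => x i
  | const b => b
  | and a b => v a && v b
  | or a b => v a || v b
  | not a => !(v a)
  | any l φ => φ (l.map v)

/-- AND gates and OR gates -/
def isAndOr : Node n → Bool
  | and _ _ => true
  | or _ _ => true
  | _ => false

/-- the nodes read by an AND gate or an OR gate -/
def ins : Node n → List ℕ
  | and a b => [a, b]
  | or a b => [a, b]
  | _ => []

/-- the nodes read by a NOT gate or an arbitrary gate -/
def wires : Node n → List ℕ
  | not a => [a]
  | any l _ => l
  | _ => []

end Node

/-- A circuit with `n` inputs, with AND and OR gates of fan-in two, NOT gates and arbitrary gates: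
the list of its nodes, in an order in which every gate comes after the nodes it reads, and the
number of the output node. -/
structure Net (n : ℕ) : Type where
  /-- the nodes -/
  nodes : List (Node n)
  /-- the number of the output node -/
  out : ℕ

/-- The list of the values of all nodes of a list of nodes (a reference to a node that is not
earlier reads `false`). -/
def vals {n : ℕ} (x : Fin n → Bool) (l : List (Node n)) : List Bool :=
  l.foldl (fun v g => v ++ [g.eval x fun k => v.getD k false]) []

namespace Net

variable {n : ℕ}

/-- The value of the output node. -/
def eval (C : Net n) (x : Fin n → Bool) : Bool := (vals x C.nodes).getD C.out false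

/-- The size: the number of AND and OR gates. -/
def size (C : Net n) : ℕ := C.nodes.countP Node.isAndOr

/-- The function `lev` is a division of the nodes into layers `0, 1, 2, ...`: an AND or OR gate
reads nodes of its own layer or of lower layers, and a NOT gate or an arbitrary gate reads nodes of
lower layers. -/
def Layered (C : Net n) (lev : ℕ → ℕ) : Prop :=
  ∀ (i : ℕ) (h : i < C.nodes.length),
    (∀ k ∈ (C.nodes[i]).ins, k < i → lev k ≤ lev i) ∧
      ∀ k ∈ (C.nodes[i]).wires, k < i → lev k < lev i

open Classical in
/-- The set of the nodes that are read by NOT gates and arbitrary gates of layer `j`. -/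
noncomputable def cut (C : Net n) (lev : ℕ → ℕ) (j : ℕ) : Finset ℕ :=
  (Finset.range C.nodes.length).filter fun k =>
    ∃ (i : ℕ) (h : i < C.nodes.length), k < i ∧ lev i = j ∧ k ∈ (C.nodes[i]).wires

/-- The product over all layers of `w + 1`, where `w` is the number of nodes that are read by NOT
gates and arbitrary gates of the layer. -/
noncomputable def combos (C : Net n) (lev : ℕ → ℕ) : ℕ :=
  ∏ j ∈ (Finset.range C.nodes.length).image lev, ((C.cut lev j).card + 1)

open Classical in
/-- The probability, under the distribution with the weights `D`, that the output of the circuit
is correct for the predicate `f`. -/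
noncomputable def agree (D : (Fin n → Bool) → ℝ) (C : Net n) (f : (Fin n → Bool) → Prop) : ℝ :=
  ∑ x, if (C.eval x = true ↔ f x) then D x else 0

end Net

/-- The adjacency matrix of a graph with `v` vertices, as an input of `v * v` bits: the bit number
`i * v + j` says whether the vertices `i` and `j` are adjacent. -/
noncomputable def adjBits {v : ℕ} (G : SimpleGraph (Fin v)) (i : Fin (v * v)) : Bool :=
  open Classical in decide (G.Adj (finProdFinEquiv.symm i).1 (finProdFinEquiv.symm i).2)

/-- The half-clique language. An input `x` is read as a graph with the vertices `0, ..., v - 1`,
where `v` is the integer part of the square root of the length of `x`: for `a < b < v`, the bit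
number `a * v + b` of `x` (counted from zero) says whether `a` and `b` are adjacent. The input is
in the language if some `v / 2` (rounded down) vertices are pairwise adjacent. -/
def HalfClique : Set (List Bool) :=
  {x | ∃ S : Finset ℕ, (∀ a ∈ S, a < Nat.sqrt x.length) ∧ Nat.sqrt x.length / 2 ≤ S.card ∧
    ∀ a ∈ S, ∀ b ∈ S, a < b → x.getD (a * Nat.sqrt x.length + b) false = true}

end Pool.Agent.V8H38.NL
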