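import Pool.Agent.V8H38.NL.Lang
import Pool.Agent.V8H38.NL.Net

/-!
# The half-clique language is in `NP` and closed upwards
-/

namespace Pool.Agent.V8H38.NL

open Pool.Agent.NPC

/-- verification: `y.1` is the number of vertices and `y.2` are the vertices of the clique -/
def testC (p : List Bool × (ℕ × List ℕ)) : Bool :=
  decide (p.2.1 * p.2.1 ≤ p.1.length) && (decide (p.1.length < (p.2.1 + 1) * (p.2.1 + 1)) &&
    (decide (p.2.1 / 2 ≤ p.2.2.length) && (decide (p.2.2.length ≤ p.2.1) &&
      (p.2.2.all (fun b => decide (b < p.2.1)) &&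
        (List.range p.2.2.length).all (fun i => (List.range p.2.2.length).all (fun j =>
          decide (j ≤ i) || (decide (p.2.2.getD i 0 < p.2.2.getD j 0) &&
            p.1.getD (p.2.2.getD i 0 * p.2.1 + p.2.2.getD j 0) false)))))))

theorem poly_testC : Poly testC := by
  have hx : Poly (fun p : List Bool × (ℕ × List ℕ) => p.1) := Poly.fst Poly.id
  have hn : Poly (fun p : List Bool × (ℕ × List ℕ) => p.1.length) := Poly.length hx
  have hv : Poly (fun p : List Bool × (ℕ × List ℕ) => p.2.1) := Poly.fst (Poly.snd Poly.id)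
  have hc : Poly (fun p : List Bool × (ℕ × List ℕ) => p.2.2) := Poly.snd (Poly.snd Poly.id)
  have hl : Poly (fun p : List Bool × (ℕ × List ℕ) => p.2.2.length) := Poly.length hc
  have hv1 := Poly.add hv (NPC.Poly.const (α := List Bool × (ℕ × List ℕ)) 1)
  unfold testC
  refine Poly.and (Poly.decide_le (Poly.mul hv hv) hn) (Poly.and
    (Poly.decide_lt hn (Poly.mul hv1 hv1)) (Poly.and
      (Poly.decide_le (Poly.div hv (NPC.Poly.const 2)) hl) (Poly.and (Poly.decide_le hl hv)
        (Poly.and ?_ ?_))))
  · exact Poly.all (p := fun p b => decide (b < p.2.1)) hc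
      (Poly.decide_lt (Poly.snd Poly.id) (hv.comp (Poly.fst Poly.id)))
  · refine Poly.all (p := fun (p : List Bool × (ℕ × List ℕ)) i =>
      (List.range p.2.2.length).all (fun j =>
          decide (j ≤ i) || (decide (p.2.2.getD i 0 < p.2.2.getD j 0) &&
            p.1.getD (p.2.2.getD i 0 * p.2.1 + p.2.2.getD j 0) false)))
      (UPoly.range (UPoly.length hc)) ?_
    have hc1 := hc.comp (Poly.fst (Poly.id (α := (List Bool × (ℕ × List ℕ)) × ℕ)))
    refine Poly.all (p := fun (p : (List Bool × (ℕ × List ℕ)) × ℕ) j =>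
          decide (j ≤ p.2) || (decide (p.1.2.2.getD p.2 0 < p.1.2.2.getD j 0) &&
            p.1.1.getD (p.1.2.2.getD p.2 0 * p.1.2.1 + p.1.2.2.getD j 0) false))
      (UPoly.range (UPoly.length hc1)) ?_
    have f1 := Poly.fst (Poly.id (α := ((List Bool × (ℕ × List ℕ)) × ℕ) × ℕ))
    have hj := Poly.snd (Poly.id (α := ((List Bool × (ℕ × List ℕ)) × ℕ) × ℕ))
    have hi := Poly.snd f1
    have f2 := Poly.fst f1
    have hx2 := hx.comp f2
    have hv2 := hv.comp f2
    have hc2 := hc.comp f2
    have gi := Poly.getD hc2 hi (NPC.Poly.const 0)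
    have gj := Poly.getD hc2 hj (NPC.Poly.const 0)
    exact Poly.or (Poly.decide_le hj hi) (Poly.and (Poly.decide_lt gi gj)
      (Poly.getD hx2 (Poly.add (Poly.mul gi hv2) gj) (NPC.Poly.const false)))

theorem halfClique_eq : HalfClique = {x | ∃ y : ℕ × List ℕ, testC (x, y) = true} := by
  ext x
  constructor
  · rintro ⟨S, hS1, hS2, hS3⟩
    refine ⟨(Nat.sqrt x.length, S.sort (· ≤ ·)), ?_⟩
    unfold testC
    simp only [Bool.and_eq_true, decide_eq_true_eq, List.all_eq_true, List.mem_range,
      Bool.or_eq_true, Finset.mem_sort, Finset.length_sort]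
    refine ⟨Nat.sqrt_le _, Nat.lt_succ_sqrt _, hS2, ?_, hS1, ?_⟩
    · calc S.card ≤ (Finset.range (Nat.sqrt x.length)).card :=
            Finset.card_le_card fun a ha => Finset.mem_range.2 (hS1 a ha)
        _ = _ := Finset.card_range _
    · intro i hi j hj
      rcases Nat.lt_or_ge i j with hij | hij
      · right
        have hi' : i < (S.sort (· ≤ ·)).length := by rw [Finset.length_sort]; exact hi
        have hj' : j < (S.sort (· ≤ ·)).length := by rw [Finset.length_sort]; exact hj
        rw [List.getD_eq_getElem _ _ hi', List.getD_eq_getElem _ _ hj']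
        have hlt : (S.sort (· ≤ ·))[i] < (S.sort (· ≤ ·))[j] :=
          (Finset.sortedLT_sort S).strictMono_get (a := ⟨i, hi'⟩) (b := ⟨j, hj'⟩) hij
        refine ⟨hlt, hS3 _ ?_ _ ?_ hlt⟩
        · exact (Finset.mem_sort (· ≤ ·)).1 (List.getElem_mem _)
        · exact (Finset.mem_sort (· ≤ ·)).1 (List.getElem_mem _)
      · left; exact hij
  · rintro ⟨⟨v, u⟩, h⟩
    unfold testC at h
    simp only [Bool.and_eq_true, decide_eq_true_eq, List.all_eq_true, List.mem_range,
      Bool.or_eq_true] at h
    obtain ⟨h1, h2, h3, h4, h5, h6⟩ := h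
    have hv : Nat.sqrt x.length = v := by
      have := Nat.eq_sqrt.2 ⟨h1, h2⟩
      exact this.symm
    have h7 : ∀ (i j : ℕ) (hi : i < u.length) (hj : j < u.length), i < j →
        u[i] < u[j] ∧ x.getD (u[i] * v + u[j]) false = true := by
      intro i j hi hj hij
      rcases h6 i hi j hj with h | h
      · omega
      · rw [List.getD_eq_getElem _ _ hi, List.getD_eq_getElem _ _ hj] at h
        exact h
    refine ⟨u.toFinset, ?_, ?_, ?_⟩
    · intro a ha
      rw [hv]
      exact h5 a (List.mem_toFinset.1 ha)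
    · rw [hv, List.toFinset_card_of_nodup]
      · exact h3
      · rw [List.Nodup, List.pairwise_iff_getElem]
        intro i j hi hj hij
        exact (h7 i j hi hj hij).1.ne
    · intro a ha b hb hab
      rw [hv]
      obtain ⟨i, hi, rfl⟩ := List.getElem_of_mem (List.mem_toFinset.1 ha)
      obtain ⟨j, hj, rfl⟩ := List.getElem_of_mem (List.mem_toFinset.1 hb)
      rcases Nat.lt_trichotomy i j with hij | hij | hij
      · exact (h7 i j hi hj hij).2
      · subst hij
        exact absurd hab (lt_irrefl _)
      · have := (h7 j i hj hi hij).1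
        omega

theorem halfClique_inNP : InNP HalfClique := by
  rw [halfClique_eq]
  refine inNP_of_test poly_testC (Polynomial.C 20 * (Polynomial.X + 1) ^ 2) ?_
  rintro x ⟨v, c⟩ h
  unfold testC at h
  simp only [Bool.and_eq_true, decide_eq_true_eq, List.all_eq_true] at h
  obtain ⟨h1, -, -, h3, h5, -⟩ := h
  have hv : v ≤ x.length := by
    rcases Nat.eq_zero_or_pos v with h0 | h0
    · omega
    · nlinarith
  have hsz : ∀ b ≤ x.length, sz b ≤ 4 * x.length + 1 := by
    intro b hb
    have h4 := sz_nat_le b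
    have h5 : b.size ≤ b := NPC.Poly.size_le_self b
    omega
  have h4 := hsz v hv
  have h6 : sz c ≤ c.length * (4 * x.length + 1 + 1) + 1 :=
    sz_le_length_mul c _ fun b hb => hsz b ((h5 b hb).le.trans hv)
  have h7 : c.length * (4 * x.length + 1 + 1) ≤ x.length * (4 * x.length + 1 + 1) :=
    Nat.mul_le_mul_right _ (h3.trans hv)
  simp only [sz_pair, Polynomial.eval_mul, Polynomial.eval_C, Polynomial.eval_pow,
    Polynomial.eval_add, Polynomial.eval_X, Polynomial.eval_one]
  nlinarith

theorem getD_mono {x y : List Bool} (hxy : List.Forall₂ (· ≤ ·) x y) (i : ℕ) :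
    x.getD i false = true → y.getD i false = true := by
  induction hxy generalizing i with
  | nil => simp
  | cons hab _ ih =>
    cases i with
    | zero =>
      intro h
      simp only [List.getD_cons_zero] at h ⊢
      rw [h] at hab
      exact Bool.eq_true_of_true_le hab
    | succ i =>
      simp only [List.getD_cons_succ]
      exact ih i

/-- the language is closed upwards -/
theorem halfClique_mono {x y : List Bool} (hxy : List.Forall₂ (· ≤ ·) x y)
    (hx : x ∈ HalfClique) : y ∈ HalfClique := by
  obtain ⟨S, h1, h2, h3⟩ := hx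
  have hl : x.length = y.length := hxy.length_eq
  refine ⟨S, ?_, ?_, ?_⟩
  · rw [← hl]; exact h1
  · rw [← hl]; exact h2
  · rw [← hl]
    exact fun a ha b hb hab => getD_mono hxy _ (h3 a ha b hb hab)

end Pool.Agent.V8H38.NL
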