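import Pool.Agent.V8H38.NL.Defs

/-!
# Circuits with `t` NOT gates and `2 ^ (t + 1) - 1` circuits without NOT gates
-/

namespace Pool.Agent.V8H38.NL

variable {n : ℕ}

theorem values_append (x : Fin n → Bool) (l : List (Gate n)) (g : Gate n) :
    values x (l ++ [g]) = values x l ++ [g.eval x (values x l)] := by
  simp [values]

theorem values_nil (x : Fin n → Bool) : values x ([] : List (Gate n)) = [] := rfl

theorem values_append_list (x : Fin n → Bool) (l l' : List (Gate n)) :
    values x (l ++ l') = l'.foldl (fun v g => v ++ [g.eval x v]) (values x l) := by
  simp [values]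

theorem values_length (x : Fin n → Bool) (l : List (Gate n)) :
    (values x l).length = l.length := by
  induction l using List.reverseRecOn with
  | nil => rfl
  | append_singleton l g ih => rw [values_append]; simp [ih]

/-- the first NOT gate -/
theorem split_not (l : List (Gate n)) (h : 0 < l.countP Gate.isNot) :
    ∃ (pre : List (Gate n)) (a : ℕ) (post : List (Gate n)),
      l = pre ++ [Gate.not a] ++ post ∧ pre.countP Gate.isNot = 0 := by
  induction l with
  | nil => simp at h
  | cons g l ih =>
    by_cases hg : g.isNot = true
    · cases g with
      | not a => exact ⟨[], a, l, by simp, by simp⟩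
      | input i => simp [Gate.isNot] at hg
      | const b => simp [Gate.isNot] at hg
      | and a b => simp [Gate.isNot] at hg
      | or a b => simp [Gate.isNot] at hg
    · rw [List.countP_cons_of_neg hg] at h
      obtain ⟨pre, a, post, h1, h2⟩ := ih h
      refine ⟨g :: pre, a, post, by simp [h1], ?_⟩
      rw [List.countP_cons_of_neg hg, h2]

/-- **Covering lemma.** -/
theorem cover (t : ℕ) : ∀ C : Circuit n, C.nots = t →
    ∃ l : List (Circuit n), l.length = 2 ^ (t + 1) - 1 ∧
      (∀ D ∈ l, D.nots = 0 ∧ D.size ≤ C.size) ∧
      ∀ x y : Fin n → Bool, C.eval x ≠ C.eval y → ∃ D ∈ l, D.eval x ≠ D.eval y := by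
  induction t with
  | zero =>
    intro C hC
    exact ⟨[C], by simp, by simp [hC], fun x y h => ⟨C, by simp, h⟩⟩
  | succ t ih =>
    intro C hC
    obtain ⟨pre, a, post, h1, h2⟩ := split_not C.nodes (by unfold Circuit.nots at hC; omega)
    have hn : post.countP Gate.isNot = t := by
      unfold Circuit.nots at hC
      rw [h1, List.countP_append, List.countP_append, h2] at hC
      simp [Gate.isNot] at hC
      omega
    have hs : C.size = pre.countP Gate.isAndOr + post.countP Gate.isAndOr := by
      unfold Circuit.size
      rw [h1, List.countP_append, List.countP_append]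
      simp [Gate.isAndOr]
    set Cb : Bool → Circuit n := fun b => ⟨pre ++ [Gate.const b] ++ post, C.out⟩ with hCb
    have hCbn : ∀ b, (Cb b).nots = t := by
      intro b
      simp [hCb, Circuit.nots, List.countP_append, h2, hn, Gate.isNot, List.countP_cons]
    have hCbs : ∀ b, (Cb b).size = C.size := by
      intro b
      rw [hs]
      simp [hCb, Circuit.size, List.countP_append, Gate.isAndOr, List.countP_cons]
    obtain ⟨lt, lt1, lt2, lt3⟩ := ih (Cb true) (hCbn true)
    obtain ⟨lf, lf1, lf2, lf3⟩ := ih (Cb false) (hCbn false)
    refine ⟨⟨pre, a⟩ :: (lt ++ lf), ?_, ?_, ?_⟩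
    · simp only [List.length_cons, List.length_append, lt1, lf1]
      have : 1 ≤ 2 ^ (t + 1) := Nat.one_le_two_pow
      rw [pow_succ 2 (t + 1)]
      omega
    · intro D hD
      rcases List.mem_cons.1 hD with h | h
      · subst h
        refine ⟨h2, ?_⟩
        rw [hs]
        show pre.countP Gate.isAndOr ≤ _
        omega
      · rcases List.mem_append.1 h with h | h
        · have := lt2 D h
          rw [hCbs] at this
          exact this
        · have := lf2 D h
          rw [hCbs] at this
          exact this
    · intro x y hxy
      by_cases hpre : (⟨pre, a⟩ : Circuit n).eval x = (⟨pre, a⟩ : Circuit n).eval y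
      · have key : ∀ z : Fin n → Bool, C.eval z = (Cb (!((⟨pre, a⟩ : Circuit n).eval z))).eval z := by
          intro z
          unfold Circuit.eval
          rw [h1]
          simp only [hCb]
          rw [values_append_list z (pre ++ [Gate.not a]) post,
            values_append_list z (pre ++ [Gate.const _]) post, values_append, values_append]
          rfl
        rw [key x, key y, ← hpre] at hxy
        cases hb : (⟨pre, a⟩ : Circuit n).eval x
        · rw [hb] at hxy
          obtain ⟨D, hD, hD2⟩ := lt3 x y hxy
          exact ⟨D, by simp [hD], hD2⟩
        · rw [hb] at hxy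
          obtain ⟨D, hD, hD2⟩ := lf3 x y hxy
          exact ⟨D, by simp [hD], hD2⟩
      · exact ⟨_, List.mem_cons_self, hpre⟩

/-- circuits without NOT gates are monotone -/
theorem values_mono {x y : Fin n → Bool} (hxy : ∀ i, x i = true → y i = true) :
    ∀ (l : List (Gate n)), l.countP Gate.isNot = 0 →
      ∀ i, (values x l).getD i false = true → (values y l).getD i false = true := by
  intro l
  induction l using List.reverseRecOn with
  | nil => intro _ i h; simp [values_nil] at h
  | append_singleton l g ih =>
    intro hl i h
    rw [List.countP_append] at hl
    have hl1 : l.countP Gate.isNot = 0 := by omega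
    have hl2 : g.isNot = false := by
      have : [g].countP Gate.isNot = 0 := by omega
      simpa [List.countP_cons] using this
    have ih' := ih hl1
    rw [values_append] at h ⊢
    rcases lt_trichotomy i l.length with hi | hi | hi
    · rw [List.getD_append _ _ _ _ (by rw [values_length]; exact hi)] at h ⊢
      exact ih' i h
    · have hx : (values x l ++ [g.eval x (values x l)]).getD i false = g.eval x (values x l) := by
        rw [List.getD_append_right _ _ _ _ (by rw [values_length]; omega), values_length, hi]
        simp
      have hy : (values y l ++ [g.eval y (values y l)]).getD i false = g.eval y (values y l) := by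
        rw [List.getD_append_right _ _ _ _ (by rw [values_length]; omega), values_length, hi]
        simp
      rw [hx] at h
      rw [hy]
      cases g with
      | input j => exact hxy j h
      | const b => exact h
      | not a => simp [Gate.isNot] at hl2
      | and a b =>
        simp only [Gate.eval, Bool.and_eq_true] at h ⊢
        exact ⟨ih' _ h.1, ih' _ h.2⟩
      | or a b =>
        simp only [Gate.eval, Bool.or_eq_true] at h ⊢
        exact h.imp (ih' _) (ih' _)
    · rw [List.getD_eq_default _ _ (by
        rw [List.length_append, values_length]; simp; omega)] at h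
      exact absurd h (by simp)

theorem eval_mono {C : Circuit n} (hC : C.nots = 0) {x y : Fin n → Bool}
    (hxy : ∀ i, x i = true → y i = true) (h : C.eval x = true) : C.eval y = true :=
  values_mono hxy C.nodes hC _ h

end Pool.Agent.V8H38.NL
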