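import Pool.Agent.V8H38.NL.Net
import Pool.Agent.V8H38.NL.Cover

/-!
# The clock of a layered circuit
-/

namespace Pool.Agent.V8H38.NL

open Finset

variable {n : ℕ}

/-! ### Values -/

theorem vals_append (x : Fin n → Bool) (l : List (Node n)) (g : Node n) :
    vals x (l ++ [g]) = vals x l ++ [g.eval x fun k => (vals x l).getD k false] := by
  simp [vals]

theorem vals_append_list (x : Fin n → Bool) (l l' : List (Node n)) :
    vals x (l ++ l') = l'.foldl (fun v g => v ++ [g.eval x fun k => v.getD k false])
      (vals x l) := by
  simp [vals]

theorem vals_length (x : Fin n → Bool) (l : List (Node n)) :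
    (vals x l).length = l.length := by
  induction l using List.reverseRecOn with
  | nil => rfl
  | append_singleton l g ih => rw [vals_append]; simp [ih]

theorem vals_getD_append (x : Fin n → Bool) (l l' : List (Node n)) (k : ℕ) (hk : k < l.length) :
    (vals x (l ++ l')).getD k false = (vals x l).getD k false := by
  induction l' using List.reverseRecOn with
  | nil => simp
  | append_singleton l' g ih =>
    rw [← List.append_assoc, vals_append, List.getD_append, ih]
    rw [vals_length, List.length_append]
    omega

/-- the value of a node -/
def val (C : Net n) (x : Fin n → Bool) (k : ℕ) : Bool := (vals x C.nodes).getD k false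

theorem val_eq (C : Net n) (x : Fin n → Bool) (i : ℕ) (h : i < C.nodes.length) :
    val C x i = (C.nodes[i]).eval x fun k => if k < i then val C x k else false := by
  have h1 : C.nodes = (C.nodes.take i ++ [C.nodes[i]]) ++ C.nodes.drop (i + 1) := by
    rw [List.take_append_getElem, List.take_append_drop]
  have h2 : (C.nodes.take i).length = i := by
    rw [List.length_take]; omega
  have h3 : ∀ k, (vals x (C.nodes.take i)).getD k false = if k < i then val C x k else false := by
    intro k
    split_ifs with hk
    · unfold val
      conv_rhs => rw [← List.take_append_drop i C.nodes]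
      rw [vals_getD_append _ _ _ _ (by omega)]
    · rw [List.getD_eq_default]
      rw [vals_length]
      omega
  have h4 : val C x i = (vals x (C.nodes.take i ++ [C.nodes[i]])).getD i false := by
    unfold val
    conv_lhs => rw [h1]
    rw [vals_getD_append]
    rw [List.length_append, h2]
    simp
  rw [h4, vals_append, List.getD_append_right _ _ _ _ (by rw [vals_length]; omega), vals_length,
    h2]
  simp only [Nat.sub_self, List.getD_cons_zero]
  congr 1
  funext k
  exact h3 k

theorem val_ge (C : Net n) (x : Fin n → Bool) (i : ℕ) (h : C.nodes.length ≤ i) :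
    val C x i = false := by
  unfold val
  rw [List.getD_eq_default]
  rw [vals_length]
  exact h

/-! ### The monotone circuit at an input -/

/-- the node of the monotone circuit: NOT gates and arbitrary gates are replaced by constants -/
def frz (b : Bool) : Node n → Gate n
  | Node.input i => Gate.input i
  | Node.const c => Gate.const c
  | Node.and a c => Gate.and a c
  | Node.or a c => Gate.or a c
  | Node.not _ => Gate.const b
  | Node.any _ _ => Gate.const b

/-- the nodes of the monotone circuit at the input `x` -/
def frzL (C : Net n) (x : Fin n → Bool) : List (Gate n) :=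
  C.nodes.mapIdx fun i g => frz (val C x i) g

theorem frzL_length (C : Net n) (x : Fin n → Bool) : (frzL C x).length = C.nodes.length := by
  simp [frzL]

theorem frzL_nots (C : Net n) (x : Fin n → Bool) : (frzL C x).countP Gate.isNot = 0 := by
  rw [List.countP_eq_zero]
  intro g hg
  unfold frzL at hg
  rw [List.mem_mapIdx] at hg
  obtain ⟨i, hi, rfl⟩ := hg
  cases C.nodes[i] <;> simp [frz, Gate.isNot]

theorem mapIdx_countP (f : ℕ → Node n → Gate n)
    (hf : ∀ i g, Gate.isAndOr (f i g) = Node.isAndOr g) (l : List (Node n)) :
    (l.mapIdx f).countP Gate.isAndOr = l.countP Node.isAndOr := by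
  induction l using List.reverseRecOn with
  | nil => rfl
  | append_singleton l g ih =>
    rw [List.mapIdx_append, List.countP_append, List.countP_append, ih]
    simp [List.countP_cons, hf]

theorem frzL_size (C : Net n) (x : Fin n → Bool) : (frzL C x).countP Gate.isAndOr = C.size := by
  unfold frzL Net.size
  refine mapIdx_countP _ (fun i g => ?_) _
  cases g <;> rfl

/-- the value of a node of the monotone circuit at `x` on the input `y` -/
def mval (C : Net n) (x y : Fin n → Bool) (k : ℕ) : Bool :=
  (values y (frzL C x)).getD k false

theorem values_getD_append (x : Fin n → Bool) (l l' : List (Gate n)) (k : ℕ)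
    (hk : k < l.length) :
    (values x (l ++ l')).getD k false = (values x l).getD k false := by
  induction l' using List.reverseRecOn with
  | nil => simp
  | append_singleton l' g ih =>
    rw [← List.append_assoc, values_append, List.getD_append, ih]
    rw [values_length, List.length_append]
    omega

theorem values_getD (y : Fin n → Bool) (l : List (Gate n)) (i : ℕ) (h : i < l.length) :
    (values y l).getD i false = (l[i]).eval y (values y (l.take i)) := by
  have h1 : l = (l.take i ++ [l[i]]) ++ l.drop (i + 1) := by
    rw [List.take_append_getElem, List.take_append_drop]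
  have h2 : (l.take i).length = i := by
    rw [List.length_take]; omega
  conv_lhs => rw [h1]
  rw [values_getD_append _ _ _ _ (by rw [List.length_append, h2]; simp), values_append,
    List.getD_append_right _ _ _ _ (by rw [values_length]; omega), values_length, h2]
  simp

theorem values_take_getD (y : Fin n → Bool) (l : List (Gate n)) (i k : ℕ) (h : i ≤ l.length) :
    (values y (l.take i)).getD k false = if k < i then (values y l).getD k false else false := by
  split_ifs with hk
  · conv_rhs => rw [← List.take_append_drop i l]
    rw [values_getD_append]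
    rw [List.length_take]
    omega
  · rw [List.getD_eq_default]
    rw [values_length, List.length_take]
    omega

/-- NOT gates and arbitrary gates -/
def isFar : Node n → Bool
  | Node.not _ => true
  | Node.any _ _ => true
  | _ => false

theorem mval_eq (C : Net n) (x y : Fin n → Bool) (i : ℕ) (h : i < C.nodes.length) :
    mval C x y i = if isFar (C.nodes[i]) = true then val C x i else
      (C.nodes[i]).eval y fun k => if k < i then mval C x y k else false := by
  have h' : i < (frzL C x).length := by rw [frzL_length]; exact h
  unfold mval
  rw [values_getD _ _ _ h']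
  have h1 : (frzL C x)[i] = frz (val C x i) (C.nodes[i]) := by
    simp [frzL]
  rw [h1]
  have h2 := fun k => values_take_getD y (frzL C x) i k h'.le
  cases hg : C.nodes[i] with
  | input j => simp [frz, Gate.eval, Node.eval, isFar]
  | const b => simp [frz, Gate.eval, Node.eval, isFar]
  | and a b =>
    simp only [frz, Gate.eval, Node.eval, isFar, h2, Bool.false_eq_true, if_false]
  | or a b =>
    simp only [frz, Gate.eval, Node.eval, isFar, h2, Bool.false_eq_true, if_false]
  | not a =>
    simp only [frz, Gate.eval, isFar, if_true]
  | any l φ =>
    simp only [frz, Gate.eval, isFar, if_true]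

theorem mval_ge (C : Net n) (x y : Fin n → Bool) (i : ℕ) (h : C.nodes.length ≤ i) :
    mval C x y i = false := by
  unfold mval
  rw [List.getD_eq_default]
  rw [values_length, frzL_length]
  exact h

theorem mval_mono (C : Net n) (x : Fin n → Bool) {y z : Fin n → Bool}
    (hyz : ∀ i, y i = true → z i = true) (k : ℕ) (h : mval C x y k = true) :
    mval C x z k = true :=
  values_mono hyz _ (frzL_nots C x) k h

/-- evaluation of a node depends only on the nodes it reads -/
theorem node_eval_congr (g : Node n) (x : Fin n → Bool) (v v' : ℕ → Bool)
    (h : ∀ k, k ∈ g.ins ∨ k ∈ g.wires → v k = v' k) : g.eval x v = g.eval x v' := by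
  cases g with
  | input j => rfl
  | const b => rfl
  | and a b =>
    simp only [Node.eval]
    rw [h a (Or.inl (by simp [Node.ins])), h b (Or.inl (by simp [Node.ins]))]
  | or a b =>
    simp only [Node.eval]
    rw [h a (Or.inl (by simp [Node.ins])), h b (Or.inl (by simp [Node.ins]))]
  | not a =>
    simp only [Node.eval]
    rw [h a (Or.inr (by simp [Node.wires]))]
  | any l φ =>
    simp only [Node.eval]
    congr 1
    exact List.map_congr_left fun k hk => h k (Or.inr hk)

theorem node_wires_nil {g : Node n} (h : isFar g = false) : g.wires = [] := by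
  cases g <;> simp_all [isFar, Node.wires]

theorem node_eval_input (g : Node n) (h : isFar g = true) (x y : Fin n → Bool) (v : ℕ → Bool) :
    g.eval x v = g.eval y v := by
  cases g <;> simp_all [isFar, Node.eval]

/-- at `x` itself the monotone circuit has the same values -/
theorem mval_self (C : Net n) (x : Fin n → Bool) (k : ℕ) : mval C x x k = val C x k := by
  induction k using Nat.strong_induction_on with
  | _ k ih =>
    by_cases h : k < C.nodes.length
    · rw [mval_eq _ _ _ _ h, val_eq _ _ _ h]
      split_ifs with h1
      · rfl
      · refine node_eval_congr _ _ _ _ fun j _ => ?_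
        split_ifs with hj
        · exact ih j hj
        · rfl
    · rw [mval_ge _ _ _ _ (by omega), val_ge _ _ _ (by omega)]

variable {C : Net n} {lev : ℕ → ℕ}

/-- the state of layer `j` is the same at `x` and `y` -/
def Same (C : Net n) (lev : ℕ → ℕ) (x y : Fin n → Bool) (j : ℕ) : Prop :=
  ∀ k ∈ C.cut lev j, val C y k = val C x k

theorem mem_cut {j k : ℕ} : k ∈ C.cut lev j ↔
    ∃ (i : ℕ) (h : i < C.nodes.length), k < i ∧ lev i = j ∧ k ∈ (C.nodes[i]).wires := by
  unfold Net.cut
  rw [Finset.mem_filter, Finset.mem_range]
  constructor
  · rintro ⟨-, h⟩; exact h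
  · rintro ⟨i, h, h1, h2⟩
    exact ⟨h1.trans h, i, h, h1, h2⟩

theorem cut_lev (hL : C.Layered lev) {j k : ℕ} (hk : k ∈ C.cut lev j) : lev k < j := by
  obtain ⟨i, h, h1, h2, h3⟩ := mem_cut.1 hk
  rw [← h2]
  exact (hL i h).2 k h3 h1

/-- far gates of a layer with the same state -/
theorem far_same {x y : Fin n → Bool} {i : ℕ} (h : i < C.nodes.length)
    (hfar : isFar (C.nodes[i]) = true) (hs : Same C lev x y (lev i)) :
    val C y i = val C x i := by
  rw [val_eq _ _ _ h, val_eq _ _ _ h, node_eval_input _ hfar y x]
  refine node_eval_congr _ _ _ _ fun k hk => ?_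
  split_ifs with hki
  · rcases hk with hk | hk
    · exfalso
      revert hk hfar
      cases C.nodes[i] <;> simp [isFar, Node.ins]
    · exact hs k (mem_cut.2 ⟨i, h, hki, rfl, hk⟩)
  · rfl

/-- if the states of the layers below `j` are the same, the values of the nodes below layer `j`
are computed by the monotone circuit -/
theorem val_eq_mval (hL : C.Layered lev) {x y : Fin n → Bool} {j : ℕ}
    (hs : ∀ i < j, Same C lev x y i) (k : ℕ) (hk : lev k < j) : val C y k = mval C x y k := by
  induction k using Nat.strong_induction_on with
  | _ k ih =>
    by_cases h : k < C.nodes.length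
    · rw [mval_eq _ _ _ _ h]
      split_ifs with h1
      · exact far_same h h1 (hs _ hk)
      · rw [val_eq _ _ _ h]
        refine node_eval_congr _ _ _ _ fun i hi => ?_
        split_ifs with hik
        · refine ih i hik ?_
          rcases hi with hi | hi
          · exact ((hL k h).1 i hi hik).trans_lt hk
          · exact ((hL k h).2 i hi hik).trans hk
        · rfl
    · rw [mval_ge _ _ _ _ (by omega), val_ge _ _ _ (by omega)]

/-- number of ones in the state of layer `j` -/
noncomputable def ones (C : Net n) (lev : ℕ → ℕ) (j : ℕ) (x : Fin n → Bool) : ℕ :=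
  ((C.cut lev j).filter fun k => val C x k = true).card

theorem ones_le (j : ℕ) (x : Fin n → Bool) : ones C lev j x ≤ (C.cut lev j).card :=
  Finset.card_filter_le _ _

/-- the layers below `j` as a number -/
noncomputable def clk (C : Net n) (lev : ℕ → ℕ) (x : Fin n → Bool) : ℕ → ℕ
  | 0 => 0
  | j + 1 => clk C lev x j * ((C.cut lev j).card + 1) + ones C lev j x

theorem clk_lt (x : Fin n → Bool) (j : ℕ) :
    clk C lev x j + 1 ≤ ∏ i ∈ Finset.range j, ((C.cut lev i).card + 1) := by
  induction j with
  | zero => simp [clk]
  | succ j ih =>
    rw [Finset.prod_range_succ, clk]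
    have := ones_le (C := C) (lev := lev) j x
    calc clk C lev x j * ((C.cut lev j).card + 1) + ones C lev j x + 1 ≤
        (clk C lev x j + 1) * ((C.cut lev j).card + 1) := by
          rw [add_mul]; omega
      _ ≤ _ := Nat.mul_le_mul_right _ ih

theorem clk_step (hL : C.Layered lev) {x y : Fin n → Bool} (hxy : ∀ i, x i = true → y i = true)
    (j : ℕ) : ((∀ i < j, Same C lev x y i) ∧ clk C lev x j = clk C lev y j) ∨
      (clk C lev x j < clk C lev y j ∧
        ∃ i < j, (∀ i' < i, Same C lev x y i') ∧ ¬ Same C lev x y i) := by
  induction j with
  | zero => left; exact ⟨by simp, rfl⟩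
  | succ j ih =>
    rcases ih with ⟨h1, h2⟩ | ⟨h1, i, hi, h2, h3⟩
    · have hsub : ((C.cut lev j).filter fun k => val C x k = true) ⊆
          ((C.cut lev j).filter fun k => val C y k = true) := by
        intro k hk
        rw [Finset.mem_filter] at hk ⊢
        refine ⟨hk.1, ?_⟩
        rw [val_eq_mval hL h1 k (cut_lev hL hk.1)]
        refine mval_mono C x hxy k ?_
        rw [mval_self]
        exact hk.2
      by_cases hs : Same C lev x y j
      · left
        refine ⟨?_, ?_⟩
        · intro i hi
          rcases Nat.lt_succ_iff_lt_or_eq.1 hi with h | h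
          · exact h1 i h
          · rw [h]; exact hs
        · rw [clk, clk, h2]
          congr 1
          unfold ones
          congr 1
          apply Finset.filter_congr
          intro k hk
          rw [hs k hk]
      · right
        refine ⟨?_, j, Nat.lt_succ_self j, h1, hs⟩
        rw [clk, clk, h2]
        have : ones C lev j x < ones C lev j y := by
          refine Finset.card_lt_card ?_
          refine Finset.ssubset_iff_subset_ne.2 ⟨hsub, ?_⟩
          intro heq
          apply hs
          intro k hk
          have h4 : (k ∈ (C.cut lev j).filter fun k => val C x k = true) ↔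
              (k ∈ (C.cut lev j).filter fun k => val C y k = true) := by rw [heq]
          simp only [Finset.mem_filter, hk, true_and] at h4
          cases hx : val C x k <;> cases hy : val C y k <;> simp_all
        omega
    · right
      refine ⟨?_, i, by omega, h2, h3⟩
      rw [clk, clk]
      have h4 := ones_le (C := C) (lev := lev) j x
      calc clk C lev x j * ((C.cut lev j).card + 1) + ones C lev j x <
          (clk C lev x j + 1) * ((C.cut lev j).card + 1) := by rw [add_mul]; omega
        _ ≤ clk C lev y j * ((C.cut lev j).card + 1) := Nat.mul_le_mul_right _ h1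
        _ ≤ _ := Nat.le_add_right _ _

/-- a bound for the layers -/
def top (C : Net n) (lev : ℕ → ℕ) : ℕ := (Finset.range (C.nodes.length + C.out + 1)).sup lev + 1

theorem lev_lt_top {k : ℕ} (hk : k < C.nodes.length + C.out + 1) : lev k < top C lev := by
  unfold top
  have := Finset.le_sup (f := lev) (Finset.mem_range.2 hk)
  omega

/-- the clock -/
noncomputable def clock (C : Net n) (lev : ℕ → ℕ) (x : Fin n → Bool) : ℕ :=
  clk C lev x (top C lev) * 2 + (if C.eval x = true then 1 else 0)

theorem prod_top : ∏ i ∈ Finset.range (top C lev), ((C.cut lev i).card + 1) = C.combos lev := by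
  classical
  unfold Net.combos
  symm
  refine Finset.prod_subset ?_ ?_
  · intro j hj
    obtain ⟨i, hi, rfl⟩ := Finset.mem_image.1 hj
    rw [Finset.mem_range] at hi ⊢
    exact lev_lt_top (by omega)
  · intro j _ hj
    have : C.cut lev j = ∅ := by
      rw [Finset.eq_empty_iff_forall_notMem]
      intro k hk
      obtain ⟨i, h, h1, h2, h3⟩ := mem_cut.1 hk
      exact hj (Finset.mem_image.2 ⟨i, Finset.mem_range.2 h, h2⟩)
    rw [this]; simp

theorem clock_lt (x : Fin n → Bool) : clock C lev x + 1 ≤ 2 * C.combos lev := by
  unfold clock
  have := clk_lt (C := C) (lev := lev) x (top C lev)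
  rw [prod_top] at this
  split_ifs <;> omega

/-- all nodes read by far gates -/
noncomputable def cuts (C : Net n) (lev : ℕ → ℕ) : Finset ℕ :=
  (Finset.range (top C lev)).biUnion (C.cut lev)

theorem prod_ge_sum {ι : Type} [DecidableEq ι] (s : Finset ι) (f : ι → ℕ) :
    ∑ i ∈ s, f i + 1 ≤ ∏ i ∈ s, (f i + 1) := by
  induction s using Finset.induction_on with
  | empty => simp
  | insert i s hi ih =>
    rw [Finset.sum_insert hi, Finset.prod_insert hi, add_mul, one_mul]
    have h1 : 1 ≤ ∏ x ∈ s, (f x + 1) := by omega
    have h2 : f i * 1 ≤ f i * ∏ x ∈ s, (f x + 1) := Nat.mul_le_mul_left _ h1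
    omega

theorem card_cuts : (cuts C lev).card + 1 ≤ C.combos lev := by
  rw [← prod_top]
  refine le_trans ?_ (prod_ge_sum _ _)
  exact Nat.add_le_add_right Finset.card_biUnion_le _

/-- the nodes whose change is noticed -/
noncomputable def watch (C : Net n) (lev : ℕ → ℕ) (x : Fin n → Bool) : Finset ℕ :=
  (insert C.out (cuts C lev)).filter fun k => val C x k = false

theorem card_watch (x : Fin n → Bool) : (watch C lev x).card ≤ C.combos lev := by
  refine (Finset.card_filter_le _ _).trans ((Finset.card_insert_le _ _).trans ?_)
  exact card_cuts

theorem watch_self (x : Fin n → Bool) : ∀ k ∈ watch C lev x, mval C x x k = false := by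
  intro k hk
  rw [mval_self]
  exact (Finset.mem_filter.1 hk).2

/-- **Clock and watched nodes.** -/
theorem clock_watch (hL : C.Layered lev) {x y : Fin n → Bool}
    (hxy : ∀ i, x i = true → y i = true) :
    (clock C lev x < clock C lev y ∧ ∃ k ∈ watch C lev x, mval C x y k = true) ∨
    (clock C lev x = clock C lev y ∧ (∀ k ∈ watch C lev x, mval C x y k = false) ∧
      C.eval x = C.eval y) := by
  rcases clk_step hL hxy (top C lev) with ⟨h1, h2⟩ | ⟨h1, i, hi, h2, h3⟩
  · have hv : ∀ k, k < C.nodes.length + C.out + 1 → val C y k = mval C x y k := fun k hk =>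
      val_eq_mval hL h1 k (lev_lt_top hk)
    have hout : val C y C.out = mval C x y C.out := hv _ (by omega)
    have hmono : val C x C.out = true → val C y C.out = true := by
      intro h
      rw [hout]
      refine mval_mono C x hxy _ ?_
      rw [mval_self]; exact h
    have hev : ∀ z, C.eval z = val C z C.out := fun z => rfl
    by_cases hc : C.eval x = C.eval y
    · right
      refine ⟨?_, ?_, hc⟩
      · unfold clock
        rw [h2, hc]
      · intro k hk
        unfold watch at hk
        rw [Finset.mem_filter, Finset.mem_insert] at hk
        obtain ⟨hk1, hk2⟩ := hk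
        rcases hk1 with hk1 | hk1
        · rw [hk1, ← hout, ← hev, ← hc, hev, ← hk1]
          exact hk2
        · unfold cuts at hk1
          rw [Finset.mem_biUnion] at hk1
          obtain ⟨j, hj, hkj⟩ := hk1
          have hkN : k < C.nodes.length := by
            obtain ⟨i, h, h3, -⟩ := mem_cut.1 hkj
            omega
          rw [← hv k (by omega), h1 j (Finset.mem_range.1 hj) k hkj]
          exact hk2
    · left
      have hx : C.eval x = false := by
        by_contra h
        rw [Bool.not_eq_false] at h
        apply hc
        rw [h, hev]
        exact (hmono (by rw [← hev]; exact h)).symm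
      have hy : C.eval y = true := by
        by_contra h
        rw [Bool.not_eq_true] at h
        exact hc (by rw [hx, h])
      refine ⟨?_, C.out, ?_, ?_⟩
      · unfold clock
        rw [h2, hx, hy]
        simp
      · unfold watch
        rw [Finset.mem_filter]
        exact ⟨Finset.mem_insert_self _ _, hx⟩
      · rw [← hout]
        exact hy
  · left
    refine ⟨?_, ?_⟩
    · unfold clock
      split_ifs <;> omega
    · unfold Same at h3
      push Not at h3
      obtain ⟨k, hk, hne⟩ := h3
      have h4 : val C y k = mval C x y k := val_eq_mval hL h2 k (cut_lev hL hk)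
      have h5 : val C x k = false := by
        by_contra h
        rw [Bool.not_eq_false] at h
        apply hne
        rw [h, h4]
        refine mval_mono C x hxy _ ?_
        rw [mval_self]; exact h
      have h6 : val C y k = true := by
        by_contra h
        rw [Bool.not_eq_true] at h
        exact hne (by rw [h, h5])
      refine ⟨k, ?_, ?_⟩
      · unfold watch
        rw [Finset.mem_filter]
        refine ⟨Finset.mem_insert_of_mem ?_, h5⟩
        unfold cuts
        rw [Finset.mem_biUnion]
        exact ⟨i, Finset.mem_range.2 hi, hk⟩
      · rw [← h4]; exact h6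

/-- a disjunction of nodes -/
theorem or_chain (l : List (Gate n)) (ks : List ℕ) (hk : ∀ k ∈ ks, k < l.length) :
    ∃ D : Circuit n, (∃ l', D.nodes = l ++ l') ∧ D.out < D.nodes.length ∧
      D.nots = l.countP Gate.isNot ∧ D.size = l.countP Gate.isAndOr + ks.length ∧
      ∀ y, (D.eval y = true ↔ ∃ k ∈ ks, (values y l).getD k false = true) := by
  induction ks with
  | nil =>
    refine ⟨⟨l ++ [Gate.const false], l.length⟩, ⟨_, rfl⟩, by simp, ?_, ?_, ?_⟩
    · simp [Circuit.nots, List.countP_append, Gate.isNot]
    · simp [Circuit.size, List.countP_append, Gate.isAndOr]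
    · intro y
      unfold Circuit.eval
      simp only
      rw [values_append, List.getD_append_right _ _ _ _ (by rw [values_length]), values_length]
      simp [Gate.eval]
  | cons k ks ih =>
    obtain ⟨D, ⟨l', hl'⟩, h1, h2, h3, h4⟩ := ih fun j hj => hk j (List.mem_cons_of_mem _ hj)
    refine ⟨⟨D.nodes ++ [Gate.or k D.out], D.nodes.length⟩, ⟨l' ++ [Gate.or k D.out], ?_⟩, by simp,
      ?_, ?_, ?_⟩
    · simp [hl']
    · rw [← h2]
      simp [Circuit.nots, List.countP_append, Gate.isNot]
    · have : (⟨D.nodes ++ [Gate.or k D.out], D.nodes.length⟩ : Circuit n).size = D.size + 1 := by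
        simp [Circuit.size, List.countP_append, Gate.isAndOr]
      rw [this, h3, List.length_cons]
      omega
    · intro y
      have h5 : (⟨D.nodes ++ [Gate.or k D.out], D.nodes.length⟩ : Circuit n).eval y =
          ((values y l).getD k false || D.eval y) := by
        unfold Circuit.eval
        simp only
        rw [values_append, List.getD_append_right _ _ _ _ (by rw [values_length]), values_length]
        simp only [Nat.sub_self, List.getD_cons_zero, Gate.eval]
        congr 1
        rw [hl', values_getD_append _ _ _ _ (hk k List.mem_cons_self)]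
      rw [h5, Bool.or_eq_true, h4]
      simp

/-- the monotone circuit that notices changes -/
theorem exists_noticer (hL : C.Layered lev) (x : Fin n → Bool) :
    ∃ D : Circuit n, D.nots = 0 ∧ D.size ≤ C.size + C.combos lev ∧
      D.eval x = false ∧ ∀ y, (∀ i, x i = true → y i = true) →
        (D.eval y = true ∧ clock C lev x < clock C lev y) ∨
        (D.eval y = false ∧ clock C lev x = clock C lev y ∧ C.eval x = C.eval y) := by
  have hk : ∀ k ∈ ((watch C lev x).filter fun k => k < C.nodes.length).toList,
      k < (frzL C x).length := by
    intro k hk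
    rw [Finset.mem_toList, Finset.mem_filter] at hk
    rw [frzL_length]
    exact hk.2
  obtain ⟨D, -, -, h1, h2, h3⟩ := or_chain (frzL C x) _ hk
  have h4 : ∀ y, (D.eval y = true ↔ ∃ k ∈ watch C lev x, mval C x y k = true) := by
    intro y
    rw [h3]
    constructor
    · rintro ⟨k, hk, h⟩
      rw [Finset.mem_toList, Finset.mem_filter] at hk
      exact ⟨k, hk.1, h⟩
    · rintro ⟨k, hk, h⟩
      refine ⟨k, ?_, h⟩
      rw [Finset.mem_toList, Finset.mem_filter]
      refine ⟨hk, ?_⟩
      by_contra hlt
      rw [mval_ge _ _ _ _ (by omega)] at h
      exact Bool.noConfusion h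
  refine ⟨D, ?_, ?_, ?_, ?_⟩
  · rw [h1, frzL_nots]
  · rw [h2, frzL_size, Finset.length_toList]
    have := card_watch (C := C) (lev := lev) x
    have := Finset.card_filter_le (watch C lev x) (fun k => k < C.nodes.length)
    omega
  · rw [← Bool.not_eq_true, h4]
    rintro ⟨k, hk, h⟩
    rw [watch_self x k hk] at h
    exact Bool.noConfusion h
  · intro y hy
    rcases clock_watch hL hy with ⟨h5, h6⟩ | ⟨h5, h6, h7⟩
    · left
      exact ⟨(h4 y).2 h6, h5⟩
    · right
      refine ⟨?_, h5, h7⟩
      rw [← Bool.not_eq_true, h4]
      rintro ⟨k, hk, h⟩
      rw [h6 k hk] at h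
      exact Bool.noConfusion h

end Pool.Agent.V8H38.NL
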