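import Pool.Agent.V8H38.NL.Core
import Pool.Agent.V8H38.NL.Layers

/-!
# Circuits with few NOT gates: the average-case theorem
-/

set_option linter.unusedSectionVars false

namespace Pool.Agent.V8H38.NL

open Finset

variable {V : Type} [Fintype V] [DecidableEq V]

theorem NN_fsum {ι : Type} (p : ℝ) (k : ℕ) (s : Finset ι) (F : ι → Finset V → ℝ)
    (x : Finset V) :
    NN p k (fun y => ∑ i ∈ s, F i y) x = ∑ i ∈ s, NN p k (F i) x := by
  classical
  induction s using Finset.induction_on with
  | empty => simp [NN_const]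
  | insert i s hi ih =>
    simp only [Finset.sum_insert hi]
    rw [NN_add]
    simp only
    rw [ih]

/-- the mean value over the scales -/
noncomputable def EE (p : ℝ) (m r : ℕ) (φ : Finset V → ℝ) : ℝ :=
  (∑ j ∈ Finset.range r, NN p (m * j) φ ∅) / r

theorem EE_mono {p : ℝ} (h0 : 0 ≤ p) (h1 : p ≤ 1) (m r : ℕ) {φ ψ : Finset V → ℝ}
    (h : ∀ y, φ y ≤ ψ y) : EE p m r φ ≤ EE p m r ψ := by
  unfold EE
  refine div_le_div_of_nonneg_right ?_ (Nat.cast_nonneg _)
  exact Finset.sum_le_sum fun j _ => NN_mono h0 h1 _ fun y _ => h y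

theorem EE_const (p : ℝ) (m : ℕ) {r : ℕ} (hr : 0 < r) (c : ℝ) :
    EE p m r (fun _ : Finset V => c) = c := by
  unfold EE
  simp only [NN_const, Finset.sum_const, Finset.card_range, nsmul_eq_mul]
  have : (r:ℝ) ≠ 0 := by exact_mod_cast hr.ne'
  field_simp

theorem EE_nonneg {p : ℝ} (h0 : 0 ≤ p) (h1 : p ≤ 1) (m r : ℕ) {φ : Finset V → ℝ}
    (h : ∀ y, 0 ≤ φ y) : 0 ≤ EE p m r φ := by
  unfold EE
  exact div_nonneg (Finset.sum_nonneg fun j _ => NN_nonneg h0 h1 _ h _) (Nat.cast_nonneg _)

theorem EE_add (p : ℝ) (m r : ℕ) (φ ψ : Finset V → ℝ) :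
    EE p m r (fun y => φ y + ψ y) = EE p m r φ + EE p m r ψ := by
  unfold EE
  rw [← add_div, ← Finset.sum_add_distrib]
  congr 1
  refine Finset.sum_congr rfl fun j _ => ?_
  rw [NN_add]

theorem EE_smul (p : ℝ) (m r : ℕ) (c : ℝ) (φ : Finset V → ℝ) :
    EE p m r (fun y => c * φ y) = c * EE p m r φ := by
  unfold EE
  rw [← mul_div_assoc, Finset.mul_sum]
  congr 1
  refine Finset.sum_congr rfl fun j _ => ?_
  rw [NN_smul]

theorem EE_fsum {ι : Type} (p : ℝ) (m r : ℕ) (s : Finset ι) (F : ι → Finset V → ℝ) :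
    EE p m r (fun y => ∑ i ∈ s, F i y) = ∑ i ∈ s, EE p m r (F i) := by
  unfold EE
  rw [← Finset.sum_div, Finset.sum_comm]
  congr 1
  refine Finset.sum_congr rfl fun j _ => ?_
  rw [NN_fsum]

/-- **Insensitivity.** On the average over `r` scales of noise, a small circuit with few NOT gates
and arbitrary gates rarely notices a planted word. -/
theorem insensitive {W : Type} [Fintype W] [Nonempty W] (Γ : W → Finset V) {l m R q r s : ℕ}
    (hl : 1 ≤ l) (hm : 1 ≤ m) (hR1 : 1 ≤ R) (hR : 8 * l * R ≤ q) (hr : 0 < r)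
    (hs1 : 2 * (s * r) ≤ 2 ^ l) (hs2 : 4 * (s * r * (small V (2 * l)).card) ≤ 2 ^ m)
    (hΓ : ∀ S : Finset V, S.card ≤ 2 * l →
      (Finset.univ.filter fun w => S ⊆ Γ w).card * q ^ S.card ≤ Fintype.card W)
    {n : ℕ} (σ : Fin n → Bool ⊕ V) (C : Net n) (lev : ℕ → ℕ) (hL : C.Layered lev)
    (hs : C.size + C.combos lev ≤ s) :
    EE (1 / (R:ℝ)) m r (fun x => cnt (fun w => C.eval (inp σ x) ≠ C.eval (inp σ (x ∪ Γ w))) /
      Fintype.card W) ≤ 4 * C.combos lev / r := by
  classical
  set p : ℝ := 1 / (R:ℝ) with hp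
  have hR0 : (0:ℝ) < R := by exact_mod_cast hR1
  have h0 : 0 < p := by positivity
  have h1 : p ≤ 1 := by
    rw [hp, div_le_one hR0]; exact_mod_cast hR1
  have hWpos : (0:ℝ) < Fintype.card W := by exact_mod_cast Fintype.card_pos
  have hrpos : (0:ℝ) < r := by exact_mod_cast hr
  set n₀ : ℝ := (((small V (2 * l)).card : ℕ) : ℝ) with hn₀
  have hn₀0 : 0 ≤ n₀ := Nat.cast_nonneg _
  set η : ℝ := s * ((1 / 2) ^ l + 2 * (n₀ * (1 / 2) ^ m)) with hη
  have hη0 : 0 ≤ η := by positivity
  have hrη : r * η ≤ 1 := by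
    have a1 : (2:ℝ) * (s * r) ≤ 2 ^ l := by exact_mod_cast hs1
    have a2 : (4:ℝ) * (s * r * n₀) ≤ 2 ^ m := by rw [hn₀]; exact_mod_cast hs2
    have b1 : (s * r : ℝ) * (1 / 2) ^ l ≤ 1 / 2 := by
      rw [one_div, inv_pow, ← div_eq_mul_inv, div_le_iff₀ (by positivity)]
      linarith
    have b2 : (s * r * n₀ : ℝ) * (1 / 2) ^ m ≤ 1 / 4 := by
      rw [one_div, inv_pow, ← div_eq_mul_inv, div_le_iff₀ (by positivity)]
      linarith
    have : r * η = (s * r : ℝ) * (1 / 2) ^ l + 2 * ((s * r * n₀ : ℝ) * (1 / 2) ^ m) := by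
      rw [hη]; ring
    rw [this]
    linarith
  set ck : Finset V → ℝ := fun x => (clock C lev (inp σ x) : ℝ) with hck
  set φ : Finset V → ℝ := fun x => cnt (fun w => C.eval (inp σ x) ≠ C.eval (inp σ (x ∪ Γ w))) /
      Fintype.card W with hφ
  -- pointwise inequality
  have point : ∀ x : Finset V, φ x ≤ (2 * NN p m ck x + (-2) * ck x) + η := by
    intro x
    obtain ⟨D, hD1, hD2, hD3, hD4⟩ := exists_noticer hL (inp σ x)
    have e0 := one_scale Γ hl hm hR1 hR hΓ σ D hD1 (hD2.trans hs) x
    have e1 : cnt (fun w => C.eval (inp σ x) ≠ C.eval (inp σ (x ∪ Γ w))) ≤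
        cnt (fun w => D.eval (inp σ x) ≠ D.eval (inp σ (x ∪ Γ w))) := by
      refine cnt_mono fun w hw => ?_
      rw [hD3]
      rcases hD4 (inp σ (x ∪ Γ w)) (inp_mono σ Finset.subset_union_left) with
        ⟨h2, -⟩ | ⟨-, -, h2⟩
      · rw [h2]; exact Bool.false_ne_true
      · exact absurd h2 hw
    have e2 : ind (fun y => D.eval (inp σ y) = true) x = 0 := by
      refine ind_false ?_
      rw [hD3]; exact Bool.false_ne_true
    have e3 : NN p m (ind fun y => D.eval (inp σ y) = true) x ≤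
        NN p m (fun y => ck y + (-1) * ck x) x := by
      refine NN_mono h0.le h1 m fun y hy => ?_
      rcases hD4 (inp σ y) (inp_mono σ hy) with ⟨h2, h3⟩ | ⟨h2, h3, -⟩
      · rw [ind_true (P := fun y => D.eval (inp σ y) = true) h2, hck]
        have : ((clock C lev (inp σ x) : ℕ) : ℝ) + 1 ≤ (clock C lev (inp σ y) : ℕ) := by
          exact_mod_cast h3
        linarith
      · rw [ind_false, hck]
        · simp only
          rw [h3]; linarith
        · rw [h2]; exact Bool.false_ne_true
    rw [NN_add] at e3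
    simp only at e3
    rw [NN_const] at e3
    rw [e2] at e0
    simp only [hφ]
    rw [div_le_iff₀ hWpos]
    refine e1.trans (e0.trans ?_)
    have e4 : 2 * (NN p m (ind fun y => D.eval (inp σ y) = true) x - 0) +
        s * ((1 / 2) ^ l + 2 * ((small V (2 * l)).card * (1 / 2) ^ m)) ≤
        (2 * NN p m ck x + (-2) * ck x) + η := by
      rw [hη, hn₀]
      linarith
    exact mul_le_mul_of_nonneg_right e4 hWpos.le
  -- average over one scale
  have scale : ∀ j : ℕ, NN p (m * j) φ ∅ ≤
      (2 * NN p (m * (j + 1)) ck ∅ + (-2) * NN p (m * j) ck ∅) + η := by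
    intro j
    have e1 := NN_mono h0.le h1 (m * j) (x := ∅) (fun y _ => point y)
    refine e1.trans (le_of_eq ?_)
    rw [NN_add, NN_add]
    simp only
    rw [NN_smul, NN_smul, NN_const]
    simp only
    rw [← NN_add_iter, Nat.mul_succ]
  -- sum over all scales
  have total : ∀ k : ℕ, ∑ j ∈ Finset.range k, NN p (m * j) φ ∅ ≤
      (2 * NN p (m * k) ck ∅ + (-2) * ck ∅) + k * η := by
    intro k
    induction k with
    | zero =>
      simp [NN_zero]
    | succ k ih =>
      rw [Finset.sum_range_succ]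
      refine (add_le_add ih (scale k)).trans (le_of_eq ?_)
      push_cast
      ring
  have h2 : NN p (m * r) ck ∅ ≤ 2 * C.combos lev - 1 := by
    have h3 : NN p (m * r) ck ∅ ≤
        NN p (m * r) (fun _ : Finset V => 2 * (C.combos lev : ℝ) - 1) ∅ := by
      refine NN_mono h0.le h1 _ fun y _ => ?_
      have : ((clock C lev (inp σ y) : ℕ) : ℝ) + 1 ≤ 2 * (C.combos lev : ℕ) := by
        exact_mod_cast clock_lt (C := C) (lev := lev) (inp σ y)
      simp only [hck]
      linarith
    rwa [NN_const] at h3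
  have h3 : 0 ≤ ck ∅ := by
    simp only [hck]
    exact Nat.cast_nonneg _
  unfold EE
  refine div_le_div_of_nonneg_right ?_ hrpos.le
  refine (total r).trans ?_
  linarith

/-- the planted sets rarely occur in the noise -/
theorem rare {W : Type} [Fintype W] (Γ : W → Finset V) {m R r M : ℕ}
    (hR1 : 1 ≤ R) (hrm : 2 * (r * m) ≤ R) (hr : 0 < r)
    (hW : r * Fintype.card W ≤ 2 ^ M) (hM : ∀ w, M ≤ (Γ w).card) :
    EE (1 / (R:ℝ)) m r (ind fun x => ∃ w, Γ w ⊆ x) ≤ 1 / r := by
  classical
  set p : ℝ := 1 / (R:ℝ) with hp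
  have hR0 : (0:ℝ) < R := by exact_mod_cast hR1
  have h0 : 0 < p := by positivity
  have h1 : p ≤ 1 := by
    rw [hp, div_le_one hR0]; exact_mod_cast hR1
  have hrpos : (0:ℝ) < r := by exact_mod_cast hr
  set f : Finset V → Prop := fun x => ∃ w, Γ w ⊆ x with hf
  have neg : ∀ j : ℕ, j < r → NN p (m * j) (ind f) ∅ ≤ 1 / r := by
    intro j hj
    have e1 : NN p (m * j) (ind f) ∅ ≤
        NN p (m * j) (fun y => ((Finset.univ : Finset W).toList.map fun w =>
          ind (fun z => Γ w ⊆ z) y).sum) ∅ := by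
      refine NN_mono h0.le h1 _ fun y _ => ?_
      rw [Finset.sum_map_toList]
      by_cases hfy : f y
      · rw [ind_true hfy]
        obtain ⟨w, hw⟩ := hfy
        calc (1:ℝ) = ind (fun z => Γ w ⊆ z) y := (ind_true (P := fun z => Γ w ⊆ z) hw).symm
          _ ≤ _ := Finset.single_le_sum (f := fun w => ind (fun z => Γ w ⊆ z) y)
            (fun w _ => ind_nonneg _ _) (Finset.mem_univ w)
      · rw [ind_false hfy]
        exact Finset.sum_nonneg fun w _ => ind_nonneg _ _
    rw [NN_list_sum, Finset.sum_map_toList] at e1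
    refine e1.trans ?_
    have hd0 : 0 ≤ 1 - (1 - p) ^ (m * j) := by
      have : (1 - p) ^ (m * j) ≤ 1 := pow_le_one₀ (by linarith) (by linarith)
      linarith
    have hd : 1 - (1 - p) ^ (m * j) ≤ 1 / 2 := by
      have hb := one_add_mul_le_pow (a := -p) (by linarith) (m * j)
      have hmj : ((m * j : ℕ) : ℝ) * p ≤ 1 / 2 := by
        rw [hp, mul_one_div, div_le_iff₀ hR0]
        have : 2 * (m * j) ≤ R := by
          calc 2 * (m * j) ≤ 2 * (r * m) := by
                rw [mul_comm r m]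
                exact Nat.mul_le_mul_left _ (Nat.mul_le_mul_left _ hj.le)
            _ ≤ R := hrm
        have h3 : ((2 * (m * j) : ℕ) : ℝ) ≤ R := by exact_mod_cast this
        push_cast at h3 ⊢
        linarith
      have e2 : (1 + -p) = 1 - p := by ring
      rw [e2] at hb
      linarith
    calc ∑ w, NN p (m * j) (ind fun z => Γ w ⊆ z) ∅ ≤ ∑ w : W, (1 / 2 : ℝ) ^ M := by
          refine Finset.sum_le_sum fun w _ => ?_
          rw [NN_contains]
          calc (1 - (1 - p) ^ (m * j)) ^ (Γ w).card ≤ (1 / 2) ^ (Γ w).card :=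
                pow_le_pow_left₀ hd0 hd _
            _ ≤ (1 / 2) ^ M := pow_le_pow_of_le_one (by norm_num) (by norm_num) (hM w)
      _ = Fintype.card W * (1 / 2) ^ M := by rw [Finset.sum_const, nsmul_eq_mul]; rfl
      _ ≤ 1 / r := by
          have : (r:ℝ) * Fintype.card W ≤ 2 ^ M := by exact_mod_cast hW
          rw [one_div, inv_pow, ← div_eq_mul_inv, div_le_div_iff₀ (by positivity) hrpos]
          linarith
  unfold EE
  rw [div_le_div_iff_of_pos_right hrpos]
  calc ∑ j ∈ Finset.range r, NN p (m * j) (ind f) ∅ ≤ ∑ j ∈ Finset.range r, (1 / r : ℝ) :=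
        Finset.sum_le_sum fun j hj => neg j (Finset.mem_range.1 hj)
    _ = 1 := by
      rw [Finset.sum_const, nsmul_eq_mul, Finset.card_range]
      field_simp

theorem agree_le {n : ℕ} {D : (Fin n → Bool) → ℝ} (hD : ∀ x, 0 ≤ D x) (C : Net n)
    (f : (Fin n → Bool) → Prop) : Net.agree D C f ≤ ∑ x, D x := by
  unfold Net.agree
  refine Finset.sum_le_sum fun x _ => ?_
  by_cases h : (C.eval x = true ↔ f x)
  · rw [if_pos h]
  · rw [if_neg h]; exact hD x

/-- **The average-case theorem, general form.** -/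
theorem core_avg {W : Type} [Fintype W] [Nonempty W] (Γ : W → Finset V) {l m R q r s M : ℕ}
    (hl : 1 ≤ l) (hm : 1 ≤ m) (hR1 : 1 ≤ R) (hR : 8 * l * R ≤ q) (hrm : 2 * (r * m) ≤ R)
    (hr : 0 < r)
    (hs1 : 2 * ((s + r) * r) ≤ 2 ^ l) (hs2 : 4 * ((s + r) * r * (small V (2 * l)).card) ≤ 2 ^ m)
    (hW : r * Fintype.card W ≤ 2 ^ M) (hM : ∀ w, M ≤ (Γ w).card)
    (hΓ : ∀ S : Finset V, S.card ≤ 2 * l →
      (Finset.univ.filter fun w => S ⊆ Γ w).card * q ^ S.card ≤ Fintype.card W)
    {n : ℕ} (σ : Fin n → Bool ⊕ V) (f : (Fin n → Bool) → Prop)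
    (hf : ∀ X : Finset V, f (inp σ X) ↔ ∃ w, Γ w ⊆ X) :
    ∃ D : (Fin n → Bool) → ℝ, (∀ x, 0 ≤ D x) ∧ ∑ x, D x = 1 ∧
      ∀ (C : Net n) (lev : ℕ → ℕ), C.Layered lev → C.size ≤ s →
        Net.agree D C f ≤ 1 / 2 + 3 * C.combos lev / r := by
  classical
  set p : ℝ := 1 / (R:ℝ) with hp
  have hR0 : (0:ℝ) < R := by exact_mod_cast hR1
  have h0 : 0 < p := by positivity
  have h1 : p ≤ 1 := by
    rw [hp, div_le_one hR0]; exact_mod_cast hR1
  have hWpos : (0:ℝ) < Fintype.card W := by exact_mod_cast Fintype.card_pos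
  have hrpos : (0:ℝ) < r := by exact_mod_cast hr
  set ψ : (Fin n → Bool) → Finset V → ℝ := fun x y =>
    (1 / 2) * ((if inp σ y = x then 1 else 0) +
      (∑ w, (if inp σ (y ∪ Γ w) = x then (1:ℝ) else 0)) / Fintype.card W) with hψ
  have hψ0 : ∀ x y, 0 ≤ ψ x y := by
    intro x y
    have : 0 ≤ ∑ w, (if inp σ (y ∪ Γ w) = x then (1:ℝ) else 0) :=
      Finset.sum_nonneg fun w _ => by split_ifs <;> norm_num
    simp only [hψ]
    have h3 : (0:ℝ) ≤ (if inp σ y = x then 1 else 0) := by split_ifs <;> norm_num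
    positivity
  -- sums of the weights
  have hsum : ∀ (P : (Fin n → Bool) → Prop) [DecidablePred P],
      (∑ x, if P x then EE p m r (ψ x) else 0) =
        EE p m r (fun y => (1 / 2) * (ind (fun y => P (inp σ y)) y +
          cnt (fun w => P (inp σ (y ∪ Γ w))) / Fintype.card W)) := by
    intro P _
    rw [← Finset.sum_filter, ← EE_fsum]
    congr 1
    funext y
    simp only [hψ]
    rw [← Finset.mul_sum, Finset.sum_add_distrib, ← Finset.sum_div]
    congr 2
    · rw [Finset.sum_filter, Finset.sum_eq_single (inp σ y)]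
      · by_cases hP : P (inp σ y)
        · rw [if_pos hP, if_pos rfl, ind_true (P := fun y => P (inp σ y)) hP]
        · rw [if_neg hP, ind_false (P := fun y => P (inp σ y)) hP]
      · intro x _ hx
        have hx' : ¬ inp σ y = x := fun h => hx h.symm
        simp [hx']
      · simp
    · congr 1
      rw [Finset.sum_comm, cnt_eq, Finset.card_filter]
      push_cast
      refine Finset.sum_congr rfl fun w _ => ?_
      rw [Finset.sum_filter, Finset.sum_eq_single (inp σ (y ∪ Γ w))]
      · simp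
      · intro x _ hx
        have hx' : ¬ inp σ (y ∪ Γ w) = x := fun h => hx h.symm
        simp [hx']
      · simp
  have hD0 : ∀ x, 0 ≤ EE p m r (ψ x) := fun x => EE_nonneg h0.le h1 _ _ (hψ0 x)
  have hD1 : ∑ x, EE p m r (ψ x) = 1 := by
    have := hsum fun _ => True
    simp only [if_true] at this
    rw [this]
    have h3 : (fun y : Finset V => (1 / 2 : ℝ) * (ind (fun _ => True) y +
        cnt (fun _ : W => True) / Fintype.card W)) = fun _ => 1 := by
      funext y
      rw [ind_true trivial, cnt_eq]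
      simp only [Finset.filter_true, Finset.card_univ]
      rw [div_self hWpos.ne']
      norm_num
    rw [h3, EE_const _ _ hr]
  refine ⟨fun x => EE p m r (ψ x), hD0, hD1, ?_⟩
  · intro C lev hL hs
    have hκ1 : (1:ℝ) ≤ C.combos lev := by
      have : 1 ≤ C.combos lev := by
        have := card_cuts (C := C) (lev := lev)
        omega
      exact_mod_cast this
    by_cases hκ : r < C.combos lev
    · have h2 := agree_le hD0 C f
      rw [hD1] at h2
      have h3 : (r:ℝ) ≤ C.combos lev := by exact_mod_cast hκ.le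
      have h4 : (3:ℝ) ≤ 3 * C.combos lev / r := by
        rw [le_div_iff₀ hrpos]; linarith
      linarith
    push Not at hκ
    unfold Net.agree
    rw [hsum]
    have ins := insensitive Γ hl hm hR1 hR hr hs1 hs2 hΓ σ C lev hL (add_le_add hs hκ)
    have rr := rare Γ hR1 hrm hr hW hM
    set φ : Finset V → ℝ := fun x => cnt (fun w => C.eval (inp σ x) ≠
      C.eval (inp σ (x ∪ Γ w))) / Fintype.card W with hφ
    have key : ∀ y, (1 / 2 : ℝ) * (ind (fun y => (C.eval (inp σ y) = true ↔ f (inp σ y))) y +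
        cnt (fun w => (C.eval (inp σ (y ∪ Γ w)) = true ↔ f (inp σ (y ∪ Γ w)))) /
          Fintype.card W) ≤
        (1 / 2) * 1 + ((1 / 2) * φ y + (1 / 2) * ind (fun x => ∃ w, Γ w ⊆ x) y) := by
      intro y
      have a1 : ind (fun y => (C.eval (inp σ y) = true ↔ f (inp σ y))) y ≤
          (1 - ind (fun y => C.eval (inp σ y) = true) y) + ind (fun x => ∃ w, Γ w ⊆ x) y := by
        by_cases hfy : ∃ w, Γ w ⊆ y
        · rw [ind_true (P := fun x => ∃ w, Γ w ⊆ x) hfy]
          have := ind_le_one (fun y => C.eval (inp σ y) = true) y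
          have := ind_le_one (fun y => (C.eval (inp σ y) = true ↔ f (inp σ y))) y
          linarith
        · rw [ind_false (P := fun x => ∃ w, Γ w ⊆ x) hfy]
          by_cases hC : C.eval (inp σ y) = true
          · rw [ind_true (P := fun y => C.eval (inp σ y) = true) hC, ind_false]
            · norm_num
            · intro h
              exact hfy ((hf y).1 (h.1 hC))
          · rw [ind_false (P := fun y => C.eval (inp σ y) = true) hC]
            have := ind_le_one (fun y => (C.eval (inp σ y) = true ↔ f (inp σ y))) y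
            linarith
      have a2 : cnt (fun w => (C.eval (inp σ (y ∪ Γ w)) = true ↔ f (inp σ (y ∪ Γ w)))) /
          Fintype.card W ≤ ind (fun y => C.eval (inp σ y) = true) y + φ y := by
        rw [hφ]
        simp only
        rw [div_le_iff₀ hWpos, add_mul, div_mul_cancel₀ _ hWpos.ne']
        by_cases hC : C.eval (inp σ y) = true
        · rw [ind_true (P := fun y => C.eval (inp σ y) = true) hC, one_mul]
          have h3 := cnt_nonneg (fun w => C.eval (inp σ y) ≠ C.eval (inp σ (y ∪ Γ w)))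
          have h4 : cnt (fun w => (C.eval (inp σ (y ∪ Γ w)) = true ↔ f (inp σ (y ∪ Γ w)))) ≤
              Fintype.card W := by
            rw [cnt_eq]
            exact_mod_cast Finset.card_le_univ _
          linarith
        · rw [ind_false (P := fun y => C.eval (inp σ y) = true) hC, zero_mul, zero_add]
          refine cnt_mono fun w hw => ?_
          have : f (inp σ (y ∪ Γ w)) := (hf _).2 ⟨w, Finset.subset_union_right⟩
          have h3 := hw.2 this
          rw [h3]
          exact hC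
      linarith
    refine (EE_mono h0.le h1 m r key).trans ?_
    rw [EE_add, EE_add, EE_const _ _ hr, EE_smul, EE_smul]
    have h3 : (1:ℝ) / r ≤ C.combos lev / r := div_le_div_of_nonneg_right hκ1 hrpos.le
    have e1 : (4 * C.combos lev / r : ℝ) = 4 * (C.combos lev / r) := by ring
    have e2 : (3 * C.combos lev / r : ℝ) = 3 * (C.combos lev / r) := by ring
    have h4 : (0:ℝ) ≤ C.combos lev / r := by positivity
    rw [e1] at ins
    rw [e2]
    linarith

end Pool.Agent.V8H38.NL
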