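import Pool.Agent.V8H38.NL.Appr

/-!
# Lower bound for circuits with few NOT gates: the general theorem
-/

set_option linter.unusedSectionVars false

namespace Pool.Agent.V8H38.NL

open Finset

variable {V : Type} [Fintype V] [DecidableEq V]

theorem inp_mono {n : ℕ} (σ : Fin n → Bool ⊕ V) {X Y : Finset V} (h : X ⊆ Y) (i : Fin n)
    (hi : inp σ X i = true) : inp σ Y i = true := by
  unfold inp at hi ⊢
  cases hj : σ i with
  | inl b => rw [hj] at hi; exact hi
  | inr v =>
    rw [hj] at hi
    simp only [decide_eq_true_eq] at hi ⊢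
    exact h hi

/-- **One scale.** A circuit without NOT gates which is one on `x ∪ Γ w` for many `w` is one on
`x ∪ noise` with about half of this probability. -/
theorem one_scale {W : Type} [Fintype W] (Γ : W → Finset V) {l m R q s : ℕ} (hl : 1 ≤ l)
    (hm : 1 ≤ m) (hR1 : 1 ≤ R) (hR : 8 * l * R ≤ q)
    (hΓ : ∀ S : Finset V, S.card ≤ 2 * l →
      (Finset.univ.filter fun w => S ⊆ Γ w).card * q ^ S.card ≤ Fintype.card W)
    {n : ℕ} (σ : Fin n → Bool ⊕ V) (D : Circuit n) (hD : D.nots = 0) (hs : D.size ≤ s)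
    (x : Finset V) :
    cnt (fun w => D.eval (inp σ x) ≠ D.eval (inp σ (x ∪ Γ w))) ≤
      (2 * (NN (1 / (R:ℝ)) m (ind fun y => D.eval (inp σ y) = true) x -
        ind (fun y => D.eval (inp σ y) = true) x) +
        s * ((1 / 2) ^ l + 2 * ((small V (2 * l)).card * (1 / 2) ^ m))) * Fintype.card W := by
  classical
  set p : ℝ := 1 / (R:ℝ) with hp
  have hR0 : (0:ℝ) < R := by exact_mod_cast hR1
  have h0 : 0 < p := by positivity
  have h1 : p ≤ 1 := by
    rw [hp, div_le_one hR0]; exact_mod_cast hR1
  set g : Finset V → Prop := fun y => D.eval (inp σ y) = true with hg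
  have hgm : ∀ y z, y ⊆ z → g y → g z := fun y z hyz h => eval_mono hD (inp_mono σ hyz) h
  have hmon : Monotone (ind g) := ind_mono hgm
  have hW0 : (0:ℝ) ≤ Fintype.card W := Nat.cast_nonneg _
  have hs0 : (0:ℝ) ≤ s := Nat.cast_nonneg _
  have hnn : (0:ℝ) ≤ s * ((1 / 2) ^ l + 2 * ((small V (2 * l)).card * (1 / 2) ^ m)) := by
    positivity
  have hge : ind g x ≤ NN p m (ind g) x := by
    have := NN_le_of_le h0.le h1 (Nat.zero_le m) hmon x
    rwa [NN_zero] at this
  by_cases hgx : g x
  · rw [cnt_false]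
    · refine mul_nonneg ?_ hW0
      linarith
    · intro w hw
      have : g (x ∪ Γ w) := hgm _ _ Finset.subset_union_left hgx
      apply hw
      rw [hg] at hgx this
      rw [hgx, this]
  · set κ := 4 * l * R with hκdef
    have hκ : 0 < κ := by positivity
    have hk : 2 * ((2 * l : ℕ) : ℝ) ≤ κ * p := by
      rw [hκdef, hp]
      push_cast
      rw [mul_assoc, mul_one_div, div_self hR0.ne']
      linarith
    have hq : 2 * κ ≤ q := by
      rw [hκdef]
      calc 2 * (4 * l * R) = 8 * l * R := by ring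
        _ ≤ q := hR
    have hq0 : 0 < q := lt_of_lt_of_le (by positivity) hR
    have hΓ' : ∀ S : Finset V, S.card ≤ 2 * l →
        cnt (fun w => S ⊆ Γ w) * q ^ S.card ≤ Fintype.card W := by
      intro S hS
      rw [cnt_eq]
      exact_mod_cast hΓ S hS
    obtain ⟨G, hG1, hG2, hG3, hG4⟩ := circ_appr Γ h0 h1 (m := m) hl hκ hk hq hΓ' σ x D.nodes hD
    set K := G.getD D.out ∅ with hK
    have hcomp := comparison Γ h0 h1 (l := l) (q := q) hq0 (by
      have : (8:ℝ) * l * R ≤ q := by exact_mod_cast hR
      rw [hp, mul_one_div, le_div_iff₀ hR0]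
      have : (0:ℝ) ≤ l * R := by positivity
      linarith) (fun S hS => hΓ S (by omega)) (G := K) (fun S hS => hG2 _ S hS)
    rw [← cnt_eq] at hcomp
    have hsz : (D.nodes.countP Gate.isAndOr : ℝ) ≤ s := by exact_mod_cast hs
    -- the planted side
    have e1 : cnt (fun w => D.eval (inp σ x) ≠ D.eval (inp σ (x ∪ Γ w))) ≤
        cnt (fun w => badP σ x D.nodes G (Γ w) ∨ acc K (Γ w)) := by
      refine cnt_mono fun w hw => ?_
      have hv : D.eval (inp σ (x ∪ Γ w)) = true := by
        by_contra h
        rw [Bool.not_eq_true] at h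
        have h2 : D.eval (inp σ x) = false := by simpa [hg] using hgx
        exact hw (by rw [h, h2])
      by_cases hacc : acc K (Γ w)
      · exact Or.inr hacc
      · exact Or.inl ⟨D.out, hv, hacc⟩
    have e2 := e1.trans (cnt_or _ _)
    -- the noise side
    have e3 : N p (ind (acc K)) ∅ ≤ NN p m (ind (acc K)) ∅ := by
      have := NN_le_of_le h0.le h1 hm (ind_mono fun y z hyz h => acc_mono (F := K) hyz h) ∅
      rwa [show NN p 1 (ind (acc K)) = N p (ind (acc K)) from by rw [NN_succ, NN_zero]] at this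
    have e4 : NN p m (ind (acc K)) ∅ ≤
        NN p m (fun Z => ind (badN σ x D.nodes G) Z + ind g (x ∪ Z)) ∅ := by
      refine NN_mono h0.le h1 m fun Z _ => ?_
      by_cases hacc : acc K Z
      · rw [ind_true hacc]
        by_cases hgZ : g (x ∪ Z)
        · rw [ind_true hgZ]
          have := ind_nonneg (badN σ x D.nodes G) Z
          linarith
        · have hb : badN σ x D.nodes G Z := ⟨D.out, hacc, Bool.eq_false_iff.2 hgZ⟩
          rw [ind_true hb]
          have := ind_nonneg g (x ∪ Z)
          linarith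
      · rw [ind_false hacc]
        have := ind_nonneg g (x ∪ Z)
        have := ind_nonneg (badN σ x D.nodes G) Z
        linarith
    rw [NN_add] at e4
    have e5 := NN_trans p m (ind g) x ∅
    rw [Finset.union_empty] at e5
    simp only [e5] at e4
    rw [ind_false hgx, sub_zero]
    set n₀ : ℝ := (((small V (2 * l)).card : ℕ) : ℝ) with hn₀
    have hn₀0 : 0 ≤ n₀ := Nat.cast_nonneg _
    have e6 : NN p m (ind (badN σ x D.nodes G)) ∅ ≤ s * (n₀ * (1 / 2) ^ m) :=
      hG3.trans (mul_le_mul_of_nonneg_right hsz (by positivity))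
    have e7 : cnt (fun w => badP σ x D.nodes G (Γ w)) ≤ s * ((1 / 2) ^ l * Fintype.card W) :=
      hG4.trans (mul_le_mul_of_nonneg_right hsz (by positivity))
    have e8 : N p (ind (acc K)) ∅ ≤ s * (n₀ * (1 / 2) ^ m) + NN p m (ind g) x := by linarith
    have e9 : cnt (fun w => acc K (Γ w)) ≤
        2 * (s * (n₀ * (1 / 2) ^ m) + NN p m (ind g) x) * Fintype.card W := by
      refine hcomp.trans ?_
      gcongr
    calc cnt (fun w => D.eval (inp σ x) ≠ D.eval (inp σ (x ∪ Γ w)))
        ≤ s * ((1 / 2) ^ l * Fintype.card W) +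
          2 * (s * (n₀ * (1 / 2) ^ m) + NN p m (ind g) x) * Fintype.card W := by linarith
      _ = _ := by ring

theorem NN_list_sum {ι : Type} (p : ℝ) (k : ℕ) (F : ι → Finset V → ℝ) (L : List ι)
    (x : Finset V) :
    NN p k (fun y => (L.map fun i => F i y).sum) x = (L.map fun i => NN p k (F i) x).sum := by
  induction L with
  | nil => simp [NN_const]
  | cons i L ih =>
    simp only [List.map_cons, List.sum_cons]
    rw [NN_add]
    simp only
    rw [ih]

/-- **The general theorem.** -/
theorem core {W : Type} [Fintype W] [Nonempty W] (Γ : W → Finset V) {l m R q r s t M : ℕ}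
    (hl : 1 ≤ l) (hm : 1 ≤ m) (hR1 : 1 ≤ R) (hR : 8 * l * R ≤ q) (hrm : 2 * (r * m) ≤ R)
    (hs1 : 2 * (s * r) ≤ 2 ^ l) (hs2 : 4 * (s * r * (small V (2 * l)).card) ≤ 2 ^ m)
    (hW : 2 * Fintype.card W ≤ 2 ^ M) (hM : ∀ w, M ≤ (Γ w).card)
    (hΓ : ∀ S : Finset V, S.card ≤ 2 * l →
      (Finset.univ.filter fun w => S ⊆ Γ w).card * q ^ S.card ≤ Fintype.card W)
    {n : ℕ} (σ : Fin n → Bool ⊕ V) (C : Circuit n) (ht : C.nots = t) (hs : C.size ≤ s)
    (hC : ∀ X : Finset V, C.eval (inp σ X) = true ↔ ∃ w, Γ w ⊆ X) : r < 12 * 2 ^ t := by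
  classical
  set p : ℝ := 1 / (R:ℝ) with hp
  have hR0 : (0:ℝ) < R := by exact_mod_cast hR1
  have h0 : 0 < p := by positivity
  have h1 : p ≤ 1 := by
    rw [hp, div_le_one hR0]; exact_mod_cast hR1
  have hWpos : (0:ℝ) < Fintype.card W := by exact_mod_cast Fintype.card_pos
  set n₀ : ℝ := (((small V (2 * l)).card : ℕ) : ℝ) with hn₀
  have hn₀0 : 0 ≤ n₀ := Nat.cast_nonneg _
  set η : ℝ := s * ((1 / 2) ^ l + 2 * (n₀ * (1 / 2) ^ m)) with hη
  have hη0 : 0 ≤ η := by positivity
  have hrη : r * η ≤ 1 := by
    have a1 : (2:ℝ) * (s * r) ≤ 2 ^ l := by exact_mod_cast hs1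
    have a2 : (4:ℝ) * (s * r * n₀) ≤ 2 ^ m := by rw [hn₀]; exact_mod_cast hs2
    have b1 : (s * r : ℝ) * (1 / 2) ^ l ≤ 1 / 2 := by
      rw [one_div, inv_pow, ← div_eq_mul_inv, div_le_iff₀ (by positivity)]
      linarith
    have b2 : (s * r * n₀ : ℝ) * (1 / 2) ^ m ≤ 1 / 4 := by
      rw [one_div, inv_pow, ← div_eq_mul_inv, div_le_iff₀ (by positivity)]
      linarith
    have : r * η = (s * r : ℝ) * (1 / 2) ^ l + 2 * ((s * r * n₀ : ℝ) * (1 / 2) ^ m) := by
      rw [hη]; ring
    rw [this]
    linarith
  obtain ⟨L, hL1, hL2, hL3⟩ := cover t C ht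
  set g : Circuit n → Finset V → ℝ := fun D => ind fun y => D.eval (inp σ y) = true with hg
  set f : Finset V → Prop := fun x => ∃ w, Γ w ⊆ x with hf
  -- pointwise inequality
  have point : ∀ x : Finset V, 1 + (-1) * ind f x ≤
      (L.map fun D => (2 * NN p m (g D) x + (-2) * g D x) + η).sum := by
    intro x
    by_cases hfx : f x
    · rw [ind_true hfx]
      have : ∀ D ∈ L, 0 ≤ (2 * NN p m (g D) x + (-2) * g D x) + η := by
        intro D hD
        have hmon : Monotone (g D) := ind_mono fun y z hyz h =>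
          eval_mono (hL2 D hD).1 (inp_mono σ hyz) h
        have hge := NN_le_of_le h0.le h1 (Nat.zero_le m) hmon x
        rw [NN_zero] at hge
        linarith
      have h2 : 0 ≤ (L.map fun D => (2 * NN p m (g D) x + (-2) * g D x) + η).sum := by
        refine List.sum_nonneg fun y hy => ?_
        obtain ⟨D, hD, rfl⟩ := List.mem_map.1 hy
        exact this D hD
      linarith
    · rw [ind_false hfx]
      have e1 : (Fintype.card W : ℝ) ≤
          (L.map fun D => cnt (fun w => D.eval (inp σ x) ≠ D.eval (inp σ (x ∪ Γ w)))).sum := by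
        have key : ∀ w : W, ∃ D ∈ L, D.eval (inp σ x) ≠ D.eval (inp σ (x ∪ Γ w)) := by
          intro w
          refine hL3 _ _ ?_
          have h2 : C.eval (inp σ (x ∪ Γ w)) = true :=
            (hC _).2 ⟨w, Finset.subset_union_right⟩
          rw [h2]
          intro h3
          exact hfx ((hC x).1 h3)
        have gen : ∀ (L' : List (Circuit n)) (P : W → Prop),
            (∀ w, P w → ∃ D ∈ L', D.eval (inp σ x) ≠ D.eval (inp σ (x ∪ Γ w))) →
            cnt P ≤ (L'.map fun D => cnt (fun w => D.eval (inp σ x) ≠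
              D.eval (inp σ (x ∪ Γ w)))).sum := by
          intro L'
          induction L' with
          | nil =>
            intro P hP
            rw [cnt_false]
            · simp
            · intro w hw
              obtain ⟨D, hD, -⟩ := hP w hw
              simp at hD
          | cons D L' ih =>
            intro P hP
            rw [List.map_cons, List.sum_cons]
            have h2 : cnt P ≤ cnt (fun w => D.eval (inp σ x) ≠ D.eval (inp σ (x ∪ Γ w)) ∨
                (P w ∧ ¬ D.eval (inp σ x) ≠ D.eval (inp σ (x ∪ Γ w)))) := by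
              refine cnt_mono fun w hw => ?_
              by_cases h : D.eval (inp σ x) ≠ D.eval (inp σ (x ∪ Γ w))
              · exact Or.inl h
              · exact Or.inr ⟨hw, h⟩
            have h3 := ih (fun w => P w ∧ ¬ D.eval (inp σ x) ≠ D.eval (inp σ (x ∪ Γ w)))
              (fun w hw => by
                obtain ⟨D', hD', hD2⟩ := hP w hw.1
                rcases List.mem_cons.1 hD' with h | h
                · rw [h] at hD2; exact absurd hD2 hw.2
                · exact ⟨D', h, hD2⟩)
            have h4 := h2.trans (cnt_or _ _)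
            linarith
        have := gen L (fun _ => True) (fun w _ => key w)
        refine le_trans ?_ this
        rw [cnt_eq]
        simp
      have e2 : (L.map fun D => cnt (fun w => D.eval (inp σ x) ≠
          D.eval (inp σ (x ∪ Γ w)))).sum ≤
          (L.map fun D => ((2 * NN p m (g D) x + (-2) * g D x) + η) * Fintype.card W).sum := by
        refine List.sum_le_sum fun D hD => ?_
        have := one_scale Γ hl hm hR1 hR hΓ σ D (hL2 D hD).1 ((hL2 D hD).2.trans hs) x
        refine this.trans (le_of_eq ?_)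
        rw [hη, hg]
        ring
      rw [List.sum_map_mul_right] at e2
      have e3 := e1.trans e2
      have : (1:ℝ) ≤ (L.map fun D => (2 * NN p m (g D) x + (-2) * g D x) + η).sum := by
        by_contra hlt
        push Not at hlt
        nlinarith
      linarith
  -- average over one scale
  have scale : ∀ j : ℕ, 1 + (-1) * NN p (m * j) (ind f) ∅ ≤
      (L.map fun D => (2 * NN p (m * (j + 1)) (g D) ∅ + (-2) * NN p (m * j) (g D) ∅) + η).sum := by
    intro j
    have e1 := NN_mono h0.le h1 (m * j) (x := ∅) (fun y _ => point y)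
    rw [NN_list_sum, NN_add] at e1
    simp only at e1
    rw [NN_const, NN_smul] at e1
    simp only at e1
    refine e1.trans (le_of_eq ?_)
    congr 1
    refine List.map_congr_left fun D _ => ?_
    rw [NN_add, NN_add]
    simp only
    rw [NN_smul, NN_smul, NN_const]
    simp only
    rw [← NN_add_iter, Nat.mul_succ]
  -- sum over all scales
  have total : ∀ k : ℕ, ∑ j ∈ Finset.range k, (1 + (-1) * NN p (m * j) (ind f) ∅) ≤
      (L.map fun D => (2 * NN p (m * k) (g D) ∅ + (-2) * g D ∅) + k * η).sum := by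
    intro k
    induction k with
    | zero =>
      simp [NN_zero]
    | succ k ih =>
      rw [Finset.sum_range_succ]
      refine (add_le_add ih (scale k)).trans (le_of_eq ?_)
      rw [← List.sum_map_add]
      congr 1
      refine List.map_congr_left fun D _ => ?_
      push_cast
      ring
  -- the planted sets do not occur in the noise
  have neg : ∀ j : ℕ, j < r → NN p (m * j) (ind f) ∅ ≤ 1 / 2 := by
    intro j hj
    have e1 : NN p (m * j) (ind f) ∅ ≤
        NN p (m * j) (fun y => ((Finset.univ : Finset W).toList.map fun w =>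
          ind (fun z => Γ w ⊆ z) y).sum) ∅ := by
      refine NN_mono h0.le h1 _ fun y _ => ?_
      rw [Finset.sum_map_toList]
      by_cases hfy : f y
      · rw [ind_true hfy]
        obtain ⟨w, hw⟩ := hfy
        calc (1:ℝ) = ind (fun z => Γ w ⊆ z) y := (ind_true (P := fun z => Γ w ⊆ z) hw).symm
          _ ≤ _ := Finset.single_le_sum (f := fun w => ind (fun z => Γ w ⊆ z) y)
            (fun w _ => ind_nonneg _ _) (Finset.mem_univ w)
      · rw [ind_false hfy]
        exact Finset.sum_nonneg fun w _ => ind_nonneg _ _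
    rw [NN_list_sum, Finset.sum_map_toList] at e1
    refine e1.trans ?_
    have hd0 : 0 ≤ 1 - (1 - p) ^ (m * j) := by
      have : (1 - p) ^ (m * j) ≤ 1 := pow_le_one₀ (by linarith) (by linarith)
      linarith
    have hd : 1 - (1 - p) ^ (m * j) ≤ 1 / 2 := by
      have hb := one_add_mul_le_pow (a := -p) (by linarith) (m * j)
      have hmj : ((m * j : ℕ) : ℝ) * p ≤ 1 / 2 := by
        rw [hp, mul_one_div, div_le_iff₀ hR0]
        have : 2 * (m * j) ≤ R := by
          calc 2 * (m * j) ≤ 2 * (r * m) := by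
                rw [mul_comm r m]
                exact Nat.mul_le_mul_left _ (Nat.mul_le_mul_left _ hj.le)
            _ ≤ R := hrm
        have h3 : ((2 * (m * j) : ℕ) : ℝ) ≤ R := by exact_mod_cast this
        push_cast at h3 ⊢
        linarith
      have e2 : (1 + -p) = 1 - p := by ring
      rw [e2] at hb
      linarith
    calc ∑ w, NN p (m * j) (ind fun z => Γ w ⊆ z) ∅ ≤ ∑ w : W, (1 / 2 : ℝ) ^ M := by
          refine Finset.sum_le_sum fun w _ => ?_
          rw [NN_contains]
          calc (1 - (1 - p) ^ (m * j)) ^ (Γ w).card ≤ (1 / 2) ^ (Γ w).card :=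
                pow_le_pow_left₀ hd0 hd _
            _ ≤ (1 / 2) ^ M := pow_le_pow_of_le_one (by norm_num) (by norm_num) (hM w)
      _ = Fintype.card W * (1 / 2) ^ M := by rw [Finset.sum_const, nsmul_eq_mul]; rfl
      _ ≤ 1 / 2 := by
          have : (2:ℝ) * Fintype.card W ≤ 2 ^ M := by exact_mod_cast hW
          rw [one_div, inv_pow, ← div_eq_mul_inv, div_le_iff₀ (by positivity)]
          linarith
  have lower : (r:ℝ) / 2 ≤ ∑ j ∈ Finset.range r, (1 + (-1) * NN p (m * j) (ind f) ∅) := by
    calc (r:ℝ) / 2 = ∑ _j ∈ Finset.range r, (1 / 2 : ℝ) := by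
          rw [Finset.sum_const, nsmul_eq_mul, Finset.card_range]; ring
      _ ≤ _ := Finset.sum_le_sum fun j hj => by
          have := neg j (Finset.mem_range.1 hj)
          linarith
  have upper : (L.map fun D => (2 * NN p (m * r) (g D) ∅ + (-2) * g D ∅) + r * η).sum ≤
      (L.map fun _ => (3:ℝ)).sum := by
    refine List.sum_le_sum fun D hD => ?_
    have a1 : NN p (m * r) (g D) ∅ ≤ 1 := NN_le_one h0.le h1 _ (fun y => ind_le_one _ _) ∅
    have a2 : 0 ≤ g D ∅ := ind_nonneg _ _
    linarith
  have h3 := lower.trans ((total r).trans upper)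
  rw [List.map_const', List.sum_replicate, nsmul_eq_mul, hL1] at h3
  have h4 : ((2 ^ (t + 1) - 1 : ℕ) : ℝ) < 2 ^ (t + 1) := by
    have : 2 ^ (t + 1) - 1 < 2 ^ (t + 1) := by
      have : 0 < 2 ^ (t + 1) := by positivity
      omega
    exact_mod_cast this
  have h5 : (r:ℝ) < 12 * 2 ^ t := by
    have h6 : (2:ℝ) ^ (t + 1) = 2 * 2 ^ t := by ring
    linarith
  exact_mod_cast h5

end Pool.Agent.V8H38.NL
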