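import Pool.Agent.V8H38.NL.Frag
import Pool.Agent.V8H38.NL.Cover

/-!
# Approximation of circuits without NOT gates
-/

set_option linter.unusedSectionVars false

namespace Pool.Agent.V8H38.NL

open Finset

variable {V : Type} [Fintype V] [DecidableEq V]

theorem sum_half_Ioc (a b : ℕ) : ∑ k ∈ Finset.Ioc a b, (1 / 2 : ℝ) ^ k ≤ (1 / 2) ^ a := by
  rcases le_or_gt a b with h | h
  · have : ∑ k ∈ Finset.Ioc a b, (1 / 2 : ℝ) ^ k = (1 / 2) ^ a - (1 / 2) ^ b := by
      induction b, h using Nat.le_induction with
      | base => simp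
      | succ b hb ih =>
        rw [Finset.sum_Ioc_succ_top (by omega), ih, pow_succ]
        ring
    rw [this]
    have : (0:ℝ) ≤ (1 / 2) ^ b := by positivity
    linarith
  · rw [Finset.Ioc_eq_empty (by omega), Finset.sum_empty]
    positivity

open Classical in
/-- number of words with a property -/
noncomputable def cnt {W : Type} [Fintype W] (P : W → Prop) : ℝ :=
  ((Finset.univ.filter fun w => P w).card : ℝ)

theorem cnt_eq {W : Type} [Fintype W] (P : W → Prop) [DecidablePred P] :
    cnt P = ((Finset.univ.filter P).card : ℝ) := by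
  unfold cnt
  congr

theorem cnt_mono {W : Type} [Fintype W] {P Q : W → Prop} (h : ∀ w, P w → Q w) :
    cnt P ≤ cnt Q := by
  classical
  rw [cnt_eq, cnt_eq]
  exact_mod_cast Finset.card_le_card fun w hw => by
    rw [Finset.mem_filter] at hw ⊢
    exact ⟨hw.1, h w hw.2⟩

theorem cnt_or {W : Type} [Fintype W] (P Q : W → Prop) :
    cnt (fun w => P w ∨ Q w) ≤ cnt P + cnt Q := by
  classical
  rw [cnt_eq, cnt_eq, cnt_eq, Finset.filter_or]
  exact_mod_cast Finset.card_union_le _ _

theorem cnt_nonneg {W : Type} [Fintype W] (P : W → Prop) : 0 ≤ cnt P := by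
  unfold cnt; positivity

theorem cnt_false {W : Type} [Fintype W] {P : W → Prop} (h : ∀ w, ¬ P w) : cnt P = 0 := by
  classical
  rw [cnt_eq, Finset.filter_eq_empty_iff.2 fun w _ => h w]
  simp

/-- **Approximation of one gate.** -/
theorem gate_appr {W : Type} [Fintype W] (Γ : W → Finset V) {p : ℝ} (h0 : 0 < p) (h1 : p ≤ 1)
    {l m κ q : ℕ} (hκ : 0 < κ) (hk : 2 * ((2 * l : ℕ) : ℝ) ≤ κ * p) (hq : 2 * κ ≤ q)
    (hΓ : ∀ S : Finset V, S.card ≤ 2 * l → cnt (fun w => S ⊆ Γ w) * q ^ S.card ≤ Fintype.card W)
    {F : Finset (Finset V)} (hF : ∀ S ∈ F, S.card ≤ 2 * l) :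
    ∃ G : Finset (Finset V), (∀ S ∈ G, S.card ≤ l) ∧
      NN p m (ind (fun y => acc G y ∧ ¬ acc F y)) ∅ ≤ (small V (2 * l)).card * (1 / 2) ^ m ∧
      cnt (fun w => acc F (Γ w) ∧ ¬ acc G (Γ w)) ≤ (1 / 2) ^ l * Fintype.card W := by
  classical
  obtain ⟨K, hK1, hK2, hK3, hK4⟩ := exists_closed h0.le h1 m (2 * l)
    (δ := (1 / 2) ^ m) (by positivity) _ F le_rfl
  have hK5 : ∀ S ∈ K, S.card ≤ 2 * l := fun S hS => (hK2 S hS).elim (hF S) id
  refine ⟨(mins K).filter fun S => S.card ≤ l, fun S hS => (Finset.mem_filter.1 hS).2, ?_, ?_⟩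
  · calc NN p m (ind fun y => acc ((mins K).filter fun S => S.card ≤ l) y ∧ ¬ acc F y) ∅
        ≤ NN p m (ind fun y => acc K y ∧ ¬ acc F y) ∅ := by
          refine NN_mono h0.le h1 m fun y _ => ind_le fun h => ⟨?_, h.2⟩
          exact acc_sub ((Finset.filter_subset _ _).trans (Finset.filter_subset _ _)) h.1
      _ ≤ ((small V (2 * l) \ F).card : ℝ) * (1 / 2) ^ m := hK4
      _ ≤ _ := by
          gcongr
          exact Finset.sdiff_subset
  · have hW : (0:ℝ) ≤ Fintype.card W := Nat.cast_nonneg _
    have hq0 : (0:ℝ) < q := by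
      have : 0 < q := by omega
      exact_mod_cast this
    -- union bound over the large minimal members
    have e1 : cnt (fun w => acc F (Γ w) ∧ ¬ acc ((mins K).filter fun S => S.card ≤ l) (Γ w)) ≤
        ∑ k ∈ Finset.Ioc l (2 * l), ∑ S ∈ (mins K).filter (fun S => S.card = k),
          cnt (fun w => S ⊆ Γ w) := by
      simp only [cnt_eq]
      have : (Finset.univ.filter fun w => acc F (Γ w) ∧
          ¬ acc ((mins K).filter fun S => S.card ≤ l) (Γ w)) ⊆
          (Finset.Ioc l (2 * l)).biUnion fun k => ((mins K).filter fun S => S.card = k).biUnion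
            fun S => Finset.univ.filter fun w => S ⊆ Γ w := by
        intro w hw
        rw [Finset.mem_filter] at hw
        obtain ⟨-, hw1, hw2⟩ := hw
        obtain ⟨S, hS, hSw⟩ := exists_min (acc_sub hK1 hw1)
        have hSl : l < S.card := by
          by_contra h
          exact hw2 ⟨S, by rw [Finset.mem_filter]; exact ⟨hS, by omega⟩, hSw⟩
        have hSK : S ∈ K := (Finset.mem_filter.1 hS).1
        rw [Finset.mem_biUnion]
        refine ⟨S.card, by rw [Finset.mem_Ioc]; exact ⟨hSl, hK5 S hSK⟩, ?_⟩
        rw [Finset.mem_biUnion]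
        refine ⟨S, by rw [Finset.mem_filter]; exact ⟨hS, rfl⟩, ?_⟩
        rw [Finset.mem_filter]
        exact ⟨Finset.mem_univ _, hSw⟩
      have h2 := (Finset.card_le_card this).trans Finset.card_biUnion_le
      have h3 := h2.trans (Finset.sum_le_sum fun k _ => Finset.card_biUnion_le)
      exact_mod_cast h3
    refine e1.trans ?_
    have e2 : ∀ k ∈ Finset.Ioc l (2 * l), ∑ S ∈ (mins K).filter (fun S => S.card = k),
        cnt (fun w => S ⊆ Γ w) ≤ (1 / 2) ^ k * Fintype.card W := by
      intro k hk'
      rw [Finset.mem_Ioc] at hk'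
      have e3 : ∀ S ∈ (mins K).filter (fun S => S.card = k), cnt (fun w => S ⊆ Γ w) ≤
          Fintype.card W / q ^ k := by
        intro S hS
        rw [Finset.mem_filter] at hS
        rw [le_div_iff₀ (by positivity), ← hS.2]
        exact hΓ S (by omega)
      refine (Finset.sum_le_sum e3).trans ?_
      rw [Finset.sum_const, nsmul_eq_mul]
      have e4 : (((mins K).filter fun S => S.card = k).card : ℝ) ≤ (κ:ℝ) ^ k := by
        exact_mod_cast card_mins_le h0 h1 hκ hk hK3 (k := k) (by omega)
      have e5 : (κ:ℝ) ≤ q / 2 := by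
        have : (2:ℝ) * κ ≤ q := by exact_mod_cast hq
        linarith
      calc (((mins K).filter fun S => S.card = k).card : ℝ) * (Fintype.card W / q ^ k)
          ≤ (q / 2) ^ k * (Fintype.card W / q ^ k) := by
            gcongr
            exact e4.trans (by gcongr)
        _ = (1 / 2) ^ k * Fintype.card W := by
            rw [div_pow, one_div, inv_pow]
            field_simp
    refine (Finset.sum_le_sum e2).trans ?_
    rw [← Finset.sum_mul]
    exact mul_le_mul_of_nonneg_right (sum_half_Ioc _ _) hW

/-- products of families -/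
def prodF (F G : Finset (Finset V)) : Finset (Finset V) :=
  (F ×ˢ G).image fun a => a.1 ∪ a.2

theorem acc_prodF {F G : Finset (Finset V)} {X : Finset V} :
    acc (prodF F G) X ↔ acc F X ∧ acc G X := by
  unfold acc prodF
  constructor
  · rintro ⟨S, hS, hSX⟩
    obtain ⟨a, ha, rfl⟩ := Finset.mem_image.1 hS
    rw [Finset.mem_product] at ha
    exact ⟨⟨a.1, ha.1, Finset.subset_union_left.trans hSX⟩,
      ⟨a.2, ha.2, Finset.subset_union_right.trans hSX⟩⟩
  · rintro ⟨⟨S, hS, hSX⟩, ⟨T, hT, hTX⟩⟩
    exact ⟨S ∪ T, Finset.mem_image.2 ⟨(S, T), Finset.mem_product.2 ⟨hS, hT⟩, rfl⟩,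
      Finset.union_subset hSX hTX⟩

theorem acc_union {F G : Finset (Finset V)} {X : Finset V} :
    acc (F ∪ G) X ↔ acc F X ∨ acc G X := by
  unfold acc
  constructor
  · rintro ⟨S, hS, hSX⟩
    rcases Finset.mem_union.1 hS with h | h
    · exact Or.inl ⟨S, h, hSX⟩
    · exact Or.inr ⟨S, h, hSX⟩
  · rintro (⟨S, hS, hSX⟩ | ⟨S, hS, hSX⟩)
    · exact ⟨S, Finset.mem_union_left _ hS, hSX⟩
    · exact ⟨S, Finset.mem_union_right _ hS, hSX⟩

/-- substitution: every input of a circuit is a constant or the membership of an element -/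
def inp {n : ℕ} (σ : Fin n → Bool ⊕ V) (X : Finset V) (i : Fin n) : Bool :=
  match σ i with
  | Sum.inl b => b
  | Sum.inr v => decide (v ∈ X)

/-- bad event on the noise: an approximator is one and the gate is zero -/
def badN {n : ℕ} (σ : Fin n → Bool ⊕ V) (x : Finset V) (L : List (Gate n))
    (G : List (Finset (Finset V))) (Z : Finset V) : Prop :=
  ∃ i, acc (G.getD i ∅) Z ∧ (values (inp σ (x ∪ Z)) L).getD i false = false

/-- bad event on the planted set: the gate is one and its approximator is zero -/
def badP {n : ℕ} (σ : Fin n → Bool ⊕ V) (x : Finset V) (L : List (Gate n))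
    (G : List (Finset (Finset V))) (Z : Finset V) : Prop :=
  ∃ i, (values (inp σ (x ∪ Z)) L).getD i false = true ∧ ¬ acc (G.getD i ∅) Z

theorem not_acc_empty {Z : Finset V} : ¬ acc ∅ Z := by
  rintro ⟨S, hS, -⟩
  simp at hS

/-- adding one gate -/
theorem badN_append {n : ℕ} {σ : Fin n → Bool ⊕ V} {x : Finset V} {L : List (Gate n)}
    {G : List (Finset (Finset V))} (hG : G.length = L.length) (g : Gate n)
    (F : Finset (Finset V)) {Z : Finset V} (h : badN σ x (L ++ [g]) (G ++ [F]) Z) :
    badN σ x L G Z ∨ (acc F Z ∧ g.eval (inp σ (x ∪ Z)) (values (inp σ (x ∪ Z)) L) = false) := by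
  obtain ⟨i, h1, h2⟩ := h
  rw [values_append] at h2
  rcases lt_trichotomy i L.length with hi | hi | hi
  · left
    refine ⟨i, ?_, ?_⟩
    · rwa [List.getD_append _ _ _ _ (by omega)] at h1
    · rwa [List.getD_append _ _ _ _ (by rw [values_length]; omega)] at h2
  · right
    rw [List.getD_append_right _ _ _ _ (by omega), hG, hi, Nat.sub_self] at h1
    rw [List.getD_append_right _ _ _ _ (by rw [values_length]; omega), values_length, hi,
      Nat.sub_self] at h2
    exact ⟨h1, h2⟩
  · rw [List.getD_eq_default _ _ (by simp; omega)] at h1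
    exact absurd h1 not_acc_empty

theorem badP_append {n : ℕ} {σ : Fin n → Bool ⊕ V} {x : Finset V} {L : List (Gate n)}
    {G : List (Finset (Finset V))} (hG : G.length = L.length) (g : Gate n)
    (F : Finset (Finset V)) {Z : Finset V} (h : badP σ x (L ++ [g]) (G ++ [F]) Z) :
    badP σ x L G Z ∨ (g.eval (inp σ (x ∪ Z)) (values (inp σ (x ∪ Z)) L) = true ∧ ¬ acc F Z) := by
  obtain ⟨i, h1, h2⟩ := h
  rw [values_append] at h1
  rcases lt_trichotomy i L.length with hi | hi | hi
  · left
    refine ⟨i, ?_, ?_⟩
    · rwa [List.getD_append _ _ _ _ (by rw [values_length]; omega)] at h1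
    · rwa [List.getD_append _ _ _ _ (by omega)] at h2
  · right
    rw [List.getD_append_right _ _ _ _ (by omega), hG, hi, Nat.sub_self] at h2
    rw [List.getD_append_right _ _ _ _ (by rw [values_length]; omega), values_length, hi,
      Nat.sub_self] at h1
    exact ⟨h1, h2⟩
  · rw [List.getD_eq_default _ _ (by simp [values_length]; omega)] at h1
    exact absurd h1 (by simp)

/-- **Approximation of a circuit without NOT gates.** -/
theorem circ_appr {W : Type} [Fintype W] (Γ : W → Finset V) {p : ℝ} (h0 : 0 < p) (h1 : p ≤ 1)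
    {l m κ q : ℕ} (hl : 1 ≤ l) (hκ : 0 < κ) (hk : 2 * ((2 * l : ℕ) : ℝ) ≤ κ * p)
    (hq : 2 * κ ≤ q)
    (hΓ : ∀ S : Finset V, S.card ≤ 2 * l → cnt (fun w => S ⊆ Γ w) * q ^ S.card ≤ Fintype.card W)
    {n : ℕ} (σ : Fin n → Bool ⊕ V) (x : Finset V) :
    ∀ L : List (Gate n), L.countP Gate.isNot = 0 →
    ∃ G : List (Finset (Finset V)), G.length = L.length ∧
      (∀ i, ∀ S ∈ G.getD i ∅, S.card ≤ l) ∧
      NN p m (ind (badN σ x L G)) ∅ ≤
        L.countP Gate.isAndOr * ((small V (2 * l)).card * (1 / 2) ^ m) ∧
      cnt (fun w => badP σ x L G (Γ w)) ≤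
        L.countP Gate.isAndOr * ((1 / 2) ^ l * Fintype.card W) := by
  classical
  intro L
  induction L using List.reverseRecOn with
  | nil =>
    intro _
    refine ⟨[], rfl, ?_, ?_, ?_⟩
    · intro i S hS; simp at hS
    · have : ind (badN σ x ([] : List (Gate n)) []) = fun _ => 0 := by
        funext Z
        refine ind_false ?_
        rintro ⟨i, h, -⟩
        simp at h
        exact not_acc_empty h
      rw [this, NN_const]
      simp
    · rw [cnt_false]
      · simp
      · rintro w ⟨i, h, -⟩
        simp [values_nil] at h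
  | append_singleton L g ih =>
    intro hL
    rw [List.countP_append] at hL
    have hL1 : L.countP Gate.isNot = 0 := by omega
    have hL2 : g.isNot = false := by
      have : [g].countP Gate.isNot = 0 := by omega
      simpa [List.countP_cons] using this
    obtain ⟨G, hG1, hG2, hG3, hG4⟩ := ih hL1
    set εN : ℝ := (small V (2 * l)).card * (1 / 2) ^ m with hεN
    set εP : ℝ := (1 / 2) ^ l * Fintype.card W with hεP
    -- the generic step
    have step : ∀ (F : Finset (Finset V)) (c : ℕ), (∀ S ∈ F, S.card ≤ l) →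
        (L ++ [g]).countP Gate.isAndOr = L.countP Gate.isAndOr + c →
        (NN p m (ind fun Z => ¬ badN σ x L G Z ∧ acc F Z ∧
          g.eval (inp σ (x ∪ Z)) (values (inp σ (x ∪ Z)) L) = false) ∅ ≤ c * εN) →
        (cnt (fun w => ¬ badP σ x L G (Γ w) ∧
          g.eval (inp σ (x ∪ Γ w)) (values (inp σ (x ∪ Γ w)) L) = true ∧ ¬ acc F (Γ w)) ≤
            c * εP) →
        ∃ G' : List (Finset (Finset V)), G'.length = (L ++ [g]).length ∧
          (∀ i, ∀ S ∈ G'.getD i ∅, S.card ≤ l) ∧
          NN p m (ind (badN σ x (L ++ [g]) G')) ∅ ≤ (L ++ [g]).countP Gate.isAndOr * εN ∧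
          cnt (fun w => badP σ x (L ++ [g]) G' (Γ w)) ≤
            (L ++ [g]).countP Gate.isAndOr * εP := by
      intro F c hF hc hN hP
      refine ⟨G ++ [F], by simp [hG1], ?_, ?_, ?_⟩
      · intro i S hS
        rcases lt_trichotomy i G.length with hi | hi | hi
        · rw [List.getD_append _ _ _ _ hi] at hS
          exact hG2 i S hS
        · rw [List.getD_append_right _ _ _ _ (by omega), hi, Nat.sub_self] at hS
          exact hF S hS
        · rw [List.getD_eq_default _ _ (by simp; omega)] at hS
          simp at hS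
      · have e1 : NN p m (ind (badN σ x (L ++ [g]) (G ++ [F]))) ∅ ≤
            NN p m (fun Z => ind (badN σ x L G) Z + ind (fun Z => ¬ badN σ x L G Z ∧ acc F Z ∧
              g.eval (inp σ (x ∪ Z)) (values (inp σ (x ∪ Z)) L) = false) Z) ∅ := by
          refine NN_mono h0.le h1 m fun Z _ => ?_
          by_cases hb : badN σ x L G Z
          · rw [ind_true hb]
            have h2 := ind_le_one (badN σ x (L ++ [g]) (G ++ [F])) Z
            have h3 := ind_nonneg (fun Z => ¬ badN σ x L G Z ∧ acc F Z ∧
              g.eval (inp σ (x ∪ Z)) (values (inp σ (x ∪ Z)) L) = false) Z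
            linarith
          · rw [ind_false hb, zero_add]
            refine ind_le fun h => ?_
            rcases badN_append hG1 g F h with h' | h'
            · exact absurd h' hb
            · exact ⟨hb, h'.1, h'.2⟩
        rw [NN_add] at e1
        rw [hc]
        push_cast
        simp only at e1
        linarith
      · have e1 : cnt (fun w => badP σ x (L ++ [g]) (G ++ [F]) (Γ w)) ≤
            cnt (fun w => badP σ x L G (Γ w) ∨ (¬ badP σ x L G (Γ w) ∧
              g.eval (inp σ (x ∪ Γ w)) (values (inp σ (x ∪ Γ w)) L) = true ∧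
              ¬ acc F (Γ w))) := by
          refine cnt_mono fun w h => ?_
          by_cases hb : badP σ x L G (Γ w)
          · exact Or.inl hb
          · right
            rcases badP_append hG1 g F h with h' | h'
            · exact absurd h' hb
            · exact ⟨hb, h'.1, h'.2⟩
        have e2 := e1.trans (cnt_or _ _)
        rw [hc]
        push_cast
        linarith
    have zeroN : ∀ (P : Finset V → Prop), (∀ Z, ¬ P Z) → NN p m (ind P) ∅ ≤ ((0:ℕ):ℝ) * εN := by
      intro P hP
      have : ind P = fun _ => 0 := funext fun Z => ind_false (hP Z)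
      rw [this, NN_const]; simp
    have zeroP : ∀ (P : W → Prop), (∀ w, ¬ P w) → cnt P ≤ ((0:ℕ):ℝ) * εP := by
      intro P hP
      rw [cnt_false hP]; simp
    cases g with
    | input j =>
      cases hj : σ j with
      | inl b =>
        have hval : ∀ Z, (Gate.input j).eval (inp σ (x ∪ Z)) (values (inp σ (x ∪ Z)) L) = b := by
          intro Z; simp [Gate.eval, inp, hj]
        cases b with
        | true =>
          refine step {∅} 0 (by simp) (by simp [Gate.isAndOr, List.countP_append]) (zeroN _ ?_) (zeroP _ ?_)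
          · rintro Z ⟨-, -, h⟩; rw [hval] at h; simp at h
          · rintro w ⟨-, -, h⟩
            exact h ⟨∅, by simp, by simp⟩
        | false =>
          refine step ∅ 0 (by simp) (by simp [Gate.isAndOr, List.countP_append]) (zeroN _ ?_) (zeroP _ ?_)
          · rintro Z ⟨-, h, -⟩; exact not_acc_empty h
          · rintro w ⟨-, h, -⟩; rw [hval] at h; simp at h
      | inr v =>
        by_cases hv : v ∈ x
        · have hval : ∀ Z, (Gate.input j).eval (inp σ (x ∪ Z)) (values (inp σ (x ∪ Z)) L) = true := by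
            intro Z; simp [Gate.eval, inp, hj, hv]
          refine step {∅} 0 (by simp) (by simp [Gate.isAndOr, List.countP_append]) (zeroN _ ?_) (zeroP _ ?_)
          · rintro Z ⟨-, -, h⟩; rw [hval] at h; simp at h
          · rintro w ⟨-, -, h⟩
            exact h ⟨∅, by simp, by simp⟩
        · have hval : ∀ Z, (Gate.input j).eval (inp σ (x ∪ Z)) (values (inp σ (x ∪ Z)) L) =
              decide (v ∈ Z) := by
            intro Z; simp [Gate.eval, inp, hj, hv]
          refine step {{v}} 0 (by simpa using hl) (by simp [Gate.isAndOr, List.countP_append]) (zeroN _ ?_) (zeroP _ ?_)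
          · rintro Z ⟨-, h, h'⟩
            rw [hval] at h'
            obtain ⟨S, hS, hSZ⟩ := h
            rw [Finset.mem_singleton] at hS
            subst hS
            simp at h'
            exact h' (by simpa using hSZ)
          · rintro w ⟨-, h', h⟩
            rw [hval] at h'
            exact h ⟨{v}, by simp, by simpa using h'⟩
    | const b =>
      cases b with
      | true =>
        refine step {∅} 0 (by simp) (by simp [Gate.isAndOr, List.countP_append]) (zeroN _ ?_) (zeroP _ ?_)
        · rintro Z ⟨-, -, h⟩; simp [Gate.eval] at h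
        · rintro w ⟨-, -, h⟩
          exact h ⟨∅, by simp, by simp⟩
      | false =>
        refine step ∅ 0 (by simp) (by simp [Gate.isAndOr, List.countP_append]) (zeroN _ ?_) (zeroP _ ?_)
        · rintro Z ⟨-, h, -⟩; exact not_acc_empty h
        · rintro w ⟨-, h, -⟩; simp [Gate.eval] at h
    | not a => simp [Gate.isNot] at hL2
    | and a b =>
      set F : Finset (Finset V) := prodF (G.getD a ∅) (G.getD b ∅) with hFdef
      have hF : ∀ S ∈ F, S.card ≤ 2 * l := by
        intro S hS
        rw [hFdef] at hS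
        unfold prodF at hS
        obtain ⟨c, hc, rfl⟩ := Finset.mem_image.1 hS
        rw [Finset.mem_product] at hc
        have h2 := hG2 a _ hc.1
        have h3 := hG2 b _ hc.2
        have h4 := Finset.card_union_le c.1 c.2
        omega
      obtain ⟨K, hK1, hK2, hK3⟩ := gate_appr Γ h0 h1 (m := m) hκ hk hq hΓ hF
      refine step K 1 hK1 (by simp [Gate.isAndOr, List.countP_append]) ?_ ?_
      · rw [Nat.cast_one, one_mul]
        refine le_trans (NN_mono h0.le h1 m fun Z _ => ind_le ?_) hK2
        rintro ⟨hb, h2, h3⟩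
        refine ⟨h2, fun h4 => ?_⟩
        rw [hFdef, acc_prodF] at h4
        simp only [Gate.eval, Bool.and_eq_false_iff] at h3
        rcases h3 with h3 | h3
        · exact hb ⟨a, h4.1, h3⟩
        · exact hb ⟨b, h4.2, h3⟩
      · rw [Nat.cast_one, one_mul]
        refine le_trans (cnt_mono ?_) hK3
        rintro w ⟨hb, h2, h3⟩
        refine ⟨?_, h3⟩
        rw [hFdef, acc_prodF]
        simp only [Gate.eval, Bool.and_eq_true] at h2
        constructor
        · by_contra h; exact hb ⟨a, h2.1, h⟩
        · by_contra h; exact hb ⟨b, h2.2, h⟩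
    | or a b =>
      set F : Finset (Finset V) := G.getD a ∅ ∪ G.getD b ∅ with hFdef
      have hF : ∀ S ∈ F, S.card ≤ 2 * l := by
        intro S hS
        rw [hFdef, Finset.mem_union] at hS
        rcases hS with h | h
        · have := hG2 a _ h; omega
        · have := hG2 b _ h; omega
      obtain ⟨K, hK1, hK2, hK3⟩ := gate_appr Γ h0 h1 (m := m) hκ hk hq hΓ hF
      refine step K 1 hK1 (by simp [Gate.isAndOr, List.countP_append]) ?_ ?_
      · rw [Nat.cast_one, one_mul]
        refine le_trans (NN_mono h0.le h1 m fun Z _ => ind_le ?_) hK2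
        rintro ⟨hb, h2, h3⟩
        refine ⟨h2, fun h4 => ?_⟩
        rw [hFdef, acc_union] at h4
        simp only [Gate.eval, Bool.or_eq_false_iff] at h3
        rcases h4 with h4 | h4
        · exact hb ⟨a, h4, h3.1⟩
        · exact hb ⟨b, h4, h3.2⟩
      · rw [Nat.cast_one, one_mul]
        refine le_trans (cnt_mono ?_) hK3
        rintro w ⟨hb, h2, h3⟩
        refine ⟨?_, h3⟩
        rw [hFdef, acc_union]
        simp only [Gate.eval, Bool.or_eq_true] at h2
        rcases h2 with h2 | h2
        · left; by_contra h; exact hb ⟨a, h2, h⟩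
        · right; by_contra h; exact hb ⟨b, h2, h⟩

end Pool.Agent.V8H38.NL
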