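import Pool.Agent.V8H38.NL.Code

/-!
# A graph whose large cliques are the words of a linear code contained in a set
-/

namespace Pool.Agent.V8H38.NL

open Finset

variable {M κ D : ℕ}

/-- the index of a check block -/
abbrev Chk (M κ D : ℕ) : Type := Fin M × (Bool × Fin κ) × Fin D

/-- vertices -/
abbrev Vtx (M κ D : ℕ) : Type :=
  (Chk M κ D × (ZMod 2 × ZMod 2)) ⊕ ((Fin M × Bool) × (Fin κ → ZMod 2))

/-- blocks -/
abbrev Blk (M κ D : ℕ) : Type := Chk M κ D ⊕ (Fin M × Bool)

/-- the block of a vertex -/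
def blk : Vtx M κ D → Blk M κ D
  | Sum.inl x => Sum.inl x.1
  | Sum.inr x => Sum.inr x.1

/-- combination of two halves -/
def comb (h : Bool) (s s' : Fin κ → ZMod 2) : Bool × Fin κ → ZMod 2 :=
  fun b => if b.1 = h then s b.2 else s' b.2

/-- one step of the running sum -/
def stepOK (A : Fin M → Bool × Fin κ → Fin D → ZMod 2)
    (x x' : Chk M κ D × (ZMod 2 × ZMod 2)) : Prop :=
  (x.1.1 = x'.1.1 ∧ x.1.2.1 = x'.1.2.1 ∧ (x.1.2.2 : ℕ) + 1 = (x'.1.2.2 : ℕ)) →
    x'.2.1 = x.2.1 + A x.1.1 x.1.2.1 x.1.2.2 * x.2.2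

/-- the first running sum is zero -/
def startOK (x : Chk M κ D × (ZMod 2 × ZMod 2)) : Prop := (x.1.2.2 : ℕ) = 0 → x.2.1 = 0

/-- compatibility of two check vertices -/
def okXX (A : Fin M → Bool × Fin κ → Fin D → ZMod 2)
    (x x' : Chk M κ D × (ZMod 2 × ZMod 2)) : Prop :=
  x.1 ≠ x'.1 ∧ startOK x ∧ startOK x' ∧ (x.1.2.2 = x'.1.2.2 → x.2.2 = x'.2.2) ∧
    stepOK A x x' ∧ stepOK A x' x

/-- compatibility of a check vertex and a symbol vertex -/
def okXR (A : Fin M → Bool × Fin κ → Fin D → ZMod 2)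
    (x : Chk M κ D × (ZMod 2 × ZMod 2)) (y : (Fin M × Bool) × (Fin κ → ZMod 2)) : Prop :=
  startOK x ∧ ((x.1.1 = y.1.1 ∧ x.1.2.1.1 = y.1.2 ∧ (x.1.2.2 : ℕ) + 1 = D) →
    x.2.1 + A x.1.1 x.1.2.1 x.1.2.2 * x.2.2 = y.2 x.1.2.1.2)

open Classical in
/-- The label of a pair of vertices: a constant, or an element of the ground set. -/
noncomputable def lab (A : Fin M → Bool × Fin κ → Fin D → ZMod 2) :
    Vtx M κ D → Vtx M κ D → Bool ⊕ (Fin M × (Bool × Fin κ → ZMod 2))
  | Sum.inl x, Sum.inl x' => Sum.inl (decide (okXX A x x'))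
  | Sum.inl x, Sum.inr y => Sum.inl (decide (okXR A x y))
  | Sum.inr y, Sum.inl x => Sum.inl (decide (okXR A x y))
  | Sum.inr y, Sum.inr y' =>
      if y.1 = y'.1 then Sum.inl false
      else if y.1.1 = y'.1.1 then Sum.inr (y.1.1, comb y.1.2 y.2 y'.2)
      else Sum.inl true

/-- the value of a label -/
def evl {V : Type} [DecidableEq V] (X : Finset V) : Bool ⊕ V → Bool
  | Sum.inl b => b
  | Sum.inr v => decide (v ∈ X)

theorem lab_comm (A : Fin M → Bool × Fin κ → Fin D → ZMod 2) (u u' : Vtx M κ D) :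
    lab A u u' = lab A u' u := by
  rcases u with x | y <;> rcases u' with x' | y'
  · simp only [lab]
    congr 2
    unfold okXX
    apply propext
    constructor <;> rintro ⟨h1, h2, h3, h4, h5, h6⟩ <;>
      exact ⟨fun h => h1 h.symm, h3, h2, fun h => (h4 h.symm).symm, h6, h5⟩
  · simp only [lab]
  · simp only [lab]
  · simp only [lab]
    by_cases h1 : y.1 = y'.1
    · rw [if_pos h1, if_pos h1.symm]
    · have h1' : ¬ y'.1 = y.1 := fun h => h1 h.symm
      rw [if_neg h1, if_neg h1']
      by_cases h2 : y.1.1 = y'.1.1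
      · rw [if_pos h2, if_pos h2.symm, ← h2]
        congr 2
        funext b
        unfold comb
        have h3 : y.1.2 ≠ y'.1.2 := fun h => h1 (Prod.ext h2 h)
        by_cases hb : b.1 = y.1.2
        · rw [if_pos hb, if_neg (by rw [hb]; exact h3)]
        · have hb' : b.1 = y'.1.2 := by
            revert hb h3
            cases b.1 <;> cases y.1.2 <;> cases y'.1.2 <;> simp
          rw [if_neg hb, if_pos hb']
      · have h2' : ¬ y'.1.1 = y.1.1 := fun h => h2 h.symm
        rw [if_neg h2, if_neg h2']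

theorem lab_blk (A : Fin M → Bool × Fin κ → Fin D → ZMod 2)
    (X : Finset (Fin M × (Bool × Fin κ → ZMod 2))) (u u' : Vtx M κ D) (h : blk u = blk u') :
    evl X (lab A u u') = false := by
  rcases u with x | y <;> rcases u' with x' | y'
  · simp only [blk, Sum.inl.injEq] at h
    simp only [lab, evl, decide_eq_false_iff_not]
    exact fun hh => hh.1 h
  · simp [blk] at h
  · simp [blk] at h
  · simp only [blk, Sum.inr.injEq] at h
    simp only [lab]
    rw [if_pos h]
    rfl

/-- running sums -/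
def ps (A : Fin M → Bool × Fin κ → Fin D → ZMod 2) (w : Fin D → ZMod 2) (a : Fin M)
    (b : Bool × Fin κ) (n : ℕ) : ZMod 2 :=
  ∑ j ∈ Finset.univ.filter (fun j : Fin D => (j : ℕ) < n), A a b j * w j

theorem ps_zero (A : Fin M → Bool × Fin κ → Fin D → ZMod 2) (w : Fin D → ZMod 2) (a : Fin M)
    (b : Bool × Fin κ) : ps A w a b 0 = 0 := by
  simp [ps]

theorem ps_succ (A : Fin M → Bool × Fin κ → Fin D → ZMod 2) (w : Fin D → ZMod 2) (a : Fin M)
    (b : Bool × Fin κ) (j : Fin D) :
    ps A w a b ((j : ℕ) + 1) = ps A w a b (j : ℕ) + A a b j * w j := by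
  unfold ps
  have : (Finset.univ.filter fun i : Fin D => (i : ℕ) < (j : ℕ) + 1) =
      insert j (Finset.univ.filter fun i : Fin D => (i : ℕ) < (j : ℕ)) := by
    ext i
    simp only [Finset.mem_filter, Finset.mem_univ, true_and, Finset.mem_insert, Fin.ext_iff]
    omega
  rw [this, Finset.sum_insert (by simp), add_comm]

theorem ps_all (A : Fin M → Bool × Fin κ → Fin D → ZMod 2) (w : Fin D → ZMod 2) (a : Fin M)
    (b : Bool × Fin κ) : ps A w a b D = sym A w a b := by
  unfold ps sym
  rw [Finset.filter_true_of_mem]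
  intro j _
  exact j.2

/-- the vertex of a word in a block -/
def pick (A : Fin M → Bool × Fin κ → Fin D → ZMod 2) (w : Fin D → ZMod 2) :
    Blk M κ D → Vtx M κ D
  | Sum.inl c => Sum.inl (c, (ps A w c.1 c.2.1 c.2.2, w c.2.2))
  | Sum.inr c => Sum.inr (c, fun i => sym A w c.1 (c.2, i))

theorem blk_pick (A : Fin M → Bool × Fin κ → Fin D → ZMod 2) (w : Fin D → ZMod 2)
    (β : Blk M κ D) : blk (pick A w β) = β := by
  rcases β with c | c <;> rfl

theorem pick_adj (A : Fin M → Bool × Fin κ → Fin D → ZMod 2) (w : Fin D → ZMod 2)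
    (X : Finset (Fin M × (Bool × Fin κ → ZMod 2))) (hX : gr A w ⊆ X)
    (β β' : Blk M κ D) (h : β ≠ β') : evl X (lab A (pick A w β) (pick A w β')) = true := by
  have hstart : ∀ c : Chk M κ D, startOK (c, (ps A w c.1 c.2.1 c.2.2, w c.2.2)) := by
    intro c hc
    simp only at hc ⊢
    rw [hc, ps_zero]
  have hstep : ∀ c c' : Chk M κ D, stepOK A (c, (ps A w c.1 c.2.1 c.2.2, w c.2.2))
      (c', (ps A w c'.1 c'.2.1 c'.2.2, w c'.2.2)) := by
    rintro c c' ⟨h1, h2, h3⟩
    simp only at h1 h2 h3 ⊢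
    rw [← h3, ← h1, ← h2, ps_succ]
  have hXR : ∀ (c : Chk M κ D) (e : Fin M × Bool), okXR A (c, (ps A w c.1 c.2.1 c.2.2, w c.2.2))
      (e, fun i => sym A w e.1 (e.2, i)) := by
    intro c e
    refine ⟨hstart c, ?_⟩
    rintro ⟨h1, h2, h3⟩
    simp only at h1 h2 h3 ⊢
    rw [← ps_succ, h3, ps_all, ← h1, ← h2]
  rcases β with c | c <;> rcases β' with c' | c'
  · simp only [pick, lab, evl, decide_eq_true_eq]
    refine ⟨fun hh => h (congrArg Sum.inl hh), hstart c, hstart c', fun hh => ?_, hstep c c',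
      hstep c' c⟩
    simp only at hh ⊢
    rw [hh]
  · simp only [pick, lab, evl, decide_eq_true_eq]
    exact hXR c c'
  · simp only [pick, lab, evl, decide_eq_true_eq]
    exact hXR c' c
  · simp only [pick, lab]
    have h1 : c ≠ c' := fun hh => h (by rw [hh])
    rw [if_neg h1]
    by_cases h2 : c.1 = c'.1
    · rw [if_pos h2]
      simp only [evl, decide_eq_true_eq]
      apply hX
      rw [mem_gr]
      funext b
      simp only [comb]
      by_cases hb : b.1 = c.2
      · rw [if_pos hb, ← hb]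
      · have h3 : c.2 ≠ c'.2 := fun h => h1 (Prod.ext h2 h)
        have hb' : b.1 = c'.2 := by
          revert hb h3
          cases b.1 <;> cases c.2 <;> cases c'.2 <;> simp
        rw [if_neg hb, ← h2, ← hb']
    · rw [if_neg h2]
      rfl

/-- A choice of pairwise adjacent vertices, one in each block, contains a word of the code. -/
theorem word_of_choice (hD : 0 < D) (A : Fin M → Bool × Fin κ → Fin D → ZMod 2)
    (X : Finset (Fin M × (Bool × Fin κ → ZMod 2))) (c : Blk M κ D → Vtx M κ D)
    (hc : ∀ β, blk (c β) = β)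
    (hadj : ∀ β β', β ≠ β' → evl X (lab A (c β) (c β')) = true) : ∃ w, gr A w ⊆ X := by
  -- contents
  have h1 : ∀ e : Chk M κ D, ∃ zw : ZMod 2 × ZMod 2, c (Sum.inl e) = Sum.inl (e, zw) := by
    intro e
    have := hc (Sum.inl e)
    rcases hce : c (Sum.inl e) with x | y
    · rw [hce] at this
      simp only [blk, Sum.inl.injEq] at this
      exact ⟨x.2, by rw [← this]⟩
    · rw [hce] at this
      simp [blk] at this
  have h2 : ∀ e : Fin M × Bool, ∃ s : Fin κ → ZMod 2, c (Sum.inr e) = Sum.inr (e, s) := by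
    intro e
    have := hc (Sum.inr e)
    rcases hce : c (Sum.inr e) with x | y
    · rw [hce] at this
      simp [blk] at this
    · rw [hce] at this
      simp only [blk, Sum.inr.injEq] at this
      exact ⟨y.2, by rw [← this]⟩
  choose zw hzw using h1
  choose s hs using h2
  have hXX : ∀ e e' : Chk M κ D, e ≠ e' → okXX A (e, zw e) (e', zw e') := by
    intro e e' hne
    have := hadj (Sum.inl e) (Sum.inl e') (by simpa using hne)
    rw [hzw, hzw] at this
    simpa only [lab, evl, decide_eq_true_eq] using this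
  have hXR : ∀ (e : Chk M κ D) (f : Fin M × Bool), okXR A (e, zw e) (f, s f) := by
    intro e f
    have := hadj (Sum.inl e) (Sum.inr f) (by simp)
    rw [hzw, hs] at this
    simpa only [lab, evl, decide_eq_true_eq] using this
  have hRR : ∀ a : Fin M, (a, comb false (s (a, false)) (s (a, true))) ∈ X := by
    intro a
    have := hadj (Sum.inr (a, false)) (Sum.inr (a, true)) (by simp)
    rw [hs, hs] at this
    simp only [lab] at this
    rw [if_neg (by simp)] at this
    simpa [evl] using this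
  by_cases hM : Nonempty (Fin M × (Bool × Fin κ))
  · obtain ⟨a₀, b₀⟩ := hM
    refine ⟨fun j => (zw (a₀, b₀, j)).2, ?_⟩
    set w : Fin D → ZMod 2 := fun j => (zw (a₀, b₀, j)).2 with hw
    have hw1 : ∀ a b j, (zw (a, b, j)).2 = w j := by
      intro a b j
      by_cases h : (a, b, j) = (a₀, b₀, j)
      · rw [h]
      · exact (hXX (a, b, j) (a₀, b₀, j) h).2.2.2.1 rfl
    have hz : ∀ a b (n : ℕ) (hn : n < D), (zw (a, b, ⟨n, hn⟩)).1 = ps A w a b n := by
      intro a b n
      induction n with
      | zero =>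
        intro hn
        rw [ps_zero]
        exact (hXR (a, b, ⟨0, hn⟩) (a, false)).1 rfl
      | succ n ih =>
        intro hn
        have hn' : n < D := by omega
        have := (hXX (a, b, ⟨n, hn'⟩) (a, b, ⟨n + 1, hn⟩) (by simp)).2.2.2.2.1
          ⟨rfl, rfl, rfl⟩
        simp only at this
        rw [this, ih hn', hw1]
        exact (ps_succ A w a b ⟨n, hn'⟩).symm
    have hsym : ∀ a h i, s (a, h) i = sym A w a (h, i) := by
      intro a h i
      have := (hXR (a, (h, i), ⟨D - 1, by omega⟩) (a, h)).2 ⟨rfl, rfl, by simp only; omega⟩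
      simp only at this
      have h3 := ps_succ A w a (h, i) ⟨D - 1, by omega⟩
      have h4 : D - 1 + 1 = D := by omega
      simp only [h4] at h3
      rw [← this, hz, hw1, ← ps_all]
      exact h3.symm
    intro v hv
    rw [mem_gr] at hv
    have := hRR v.1
    have hcomb : comb false (s (v.1, false)) (s (v.1, true)) = v.2 := by
      rw [← hv]
      funext b
      unfold comb
      rcases b with ⟨h, i⟩
      cases h
      · simp [hsym]
      · simp [hsym]
    rw [hcomb] at this
    exact this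
  · refine ⟨fun _ => 0, ?_⟩
    intro v hv
    rw [mem_gr] at hv
    have := hRR v.1
    have hcomb : comb false (s (v.1, false)) (s (v.1, true)) = v.2 := by
      funext b
      exact absurd ⟨(v.1, b)⟩ hM
    rw [hcomb] at this
    exact this

end Pool.Agent.V8H38.NL
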