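import Pool.Agent.NPC.Dec

/-!
# A monotone language in `NP`: graphs of polynomials in a grid
-/

namespace Pool.Agent.V8H38.NL

open Pool.Agent.NPC

/-- number of rows of the grid with `q` columns for inputs of length `n` -/
def rows (n q : ℕ) : ℕ := min q (n / 2 / q)

/-- number of coefficients of the polynomials -/
def dg (n q : ℕ) : ℕ := (rows n q - n.size) / q.size

/-- the value at `a`, modulo `q`, of the polynomial with the coefficients `c` -/
def polyMod (q a : ℕ) (c : List ℕ) : ℕ :=
  c.foldr (fun b s => if q = 0 then 0 else (b + a * s) % q) 0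

/-- verification: `y.1` is the number `q` of columns and `y.2` are the coefficients -/
def test (p : List Bool × (ℕ × List ℕ)) : Bool :=
  decide (p.2.1 < p.1.length / 2) && (p.1.getD p.2.1 false &&
    (decide (p.2.2.length = dg p.1.length p.2.1) &&
      (p.2.2.all (fun b => decide (b < p.2.1)) &&
        (List.range (rows p.1.length p.2.1)).all (fun a =>
          p.1.getD (p.1.length / 2 + a * p.2.1 + polyMod p.2.1 a p.2.2) false))))

/-- the language -/
def Planted : Set (List Bool) := {x | ∃ y : ℕ × List ℕ, test (x, y) = true}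

theorem polyMod_le (q a : ℕ) (c : List ℕ) : polyMod q a c ≤ q := by
  unfold polyMod
  cases c with
  | nil => simp
  | cons b c =>
    simp only [List.foldr_cons]
    split_ifs with h
    · omega
    · exact (Nat.mod_lt _ (Nat.pos_of_ne_zero h)).le

theorem poly_polyMod {α : Type} [TEnc α] {q a : α → ℕ} {c : α → List ℕ} (hq : Poly q)
    (ha : Poly a) (hc : Poly c) : Poly (fun x => polyMod (q x) (a x) (c x)) := by
  obtain ⟨r, hr⟩ := hq.sz_le
  unfold polyMod
  refine Poly.foldr (F := fun x b s => if q x = 0 then 0 else (b + a x * s) % q x) hc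
    (NPC.Poly.const 0) ?_ (Polynomial.C 2 * r) ?_
  · refine Poly.ite (Poly.decide_eq (hq.comp (Poly.fst Poly.id)) (NPC.Poly.const 0)) (NPC.Poly.const 0) ?_
    exact Poly.mod (Poly.add (Poly.fst (Poly.snd Poly.id))
      (Poly.mul (ha.comp (Poly.fst Poly.id)) (Poly.snd (Poly.snd Poly.id))))
      (hq.comp (Poly.fst Poly.id))
  · intro x k _
    have h1 := polyMod_le (q x) (a x) ((c x).drop k)
    unfold polyMod at h1
    have h2 := sz_nat_mono_le h1
    have h3 := hr x
    simp only [Polynomial.eval_mul, Polynomial.eval_C]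
    omega

theorem poly_size {α : Type} [TEnc α] {q : α → ℕ} (hq : Poly q) : Poly (fun x => (q x).size) :=
  (Poly.length (Poly.natBits hq)).congr fun x => by rw [Nat.size_eq_bits_len]

theorem poly_rows {α : Type} [TEnc α] {n q : α → ℕ} (hn : Poly n) (hq : Poly q) :
    Poly (fun x => rows (n x) (q x)) :=
  Poly.min hq (Poly.div (Poly.div hn (NPC.Poly.const 2)) hq)

theorem poly_dg {α : Type} [TEnc α] {n q : α → ℕ} (hn : Poly n) (hq : Poly q) :
    Poly (fun x => dg (n x) (q x)) :=
  Poly.div (Poly.sub (poly_rows hn hq) (poly_size hn)) (poly_size hq)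

theorem rows_le (n q : ℕ) : rows n q ≤ n := by
  unfold rows
  exact (min_le_right _ _).trans ((Nat.div_le_self _ _).trans (Nat.div_le_self _ _))

theorem dg_le (n q : ℕ) : dg n q ≤ n := by
  unfold dg
  exact (Nat.div_le_self _ _).trans ((Nat.sub_le _ _).trans (rows_le n q))

theorem poly_test : Poly test := by
  have hx : Poly (fun p : List Bool × (ℕ × List ℕ) => p.1) := Poly.fst Poly.id
  have hn : Poly (fun p : List Bool × (ℕ × List ℕ) => p.1.length) := Poly.length hx
  have hq : Poly (fun p : List Bool × (ℕ × List ℕ) => p.2.1) := Poly.fst (Poly.snd Poly.id)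
  have hc : Poly (fun p : List Bool × (ℕ × List ℕ) => p.2.2) := Poly.snd (Poly.snd Poly.id)
  unfold test
  refine Poly.and (Poly.decide_lt hq (Poly.div hn (NPC.Poly.const 2))) (Poly.and
    (Poly.getD hx hq (NPC.Poly.const false)) (Poly.and (Poly.decide_eq (Poly.length hc)
      (poly_dg hn hq)) (Poly.and ?_ ?_)))
  · exact Poly.all (p := fun p b => decide (b < p.2.1)) hc
      (Poly.decide_lt (Poly.snd Poly.id) (hq.comp (Poly.fst Poly.id)))
  · refine Poly.all (p := fun (p : List Bool × (ℕ × List ℕ)) a =>
      p.1.getD (p.1.length / 2 + a * p.2.1 + polyMod p.2.1 a p.2.2) false) ?_ ?_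
    · exact UPoly.range (UPoly.of_le (poly_rows hn hq) (UPoly.length hx) fun p => rows_le _ _)
    · have hx' := hx.comp (Poly.fst (Poly.id (α := (List Bool × (ℕ × List ℕ)) × ℕ)))
      have hn' := hn.comp (Poly.fst (Poly.id (α := (List Bool × (ℕ × List ℕ)) × ℕ)))
      have hq' := hq.comp (Poly.fst (Poly.id (α := (List Bool × (ℕ × List ℕ)) × ℕ)))
      have hc' := hc.comp (Poly.fst (Poly.id (α := (List Bool × (ℕ × List ℕ)) × ℕ)))
      have ha' := (Poly.snd (Poly.id (α := (List Bool × (ℕ × List ℕ)) × ℕ)))
      exact Poly.getD hx' (Poly.add (Poly.add (Poly.div hn' (NPC.Poly.const 2))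
        (Poly.mul ha' hq')) (poly_polyMod hq' ha' hc')) (NPC.Poly.const false)

theorem inNP_of_test {β : Type} [TEnc β] [TDec β] {T : List Bool × β → Bool} (hT : Poly T)
    (p : Polynomial ℕ) (h : ∀ x y, T (x, y) = true → sz y ≤ p.eval x.length) :
    InNP {x | ∃ y, T (x, y) = true} := by
  set g : List Bool → Bool := fun y => match unbits β (unpair y).2 with
    | none => false
    | some z => T ((unpair y).1, z) with hg
  have hgP : Poly g := by
    have h1 : Poly (fun y : List Bool => unbits β (unpair y).2) :=
      poly_unbits.comp (Poly.snd poly_unpair)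
    exact Poly.optCases (h := fun y z => T ((unpair y).1, z)) h1 (NPC.Poly.const false)
      (hT.comp (Poly.pair (Poly.fst (poly_unpair.comp (Poly.fst Poly.id))) (Poly.snd Poly.id)))
  refine ⟨fun y => [g y], p, polyTime_of_poly hgP, fun x => ?_⟩
  constructor
  · rintro ⟨y, hy⟩
    refine ⟨bits y, ?_, ?_⟩
    · rw [bits_length]; exact h x y hy
    · simp only [hg, unpair_pairBits, unbits_bits, hy]
  · rintro ⟨w, hw, hV⟩
    simp only [hg, unpair_pairBits, List.cons.injEq, and_true] at hV
    cases hu : unbits β w with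
    | none => rw [hu] at hV; simp at hV
    | some y =>
      rw [hu] at hV
      exact ⟨y, hV⟩

theorem planted_inNP : InNP Planted := by
  refine inNP_of_test poly_test (Polynomial.C 20 * (Polynomial.X + 1) ^ 2) ?_
  rintro x ⟨q, c⟩ h
  unfold test at h
  simp only [Bool.and_eq_true, decide_eq_true_eq, List.all_eq_true] at h
  obtain ⟨h1, -, h2, h3, -⟩ := h
  have hq : q ≤ x.length := h1.le.trans (Nat.div_le_self _ _)
  have hsz : ∀ b ≤ x.length, sz b ≤ 4 * x.length + 1 := by
    intro b hb
    have h4 := sz_nat_le b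
    have h5 : b.size ≤ b := NPC.Poly.size_le_self b
    omega
  have h4 := hsz q hq
  have h5 : sz c ≤ c.length * (4 * x.length + 1 + 1) + 1 :=
    sz_le_length_mul c _ fun b hb => hsz b ((h3 b hb).le.trans hq)
  have h6 : c.length ≤ x.length := by rw [h2]; exact dg_le _ _
  have h7 : c.length * (4 * x.length + 1 + 1) ≤ x.length * (4 * x.length + 1 + 1) :=
    Nat.mul_le_mul_right _ h6
  simp only [sz_pair, Polynomial.eval_mul, Polynomial.eval_C, Polynomial.eval_pow,
    Polynomial.eval_add, Polynomial.eval_X, Polynomial.eval_one]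
  nlinarith

/-- the language is closed upwards -/
theorem planted_mono {x y : List Bool} (hxy : List.Forall₂ (· ≤ ·) x y) (hx : x ∈ Planted) :
    y ∈ Planted := by
  obtain ⟨⟨q, c⟩, h⟩ := hx
  refine ⟨(q, c), ?_⟩
  have hl : x.length = y.length := hxy.length_eq
  have key : ∀ i, x.getD i false = true → y.getD i false = true := by
    clear h hl
    intro i
    induction hxy generalizing i with
    | nil => simp
    | cons hab _ ih =>
      cases i with
      | zero =>
        intro h
        simp only [List.getD_cons_zero] at h ⊢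
        rw [h] at hab
        exact Bool.eq_true_of_true_le hab
      | succ i =>
        simp only [List.getD_cons_succ]
        exact ih i
  unfold test at h ⊢
  simp only [Bool.and_eq_true, decide_eq_true_eq, List.all_eq_true] at h ⊢
  obtain ⟨h1, h2, h3, h4, h5⟩ := h
  rw [hl] at h1 h3 h5
  exact ⟨h1, key _ h2, h3, h4, fun a ha => key _ (h5 a ha)⟩

end Pool.Agent.V8H38.NL
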