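import Pool.Agent.V8H38.NL.Core
import Pool.Agent.V8H38.NL.Lang

/-!
# Graphs of polynomials
-/

namespace Pool.Agent.V8H38.NL

open Finset Polynomial

/-- number of sets with at most `c` elements -/
theorem card_small_le (V : Type) [Fintype V] [DecidableEq V] (c : ℕ) :
    (small V c).card ≤ (Fintype.card V + 1) ^ c := by
  classical
  induction c with
  | zero =>
    have : small V 0 = {∅} := by
      ext A; simp [small]
    rw [this]; simp
  | succ c ih =>
    have h : small V (c + 1) ⊆ (Finset.univ ×ˢ small V c).image
        (fun a : Option V × Finset V => match a.1 with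
          | none => a.2
          | some v => insert v a.2) := by
      intro A hA
      rw [small, Finset.mem_filter] at hA
      rw [Finset.mem_image]
      by_cases hc : A.card ≤ c
      · exact ⟨(none, A), by simp [small, hc], rfl⟩
      · have hne : A.Nonempty := by rw [← Finset.card_pos]; omega
        obtain ⟨v, hv⟩ := hne
        refine ⟨(some v, A.erase v), ?_, Finset.insert_erase hv⟩
        rw [Finset.mem_product]
        refine ⟨Finset.mem_univ _, ?_⟩
        rw [small, Finset.mem_filter]
        refine ⟨Finset.mem_univ _, ?_⟩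
        rw [Finset.card_erase_of_mem hv]
        omega
    refine (Finset.card_le_card h).trans (Finset.card_image_le.trans ?_)
    rw [Finset.card_product, Finset.card_univ, Fintype.card_option, pow_succ, mul_comm]
    exact Nat.mul_le_mul_right _ ih

variable {q : ℕ} [Fact q.Prime] {d M : ℕ}

/-- the polynomial with given coefficients -/
noncomputable def pol (w : Fin d → ZMod q) : (ZMod q)[X] := ∑ i : Fin d, C (w i) * X ^ (i : ℕ)

theorem pol_degree (w : Fin d → ZMod q) : (pol w).degree < d := by
  exact Polynomial.degree_sum_fin_lt w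

theorem pol_injective : Function.Injective (pol : (Fin d → ZMod q) → (ZMod q)[X]) := by
  intro w w' h
  funext i
  have h1 := congrArg (fun f => f.coeff (i : ℕ)) h
  simp only [pol, Polynomial.finsetSum_coeff, Polynomial.coeff_C_mul, Polynomial.coeff_X_pow] at h1
  have h2 : ∀ w : Fin d → ZMod q, ∑ j : Fin d, w j * (if (i:ℕ) = (j:ℕ) then 1 else 0) = w i := by
    intro w
    rw [Finset.sum_eq_single i]
    · simp
    · intro j _ hj
      have : (i:ℕ) ≠ (j:ℕ) := fun h => hj (Fin.ext h.symm)
      simp [this]
    · simp
  rw [h2, h2] at h1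
  exact h1

/-- the graph -/
noncomputable def graph (M : ℕ) (w : Fin d → ZMod q) : Finset (Fin M × ZMod q) :=
  Finset.univ.image fun a : Fin M => (a, (pol w).eval ((a : ℕ) : ZMod q))

theorem mem_graph {w : Fin d → ZMod q} {v : Fin M × ZMod q} :
    v ∈ graph M w ↔ (pol w).eval ((v.1 : ℕ) : ZMod q) = v.2 := by
  unfold graph
  rw [Finset.mem_image]
  constructor
  · rintro ⟨a, -, rfl⟩; rfl
  · intro h; exact ⟨v.1, Finset.mem_univ _, by rw [h]⟩

theorem card_graph (w : Fin d → ZMod q) : (graph M w).card = M := by
  unfold graph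
  rw [Finset.card_image_of_injective]
  · simp
  · intro a b h
    exact (Prod.mk.injEq _ _ _ _ ▸ h).1

theorem cast_injective (hM : M ≤ q) : Function.Injective fun a : Fin M => ((a : ℕ) : ZMod q) := by
  intro a b h
  have h1 : ((a:ℕ) : ZMod q) = ((b:ℕ) : ZMod q) := h
  rw [ZMod.natCast_eq_natCast_iff'] at h1
  rw [Nat.mod_eq_of_lt (lt_of_lt_of_le a.2 hM), Nat.mod_eq_of_lt (lt_of_lt_of_le b.2 hM)] at h1
  exact Fin.ext h1

/-- independence of at most `d` rows -/
theorem graph_indep (hM : M ≤ q) (hd : d ≤ q) (S : Finset (Fin M × ZMod q)) (hS : S.card ≤ d) :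
    (Finset.univ.filter fun w : Fin d → ZMod q => S ⊆ graph M w).card * q ^ S.card ≤
      Fintype.card (Fin d → ZMod q) := by
  classical
  by_cases hne : (Finset.univ.filter fun w : Fin d → ZMod q => S ⊆ graph M w).Nonempty
  · obtain ⟨w₀, hw₀⟩ := hne
    rw [Finset.mem_filter] at hw₀
    -- the rows of `S`
    set A : Finset (ZMod q) := S.image fun v => ((v.1 : ℕ) : ZMod q) with hA
    have hAcard : A.card = S.card := by
      rw [hA]
      refine Finset.card_image_of_injOn ?_
      intro v hv v' hv' h
      have h1 : v.1 = v'.1 := cast_injective hM h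
      have h2 := mem_graph.1 (hw₀.2 hv)
      have h3 := mem_graph.1 (hw₀.2 hv')
      refine Prod.ext h1 ?_
      rw [← h2, ← h3, h1]
    have hcardq : Fintype.card (ZMod q) = q := ZMod.card q
    obtain ⟨B, hB1, hB2⟩ := Finset.exists_subset_card_eq (s := Aᶜ) (n := d - S.card) (by
      rw [Finset.card_compl, hcardq, hAcard]
      omega)
    have hdisj : Disjoint A B := by
      rw [Finset.disjoint_left]
      intro v hv hv'
      exact (Finset.mem_compl.1 (hB1 hv')) hv
    have hAB : (A ∪ B).card = d := by
      rw [Finset.card_union_of_disjoint hdisj, hAcard, hB2]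
      omega
    have hle : (Finset.univ.filter fun w : Fin d → ZMod q => S ⊆ graph M w).card ≤
        Fintype.card (B → ZMod q) := by
      rw [← Finset.card_univ]
      refine Finset.card_le_card_of_injOn (fun w b => (pol w).eval (b : ZMod q))
        (fun _ _ => Finset.mem_coe.2 (Finset.mem_univ _)) ?_
      intro w hw w' hw' h
      simp only [Finset.coe_filter, Finset.mem_univ, true_and, Set.mem_ofPred_eq] at hw hw'
      apply pol_injective
      refine Polynomial.eq_of_degrees_lt_of_eval_finset_eq (A ∪ B)
        (by rw [hAB]; exact pol_degree w) (by rw [hAB]; exact pol_degree w') ?_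
      intro a ha
      rcases Finset.mem_union.1 ha with h1 | h1
      · rw [hA, Finset.mem_image] at h1
        obtain ⟨v, hv, rfl⟩ := h1
        rw [mem_graph.1 (hw hv), mem_graph.1 (hw' hv)]
      · exact congrFun h ⟨a, h1⟩
    rw [Fintype.card_fun, hcardq, Fintype.card_coe, hB2] at hle
    rw [Fintype.card_fun, hcardq, Fintype.card_fin]
    calc _ ≤ q ^ (d - S.card) * q ^ S.card := Nat.mul_le_mul_right _ hle
      _ = q ^ d := by rw [← pow_add]; congr 1; omega
  · rw [Finset.not_nonempty_iff_eq_empty] at hne
    rw [hne]; simp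

/-- the value of the polynomial computed with natural numbers -/
theorem polyMod_eq (a : ℕ) (w : Fin d → ZMod q) :
    polyMod q a (List.ofFn fun i => (w i).val) = ((pol w).eval (a : ZMod q)).val := by
  have hq : q ≠ 0 := (Fact.out : q.Prime).ne_zero
  have key : ∀ l : List ℕ, (polyMod q a l : ZMod q) =
      l.foldr (fun (b : ℕ) (s : ZMod q) => ((b : ℕ) : ZMod q) + (a : ZMod q) * s) 0 := by
    intro l
    unfold polyMod
    induction l with
    | nil => simp
    | cons b l ih =>
      simp only [List.foldr_cons, if_neg hq]
      rw [← ih]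
      rw [ZMod.natCast_mod]
      push_cast
      simp only [if_neg hq]
  have key2 : ∀ (d : ℕ) (w : Fin d → ZMod q),
      (List.ofFn fun i => (w i).val).foldr
        (fun (b : ℕ) (s : ZMod q) => ((b:ℕ) : ZMod q) + (a : ZMod q) * s) 0 =
        ∑ i : Fin d, w i * (a : ZMod q) ^ (i : ℕ) := by
    intro d
    induction d with
    | zero => intro w; simp
    | succ d ih =>
      intro w
      rw [List.ofFn_succ, List.foldr_cons, ih (fun i => w i.succ), Fin.sum_univ_succ]
      rw [ZMod.natCast_zmod_val]
      simp only [Fin.val_zero, pow_zero, mul_one, Fin.val_succ]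
      congr 1
      rw [Finset.mul_sum]
      refine Finset.sum_congr rfl fun i _ => ?_
      rw [pow_succ]; ring
  have heval : (pol w).eval (a : ZMod q) = ∑ i : Fin d, w i * (a : ZMod q) ^ (i : ℕ) := by
    unfold pol
    rw [Polynomial.eval_finsetSum]
    simp
  rw [heval, ← key2, ← key, ZMod.val_natCast, Nat.mod_eq_of_lt]
  have h1 := polyMod_le q a (List.ofFn fun i => (w i).val)
  rcases Nat.lt_or_eq_of_le h1 with h | h
  · exact h
  · exfalso
    unfold polyMod at h
    cases hl : (List.ofFn fun i => (w i).val) with
    | nil => rw [hl] at h; simp at h; exact hq h.symm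
    | cons b l =>
      rw [hl] at h
      simp only [List.foldr_cons, if_neg hq] at h
      have := Nat.mod_lt (b + a * List.foldr (fun b s => if q = 0 then 0 else (b + a * s) % q) 0 l)
        (Nat.pos_of_ne_zero hq)
      simp only [if_neg hq] at this h
      omega

end Pool.Agent.V8H38.NL
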