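import Pool.Agent.V8H38.NL.Clique
import Pool.Agent.V8H38.NL.Words
import Pool.Agent.V8H38.NL.HalfClique
import Pool.Agent.V8H38.NL.Avg

/-!
# The lower bound for the clique function
-/

namespace Pool.Agent.V8H38.NL

open Finset

variable {M κ D u₀ ρ v : ℕ}

/-- the vertices: gadget, universal, isolated -/
abbrev Tot (M κ D u₀ ρ : ℕ) : Type := (Vtx M κ D ⊕ Fin u₀) ⊕ Fin ρ

/-- the label of a pair of vertices -/
noncomputable def labT (A : Fin M → Bool × Fin κ → Fin D → ZMod 2) :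
    Tot M κ D u₀ ρ → Tot M κ D u₀ ρ → Bool ⊕ (Fin M × (Bool × Fin κ → ZMod 2))
  | Sum.inl (Sum.inl u), Sum.inl (Sum.inl u') => lab A u u'
  | Sum.inl (Sum.inl _), Sum.inl (Sum.inr _) => Sum.inl true
  | Sum.inl (Sum.inr _), Sum.inl (Sum.inl _) => Sum.inl true
  | Sum.inl (Sum.inr i), Sum.inl (Sum.inr j) => Sum.inl (decide (i ≠ j))
  | Sum.inl _, Sum.inr _ => Sum.inl false
  | Sum.inr _, Sum.inl _ => Sum.inl false
  | Sum.inr _, Sum.inr _ => Sum.inl false

/-- the block of a vertex -/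
def tag : Tot M κ D u₀ ρ → Option (Blk M κ D ⊕ Fin u₀)
  | Sum.inl (Sum.inl u) => some (Sum.inl (blk u))
  | Sum.inl (Sum.inr i) => some (Sum.inr i)
  | Sum.inr _ => none

theorem labT_comm (A : Fin M → Bool × Fin κ → Fin D → ZMod 2) (x y : Tot M κ D u₀ ρ) :
    labT A x y = labT A y x := by
  rcases x with (x | x) | x <;> rcases y with (y | y) | y <;> simp only [labT]
  · exact lab_comm A x y
  · congr 2
    exact propext ⟨fun h h' => h h'.symm, fun h h' => h h'.symm⟩

theorem labT_tag (A : Fin M → Bool × Fin κ → Fin D → ZMod 2)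
    (X : Finset (Fin M × (Bool × Fin κ → ZMod 2))) (x y : Tot M κ D u₀ ρ)
    (h : evl X (labT A x y) = true) : tag x ≠ tag y ∧ tag x ≠ none := by
  rcases x with (x | x) | x <;> rcases y with (y | y) | y <;> simp only [labT] at h
  · refine ⟨?_, by simp [tag]⟩
    intro hh
    simp only [tag, Option.some.injEq, Sum.inl.injEq] at hh
    rw [lab_blk A X x y hh] at h
    exact Bool.noConfusion h
  · exact ⟨by simp [tag], by simp [tag]⟩
  · simp [evl] at h
  · exact ⟨by simp [tag], by simp [tag]⟩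
  · refine ⟨?_, by simp [tag]⟩
    simpa [tag, evl] using h
  · simp [evl] at h
  · simp [evl] at h
  · simp [evl] at h
  · simp [evl] at h

/-- the graph -/
def gph (A : Fin M → Bool × Fin κ → Fin D → ZMod 2) (e : Fin v ≃ Tot M κ D u₀ ρ)
    (X : Finset (Fin M × (Bool × Fin κ → ZMod 2))) : SimpleGraph (Fin v) where
  Adj i j := evl X (labT A (e i) (e j)) = true
  symm := ⟨fun i j h => by rw [labT_comm]; exact h⟩
  loopless := ⟨fun i h => (labT_tag A X _ _ h).1 rfl⟩

/-- the chosen vertices -/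
def pickT (A : Fin M → Bool × Fin κ → Fin D → ZMod 2) (w : Fin D → ZMod 2) :
    Blk M κ D ⊕ Fin u₀ → Tot M κ D u₀ ρ
  | Sum.inl β => Sum.inl (Sum.inl (pick A w β))
  | Sum.inr i => Sum.inl (Sum.inr i)

theorem tag_pickT (A : Fin M → Bool × Fin κ → Fin D → ZMod 2) (w : Fin D → ZMod 2)
    (x : Blk M κ D ⊕ Fin u₀) : tag (pickT (ρ := ρ) A w x) = some x := by
  rcases x with x | x
  · simp [pickT, tag, blk_pick]
  · simp [pickT, tag]

theorem clique_gph (hD : 0 < D) (A : Fin M → Bool × Fin κ → Fin D → ZMod 2)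
    (e : Fin v ≃ Tot M κ D u₀ ρ) (X : Finset (Fin M × (Bool × Fin κ → ZMod 2))) {k : ℕ}
    (hk : k = Fintype.card (Blk M κ D ⊕ Fin u₀)) (hk2 : 2 ≤ k) :
    (∃ S : Finset (Fin v), k ≤ S.card ∧ (gph A e X).IsClique (S : Set (Fin v))) ↔
      ∃ w, gr A w ⊆ X := by
  classical
  constructor
  · rintro ⟨S, hS, hcl⟩
    have hinj : Set.InjOn (fun i => tag (e i)) (S : Set (Fin v)) := by
      intro i hi j hj hij
      by_contra hne
      exact (labT_tag A X _ _ (hcl hi hj hne)).1 hij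
    have hnone : ∀ i ∈ S, tag (e i) ≠ none := by
      intro i hi
      obtain ⟨j, hj, hne⟩ := Finset.exists_mem_ne (by omega : 1 < S.card) i
      exact (labT_tag A X _ _ (hcl hi hj hne.symm)).2
    have himg : S.image (fun i => tag (e i)) =
        (Finset.univ : Finset (Blk M κ D ⊕ Fin u₀)).map Function.Embedding.some := by
      refine Finset.eq_of_subset_of_card_le ?_ ?_
      · intro o ho
        obtain ⟨i, hi, rfl⟩ := Finset.mem_image.1 ho
        obtain ⟨b, hb⟩ := Option.ne_none_iff_exists'.1 (hnone i hi)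
        simp only [hb, Finset.mem_map, Finset.mem_univ, true_and]
        exact ⟨b, rfl⟩
      · rw [Finset.card_map, Finset.card_univ, Finset.card_image_of_injOn hinj, ← hk]
        exact hS
    have hex : ∀ β : Blk M κ D, ∃ i ∈ S, ∃ u : Vtx M κ D, e i = Sum.inl (Sum.inl u) ∧
        blk u = β := by
      intro β
      have : some (Sum.inl β) ∈ S.image (fun i => tag (e i)) := by
        rw [himg, Finset.mem_map]
        exact ⟨Sum.inl β, Finset.mem_univ _, rfl⟩
      obtain ⟨i, hi, hti⟩ := Finset.mem_image.1 this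
      refine ⟨i, hi, ?_⟩
      rcases hei : e i with (u | u) | u
      · rw [hei] at hti
        simp only [tag, Option.some.injEq, Sum.inl.injEq] at hti
        exact ⟨u, rfl, hti⟩
      · rw [hei] at hti
        simp [tag] at hti
      · rw [hei] at hti
        simp [tag] at hti
    choose i hiS c hc1 hc2 using hex
    refine word_of_choice hD A X c hc2 ?_
    intro β β' hne
    have hne' : i β ≠ i β' := by
      intro h
      have h1 := hc1 β
      rw [h, hc1 β'] at h1
      simp only [Sum.inl.injEq] at h1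
      apply hne
      rw [← hc2 β, ← hc2 β', h1]
    have := hcl (hiS β) (hiS β') hne'
    simp only [gph] at this
    rw [hc1, hc1] at this
    exact this
  · rintro ⟨w, hw⟩
    have hinj : Function.Injective fun x : Blk M κ D ⊕ Fin u₀ =>
        e.symm (pickT (ρ := ρ) A w x) := by
      intro x y h
      have h1 := e.symm.injective h
      have h2 := congrArg tag h1
      rw [tag_pickT, tag_pickT] at h2
      exact Option.some.inj h2
    refine ⟨Finset.univ.map ⟨_, hinj⟩, ?_, ?_⟩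
    · rw [Finset.card_map, Finset.card_univ, hk]
    · intro i hi j hj hne
      simp only [Finset.coe_map, Function.Embedding.coeFn_mk, Finset.coe_univ,
        Set.image_univ, Set.mem_range] at hi hj
      obtain ⟨x, rfl⟩ := hi
      obtain ⟨y, rfl⟩ := hj
      have hxy : x ≠ y := fun h => hne (by rw [h])
      simp only [gph, Equiv.apply_symm_apply]
      rcases x with x | x <;> rcases y with y | y
      · simp only [pickT, labT]
        exact pick_adj A w X hw x y (fun h => hxy (by rw [h]))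
      · simp [pickT, labT, evl]
      · simp [pickT, labT, evl]
      · simp only [pickT, labT, evl, decide_eq_true_eq]
        exact fun h => hxy (by rw [h])

/-- The adjacency matrix of a graph, followed by zeros, as an input of `n` bits. -/
noncomputable def padBits {v : ℕ} (n : ℕ) (G : SimpleGraph (Fin v)) (i : Fin n) : Bool :=
  if h : (i : ℕ) < v * v then adjBits G ⟨i, h⟩ else false

theorem padBits_self {v : ℕ} (G : SimpleGraph (Fin v)) : padBits (v * v) G = adjBits G := by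
  funext i
  unfold padBits
  rw [dif_pos i.2]

/-- the substitution -/
noncomputable def sig (n : ℕ) (A : Fin M → Bool × Fin κ → Fin D → ZMod 2)
    (e : Fin v ≃ Tot M κ D u₀ ρ) (i : Fin n) : Bool ⊕ (Fin M × (Bool × Fin κ → ZMod 2)) :=
  if h : (i : ℕ) < v * v then
    labT A (e (finProdFinEquiv.symm (⟨i, h⟩ : Fin (v * v))).1)
      (e (finProdFinEquiv.symm (⟨i, h⟩ : Fin (v * v))).2)
  else Sum.inl false

theorem padBits_gph (n : ℕ) (A : Fin M → Bool × Fin κ → Fin D → ZMod 2)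
    (e : Fin v ≃ Tot M κ D u₀ ρ) (X : Finset (Fin M × (Bool × Fin κ → ZMod 2))) :
    padBits n (gph A e X) = inp (sig n A e) X := by
  funext i
  have key : ∀ z : Bool ⊕ (Fin M × (Bool × Fin κ → ZMod 2)),
      decide (evl X z = true) = evl X z := by
    intro z
    simp
  have h2 : ∀ (n : ℕ) (σ : Fin n → Bool ⊕ (Fin M × (Bool × Fin κ → ZMod 2))) (j : Fin n),
      inp σ X j = evl X (σ j) := by
    intro n σ j
    unfold inp evl
    rfl
  rw [h2]
  unfold padBits sig
  by_cases h : (i : ℕ) < v * v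
  · rw [dif_pos h, dif_pos h]
    unfold adjBits
    rw [← key]
    apply Bool.eq_iff_iff.2
    exact (@decide_eq_true_iff _ (Classical.propDecidable _)).trans
      (@decide_eq_true_iff (evl X (labT A (e (finProdFinEquiv.symm ⟨i, h⟩).1)
        (e (finProdFinEquiv.symm ⟨i, h⟩).2)) = true) _).symm
  · rw [dif_neg h, dif_neg h]
    rfl

/-- **The average-case theorem for the clique function.** -/
theorem clique_avg (n v k μ r : ℕ) (hv : 1 ≤ v) (hrpos : 0 < r) (f : (Fin n → Bool) → Prop)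
    (hf : ∀ G : SimpleGraph (Fin v), f (padBits n G) ↔
      ∃ S : Finset (Fin v), k ≤ S.card ∧ G.IsClique (S : Set (Fin v)))
    (h1 : v ^ 2 < 2 ^ μ) (h2 : 90 * μ ^ 5 ≤ k) (h3 : 2 * k ≤ v)
    (h4 : 2 ^ 25 * r * μ ^ 10 ≤ v ^ 2) :
    ∃ D : (Fin n → Bool) → ℝ, (∀ x, 0 ≤ D x) ∧ ∑ x, D x = 1 ∧
      ∀ (C : Net n) (lev : ℕ → ℕ), C.Layered lev → C.size ≤ 2 ^ μ →
        Net.agree D C f ≤ 1 / 2 + 3 * C.combos lev / r := by
  have hμ1 : 1 ≤ μ := by
    by_contra h0
    have : μ = 0 := by omega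
    subst this
    have : 1 ≤ v ^ 2 := Nat.one_le_pow _ _ hv
    simp only [pow_zero] at h1
    omega
  set l := 2 * μ + 2 with hl
  set m := 4 * μ ^ 2 + 6 * μ + 3 with hm
  set R := 2 * (r * m) with hR
  have hmpos : 0 < m := by positivity
  have hRpos : 0 < R := by positivity
  set q₀ := 8 * l * R with hq₀
  have hq₀pos : 0 < q₀ := by positivity
  set κ := Nat.clog 4 q₀ with hκ
  have hq1 : q₀ ≤ 4 ^ κ := Nat.le_pow_clog (by norm_num) _
  have hμ2 : μ ≤ μ ^ 2 := by nlinarith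
  have hμ2' : 1 ≤ μ ^ 2 := Nat.one_le_pow _ _ hμ1
  have hm10 : m ≤ 13 * μ ^ 2 := by omega
  have hl3 : l ≤ 4 * μ := by omega
  have hq₀le : q₀ ≤ 832 * (r * μ ^ 3) := by
    calc q₀ = 16 * (l * (r * m)) := by rw [hq₀, hR]; ring
      _ ≤ 16 * ((4 * μ) * (r * (13 * μ ^ 2))) := by gcongr
      _ = 832 * (r * μ ^ 3) := by ring
  have hq₀ge : 9 * μ ^ 2 ≤ q₀ := by
    calc 9 * μ ^ 2 ≤ 16 * (1 * (1 * m)) := by omega
      _ ≤ 16 * (l * (r * m)) := by gcongr <;> omega
      _ = q₀ := by rw [hq₀, hR]; ring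
  have hκ1 : 1 ≤ κ := Nat.clog_pos (by norm_num) (by omega)
  have hq2 : 4 ^ κ ≤ 3328 * (r * μ ^ 3) := by
    have : 4 ^ (κ - 1) < q₀ := Nat.pow_pred_clog_lt_self (by norm_num) (by omega)
    calc 4 ^ κ = 4 * 4 ^ (κ - 1) := by
          rw [← pow_succ']; congr 1; omega
      _ ≤ 4 * (832 * (r * μ ^ 3)) := by gcongr; omega
      _ = _ := by ring
  have hpow : ∀ a b : ℕ, a ≤ b → μ ^ a ≤ μ ^ b := fun a b h => Nat.pow_le_pow_right hμ1 h
  have h4κ : 4 ^ κ < 2 ^ μ := by
    calc 4 ^ κ ≤ 3328 * (r * μ ^ 3) := hq2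
      _ ≤ 2 ^ 25 * (r * μ ^ 10) := by
        gcongr
        · norm_num
        · norm_num
      _ = 2 ^ 25 * r * μ ^ 10 := by ring
      _ ≤ v ^ 2 := h4
      _ < 2 ^ μ := h1
  have hκμ : 2 * κ ≤ μ := by
    have : (2:ℕ) ^ (2 * κ) < 2 ^ μ := by rw [pow_mul]; norm_num; exact h4κ
    exact ((Nat.pow_lt_pow_iff_right (by norm_num)).1 this).le
  set d := 2 * l with hd
  set D := 2 * κ * d with hD
  set M := D + μ with hM
  have hDpos : 0 < D := by positivity
  have hD6 : D ≤ 8 * μ ^ 2 := by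
    calc D = (2 * κ) * (4 * μ + 4) := by rw [hD, hd, hl]; ring
      _ ≤ μ * (4 * μ + 4 * μ) := by gcongr; omega
      _ = 8 * μ ^ 2 := by ring
  have hM7 : M ≤ 9 * μ ^ 2 := by omega
  have hM4 : M ≤ 4 ^ κ := by omega
  have hd4 : d ≤ 4 ^ κ := by
    have : d ≤ 8 * μ ^ 2 := by omega
    omega
  obtain ⟨A, hA⟩ := exists_code (M := M) (κ := κ) (d := d) hκ1 hM4 hd4
  -- counts
  have hcB : Fintype.card (Blk M κ D) = M * (2 * κ) * D + 2 * M := by
    rw [Fintype.card_sum, Fintype.card_prod, Fintype.card_prod, Fintype.card_prod,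
      Fintype.card_prod, Fintype.card_bool, Fintype.card_fin, Fintype.card_fin, Fintype.card_fin]
    ring
  have hcU : Fintype.card (Vtx M κ D) = 4 * (M * (2 * κ) * D) + 2 * M * 2 ^ κ := by
    rw [Fintype.card_sum, Fintype.card_prod, Fintype.card_prod, Fintype.card_prod,
      Fintype.card_prod, Fintype.card_prod, Fintype.card_prod, Fintype.card_prod,
      Fintype.card_fun, ZMod.card,
      Fintype.card_bool, Fintype.card_fin, Fintype.card_fin, Fintype.card_fin]
    ring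
  have hMκD : M * (2 * κ) * D ≤ 72 * μ ^ 5 := by
    calc M * (2 * κ) * D ≤ (9 * μ ^ 2) * μ * (8 * μ ^ 2) := by gcongr
      _ = 72 * μ ^ 5 := by ring
  have hBk : Fintype.card (Blk M κ D) ≤ k := by
    rw [hcB]
    have h5 : μ ^ 2 ≤ μ ^ 5 := hpow _ _ (by norm_num)
    omega
  have hv5 : 2 ^ 12 * μ ^ 5 ≤ v := by
    rw [← Nat.pow_le_pow_iff_left (n := 2) (by norm_num)]
    calc (2 ^ 12 * μ ^ 5) ^ 2 = 2 ^ 24 * 1 * μ ^ 10 := by ring
      _ ≤ 2 ^ 25 * r * μ ^ 10 := by
        have h10 : 1 ≤ r := hrpos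
        gcongr
        · norm_num
        · norm_num
      _ ≤ v ^ 2 := h4
  have hR2 : 4 * (2 * M * 2 ^ κ) ≤ v := by
    rw [← Nat.pow_le_pow_iff_left (n := 2) (by norm_num)]
    calc (4 * (2 * M * 2 ^ κ)) ^ 2 = 64 * M ^ 2 * (2 ^ κ) ^ 2 := by ring
      _ = 64 * M ^ 2 * 4 ^ κ := by rw [← pow_mul, mul_comm κ 2, pow_mul]; norm_num
      _ ≤ 64 * (9 * μ ^ 2) ^ 2 * (3328 * (r * μ ^ 3)) := by gcongr
      _ = 17252352 * r * μ ^ 7 := by ring
      _ ≤ 2 ^ 25 * r * μ ^ 10 := by
        gcongr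
        · norm_num
        · norm_num
      _ ≤ v ^ 2 := h4
  have hUv : 2 * Fintype.card (Vtx M κ D) ≤ v := by
    rw [hcU]
    omega
  set u₀ := k - Fintype.card (Blk M κ D) with hu₀
  set ρ := v - (Fintype.card (Vtx M κ D) + u₀) with hρ
  have hcard : Fintype.card (Fin v) = Fintype.card (Tot M κ D u₀ ρ) := by
    rw [Fintype.card_sum, Fintype.card_sum, Fintype.card_fin, Fintype.card_fin, Fintype.card_fin]
    omega
  let e : Fin v ≃ Tot M κ D u₀ ρ := Fintype.equivOfCardEq hcard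
  have hk2 : 2 ≤ k := by
    have : 1 ≤ μ ^ 5 := Nat.one_le_pow _ _ hμ1
    omega
  have hkk : k = Fintype.card (Blk M κ D ⊕ Fin u₀) := by
    rw [Fintype.card_sum, Fintype.card_fin]
    omega
  have hr2 : r ≤ 2 ^ μ := by
    have : r ≤ 2 ^ 25 * r * μ ^ 10 := by
      calc r = 1 * r * 1 := by ring
        _ ≤ 2 ^ 25 * r * μ ^ 10 := by
          gcongr
          · norm_num
          · exact Nat.one_le_pow _ _ hμ1
    omega
  have hW : r * Fintype.card (Fin D → ZMod 2) ≤ 2 ^ M := by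
    rw [Fintype.card_fun, ZMod.card, Fintype.card_fin, hM, pow_add, mul_comm]
    exact Nat.mul_le_mul_left _ hr2
  have hs1 : 2 * ((2 ^ μ + r) * r) ≤ 2 ^ l := by
    calc 2 * ((2 ^ μ + r) * r) ≤ 2 * ((2 ^ μ + 2 ^ μ) * 2 ^ μ) := by gcongr
      _ = 2 ^ l := by rw [hl]; ring
  have hcV : Fintype.card (Fin M × (Bool × Fin κ → ZMod 2)) + 1 ≤ 2 ^ μ := by
    have : Fintype.card (Fin M × (Bool × Fin κ → ZMod 2)) = M * 4 ^ κ := by
      rw [Fintype.card_prod, Fintype.card_fun, ZMod.card, Fintype.card_prod, Fintype.card_bool,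
        Fintype.card_fin, Fintype.card_fin, pow_mul]
      norm_num
    rw [this]
    have : M * 4 ^ κ ≤ 2 ^ 25 * r * μ ^ 10 := by
      calc M * 4 ^ κ ≤ (9 * μ ^ 2) * (3328 * (r * μ ^ 3)) := by gcongr
        _ = 29952 * r * μ ^ 5 := by ring
        _ ≤ 2 ^ 25 * r * μ ^ 10 := by
          gcongr
          · norm_num
          · norm_num
    omega
  have hsm : (small (Fin M × (Bool × Fin κ → ZMod 2)) (2 * l)).card ≤ 2 ^ (μ * (2 * l)) := by
    refine (card_small_le _ _).trans ?_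
    rw [pow_mul 2 μ (2 * l)]
    exact Nat.pow_le_pow_left hcV _
  have hs2 : 4 * ((2 ^ μ + r) * r * (small (Fin M × (Bool × Fin κ → ZMod 2)) (2 * l)).card) ≤
      2 ^ m := by
    calc 4 * ((2 ^ μ + r) * r * (small (Fin M × (Bool × Fin κ → ZMod 2)) (2 * l)).card) ≤
        4 * ((2 ^ μ + 2 ^ μ) * 2 ^ μ * 2 ^ (μ * (2 * l))) := by gcongr
      _ = 2 ^ (3 + μ + μ + μ * (2 * l)) := by rw [pow_add, pow_add, pow_add]; ring
      _ = 2 ^ m := by congr 1; rw [hl, hm]; ring
  exact core_avg (V := Fin M × (Bool × Fin κ → ZMod 2)) (W := Fin D → ZMod 2) (gr A) (l := l)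
    (m := m) (R := R) (q := 4 ^ κ) (r := r) (s := 2 ^ μ) (M := M) (by omega) hmpos
    hRpos hq1 le_rfl hrpos hs1 hs2 hW (fun w => by rw [card_gr]) (fun S hS => by
      have := hA S hS
      convert this)
    (sig n A e) f (fun X => by
      rw [← padBits_gph, hf]
      exact clique_gph hDpos A e X hkk hk2)

/-- **The worst-case theorem for the clique function.** -/
theorem clique_lower (v k μ : ℕ) (hv : 1 ≤ v) (C : Net (v * v)) (lev : ℕ → ℕ)
    (hL : C.Layered lev)
    (hC : ∀ G : SimpleGraph (Fin v), C.eval (adjBits G) = true ↔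
      ∃ S : Finset (Fin v), k ≤ S.card ∧ G.IsClique (S : Set (Fin v)))
    (h1 : v ^ 2 < 2 ^ μ) (h2 : 90 * μ ^ 5 ≤ k) (h3 : 2 * k ≤ v)
    (h4 : 2 ^ 28 * C.combos lev * μ ^ 10 ≤ v ^ 2) : 2 ^ μ < C.size := by
  by_contra hs
  push Not at hs
  have hκ : 0 < C.combos lev := by
    have := card_cuts (C := C) (lev := lev)
    omega
  have hr : 0 < 7 * C.combos lev := by positivity
  obtain ⟨D, hD0, hD1, hD2⟩ := clique_avg (v * v) v k μ (7 * C.combos lev) hv hr
    (fun x => C.eval x = true) (fun G => by rw [padBits_self]; exact hC G) h1 h2 h3 (by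
      refine le_trans ?_ h4
      calc 2 ^ 25 * (7 * C.combos lev) * μ ^ 10 = 234881024 * (C.combos lev * μ ^ 10) := by ring
        _ ≤ 268435456 * (C.combos lev * μ ^ 10) := Nat.mul_le_mul_right _ (by norm_num)
        _ = 2 ^ 28 * C.combos lev * μ ^ 10 := by ring)
  have h5 := hD2 C lev hL hs
  have h6 : Net.agree D C (fun x => C.eval x = true) = 1 := by
    unfold Net.agree
    rw [← hD1]
    refine Finset.sum_congr rfl fun x _ => ?_
    rw [if_pos Iff.rfl]
  rw [h6] at h5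
  have h7 : (0:ℝ) < C.combos lev := by exact_mod_cast hκ
  have h8 : (3 * C.combos lev / ((7 * C.combos lev : ℕ) : ℝ) : ℝ) = 3 / 7 := by
    push_cast
    field_simp
  rw [h8] at h5
  norm_num at h5

theorem getD_ofFn' {n : ℕ} (x : Fin n → Bool) (i : ℕ) (hi : i < n) :
    (List.ofFn x).getD i false = x ⟨i, hi⟩ := by
  rw [List.getD_eq_getElem _ _ (by simpa using hi)]
  simp

/-- the half-clique language on adjacency matrices -/
theorem halfClique_pad {n v : ℕ} (hv : v = Nat.sqrt n) (G : SimpleGraph (Fin v)) :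
    List.ofFn (padBits n G) ∈ HalfClique ↔
      ∃ S : Finset (Fin v), v / 2 ≤ S.card ∧ G.IsClique (S : Set (Fin v)) := by
  classical
  have hlen : (List.ofFn (padBits n G)).length = n := by simp
  have hvn : v * v ≤ n := by rw [hv]; exact Nat.sqrt_le n
  have hbit : ∀ a b : Fin v, ((List.ofFn (padBits n G)).getD ((a : ℕ) * v + (b : ℕ)) false = true
      ↔ G.Adj a b) := by
    intro a b
    have h1 : (a : ℕ) * v + (b : ℕ) < v * v := by
      calc (a : ℕ) * v + (b : ℕ) < (a : ℕ) * v + v := by omega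
        _ = ((a : ℕ) + 1) * v := by ring
        _ ≤ v * v := Nat.mul_le_mul_right _ a.2
    have h2 : (⟨(a : ℕ) * v + (b : ℕ), h1⟩ : Fin (v * v)) = finProdFinEquiv (a, b) := by
      apply Fin.ext
      simp only [finProdFinEquiv_apply_val]
      ring
    rw [getD_ofFn' _ _ (by omega)]
    unfold padBits
    rw [dif_pos h1, h2]
    unfold adjBits
    rw [Equiv.symm_apply_apply]
    exact @decide_eq_true_iff _ (Classical.propDecidable _)
  unfold HalfClique
  rw [Set.mem_ofPred_eq, hlen, ← hv]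
  constructor
  · rintro ⟨S, hS1, hS2, hS3⟩
    refine ⟨Finset.univ.filter fun a : Fin v => (a : ℕ) ∈ S, ?_, ?_⟩
    · refine hS2.trans ?_
      have himg : S ⊆ (Finset.univ.filter fun a : Fin v => (a : ℕ) ∈ S).image
          (fun a : Fin v => (a : ℕ)) := by
        intro b hb
        exact Finset.mem_image.2 ⟨⟨b, hS1 b hb⟩, by simpa using hb, rfl⟩
      exact (Finset.card_le_card himg).trans Finset.card_image_le
    · intro a ha b hb hab
      have ha' : (a : ℕ) ∈ S := by simpa using ha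
      have hb' : (b : ℕ) ∈ S := by simpa using hb
      rcases Nat.lt_trichotomy (a : ℕ) (b : ℕ) with h | h | h
      · exact (hbit a b).1 (hS3 _ ha' _ hb' h)
      · exact absurd (Fin.ext h) hab
      · exact ((hbit b a).1 (hS3 _ hb' _ ha' h)).symm
  · rintro ⟨S, hS1, hS2⟩
    refine ⟨S.map Fin.valEmbedding, ?_, ?_, ?_⟩
    · intro a ha
      obtain ⟨b, -, rfl⟩ := Finset.mem_map.1 ha
      exact b.2
    · rw [Finset.card_map]; exact hS1
    · intro a ha b hb hab
      obtain ⟨a', ha', rfl⟩ := Finset.mem_map.1 ha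
      obtain ⟨b', hb', rfl⟩ := Finset.mem_map.1 hb
      have hne : a' ≠ b' := by
        rintro rfl
        exact absurd hab (lt_irrefl _)
      exact (hbit a' b').2 (hS2 ha' hb' hne)

/-- **The average-case theorem for the half-clique language.** -/
theorem halfClique_avg (n μ : ℕ) (hn : 1 ≤ n) (hμ : Nat.log 2 n < μ) :
    ∃ D : (Fin n → Bool) → ℝ, (∀ x, 0 ≤ D x) ∧ ∑ x, D x = 1 ∧
      ∀ (C : Net n) (lev : ℕ → ℕ), C.Layered lev → C.size ≤ 2 ^ μ →
        Net.agree D C (fun x => List.ofFn x ∈ HalfClique) ≤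
          1 / 2 + 2 ^ 30 * C.combos lev * μ ^ 10 / n := by
  classical
  have hn0 : (0:ℝ) < n := by exact_mod_cast hn
  by_cases hsmall : n ≤ 2 ^ 31 * μ ^ 10
  · -- small inputs: the bound is at least one
    have hD0 : ∀ x : Fin n → Bool, (0:ℝ) ≤ if x = (fun _ => false) then 1 else 0 := by
      intro x
      split_ifs <;> norm_num
    have hD1 : ∑ x : Fin n → Bool, (if x = (fun _ => false) then (1:ℝ) else 0) = 1 := by simp
    refine ⟨fun x => if x = (fun _ => false) then 1 else 0, hD0, hD1, ?_⟩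
    · intro C lev _ _
      have h1 := agree_le hD0 C (fun x => List.ofFn x ∈ HalfClique)
      rw [hD1] at h1
      have h2 : (n:ℝ) ≤ 2 ^ 31 * μ ^ 10 := by exact_mod_cast hsmall
      have h3 : (1:ℝ) ≤ C.combos lev := by
        have : 1 ≤ C.combos lev := by
          have := card_cuts (C := C) (lev := lev)
          omega
        exact_mod_cast this
      have h4 : (1:ℝ) / 2 ≤ 2 ^ 30 * C.combos lev * μ ^ 10 / n := by
        rw [div_le_div_iff₀ (by norm_num) hn0]
        have h5 : (0:ℝ) ≤ μ ^ 10 := by positivity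
        nlinarith
      linarith
  push Not at hsmall
  have hμ1 : 1 ≤ μ := by omega
  have hn2 : n < 2 ^ μ := Nat.lt_pow_of_log_lt (by norm_num) hμ
  set v := Nat.sqrt n with hv
  have hv1 : 1 ≤ v := by rw [hv]; exact Nat.sqrt_pos.2 hn
  have hvn : v * v ≤ n := Nat.sqrt_le n
  have hvn2 : n < (v + 1) * (v + 1) := Nat.lt_succ_sqrt n
  have h1 : v ^ 2 < 2 ^ μ := by
    calc v ^ 2 = v * v := by ring
      _ ≤ n := hvn
      _ < 2 ^ μ := hn2
  have h5 : n < 4 * v ^ 2 := by nlinarith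
  have hμ10 : 0 < 2 ^ 25 * μ ^ 10 := by positivity
  set r := v ^ 2 / (2 ^ 25 * μ ^ 10) with hr
  have hrpos : 0 < r := Nat.div_pos (by omega) hμ10
  have h4 : 2 ^ 25 * r * μ ^ 10 ≤ v ^ 2 := by
    calc 2 ^ 25 * r * μ ^ 10 = r * (2 ^ 25 * μ ^ 10) := by ring
      _ ≤ v ^ 2 := Nat.div_mul_le_self _ _
  have hv5 : 2 ^ 12 * μ ^ 5 ≤ v := by
    rw [← Nat.pow_le_pow_iff_left (n := 2) (by norm_num)]
    calc (2 ^ 12 * μ ^ 5) ^ 2 = 2 ^ 24 * 1 * μ ^ 10 := by ring
      _ ≤ 2 ^ 25 * r * μ ^ 10 := by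
        have h10 : 1 ≤ r := hrpos
        gcongr
        · norm_num
        · norm_num
      _ ≤ v ^ 2 := h4
  have h2 : 90 * μ ^ 5 ≤ v / 2 := by
    rw [Nat.le_div_iff_mul_le (by norm_num)]
    have : 2 ^ 12 * μ ^ 5 = 4096 * μ ^ 5 := by norm_num
    omega
  have h3 : 2 * (v / 2) ≤ v := Nat.mul_div_le v 2
  have hnr : n ≤ 2 ^ 28 * μ ^ 10 * r := by
    have h6 : v ^ 2 < 2 ^ 25 * μ ^ 10 * (r + 1) := Nat.lt_mul_div_succ _ hμ10
    have h7 : 2 ^ 25 * μ ^ 10 * (r + 1) ≤ 2 ^ 25 * μ ^ 10 * (2 * r) := by gcongr; omega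
    have h8 : 4 * (2 ^ 25 * μ ^ 10 * (2 * r)) = 2 ^ 28 * μ ^ 10 * r := by ring
    omega
  obtain ⟨D, hD0, hD1, hD2⟩ := clique_avg n v (v / 2) μ r hv1 hrpos
    (fun x => List.ofFn x ∈ HalfClique) (fun G => halfClique_pad hv G) h1 h2 h3 h4
  refine ⟨D, hD0, hD1, fun C lev hL hC => (hD2 C lev hL hC).trans ?_⟩
  have hr0 : (0:ℝ) < r := by exact_mod_cast hrpos
  have h6 : (n:ℝ) ≤ 2 ^ 28 * μ ^ 10 * r := by exact_mod_cast hnr
  have h7 : (3 * C.combos lev / r : ℝ) ≤ 2 ^ 30 * C.combos lev * μ ^ 10 / n := by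
    rw [div_le_div_iff₀ hr0 hn0]
    have h3 : (0:ℝ) ≤ C.combos lev := Nat.cast_nonneg _
    calc (3 * C.combos lev : ℝ) * n ≤ 4 * C.combos lev * (2 ^ 28 * μ ^ 10 * r) := by
          gcongr
          norm_num
      _ = 2 ^ 30 * C.combos lev * μ ^ 10 * r := by ring
  linarith

end Pool.Agent.V8H38.NL
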