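import Pool.Agent.V8H38.NL.Core

/-!
# Linear codes over the field with two elements with independent symbols
-/

namespace Pool.Agent.V8H38.NL

open Finset Polynomial

section Field

variable {F : Type} [Field F] [Fintype F] [DecidableEq F] {d M : ℕ}

/-- the polynomial with given coefficients -/
noncomputable def polF (w : Fin d → F) : F[X] := ∑ i : Fin d, C (w i) * X ^ (i : ℕ)

theorem polF_degree (w : Fin d → F) : (polF w).degree < d := Polynomial.degree_sum_fin_lt w

theorem polF_coeff (w : Fin d → F) (i : Fin d) : (polF w).coeff (i : ℕ) = w i := by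
  simp only [polF, Polynomial.finsetSum_coeff, Polynomial.coeff_C_mul, Polynomial.coeff_X_pow]
  rw [Finset.sum_eq_single i]
  · simp
  · intro j _ hj
    have : (i:ℕ) ≠ (j:ℕ) := fun h => hj (Fin.ext h.symm)
    simp [this]
  · simp

theorem polF_injective : Function.Injective (polF : (Fin d → F) → F[X]) := by
  intro w w' h
  funext i
  rw [← polF_coeff w i, ← polF_coeff w' i, h]

theorem polF_indep (pts : Fin M → F) (hpts : Function.Injective pts) (hd : d ≤ Fintype.card F)
    (S : Finset (Fin M × F)) (hS : S.card ≤ d) :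
    (Finset.univ.filter fun w : Fin d → F => ∀ v ∈ S, (polF w).eval (pts v.1) = v.2).card *
      Fintype.card F ^ S.card ≤ Fintype.card F ^ d := by
  classical
  by_cases hne : (Finset.univ.filter fun w : Fin d → F =>
      ∀ v ∈ S, (polF w).eval (pts v.1) = v.2).Nonempty
  · obtain ⟨w₀, hw₀⟩ := hne
    rw [Finset.mem_filter] at hw₀
    set A : Finset F := S.image fun v => pts v.1 with hA
    have hAcard : A.card = S.card := by
      rw [hA]
      refine Finset.card_image_of_injOn ?_
      intro v hv v' hv' h
      have h1 : v.1 = v'.1 := hpts h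
      refine Prod.ext h1 ?_
      rw [← hw₀.2 v hv, ← hw₀.2 v' hv', h1]
    obtain ⟨B, hB1, hB2⟩ := Finset.exists_subset_card_eq (s := Aᶜ) (n := d - S.card) (by
      rw [Finset.card_compl, hAcard]
      omega)
    have hdisj : Disjoint A B := by
      rw [Finset.disjoint_left]
      intro v hv hv'
      exact (Finset.mem_compl.1 (hB1 hv')) hv
    have hAB : (A ∪ B).card = d := by
      rw [Finset.card_union_of_disjoint hdisj, hAcard, hB2]
      omega
    have hle : (Finset.univ.filter fun w : Fin d → F =>
        ∀ v ∈ S, (polF w).eval (pts v.1) = v.2).card ≤ Fintype.card (B → F) := by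
      rw [← Finset.card_univ]
      refine Finset.card_le_card_of_injOn (fun w b => (polF w).eval (b : F))
        (fun _ _ => Finset.mem_coe.2 (Finset.mem_univ _)) ?_
      intro w hw w' hw' h
      simp only [Finset.coe_filter, Finset.mem_univ, true_and, Set.mem_ofPred_eq] at hw hw'
      apply polF_injective
      refine Polynomial.eq_of_degrees_lt_of_eval_finset_eq (A ∪ B)
        (by rw [hAB]; exact polF_degree w) (by rw [hAB]; exact polF_degree w') ?_
      intro a ha
      rcases Finset.mem_union.1 ha with h1 | h1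
      · rw [hA, Finset.mem_image] at h1
        obtain ⟨v, hv, rfl⟩ := h1
        rw [hw v hv, hw' v hv]
      · exact congrFun h ⟨a, h1⟩
    rw [Fintype.card_fun, Fintype.card_coe, hB2] at hle
    calc _ ≤ Fintype.card F ^ (d - S.card) * Fintype.card F ^ S.card :=
          Nat.mul_le_mul_right _ hle
      _ = Fintype.card F ^ d := by rw [← pow_add]; congr 1; omega
  · rw [Finset.not_nonempty_iff_eq_empty] at hne
    rw [hne]; simp

end Field

/-- the symbol in row `a` of the word with message `w` -/
def sym {M κ D : ℕ} (A : Fin M → Bool × Fin κ → Fin D → ZMod 2) (w : Fin D → ZMod 2)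
    (a : Fin M) (b : Bool × Fin κ) : ZMod 2 := ∑ j, A a b j * w j

/-- the graph of a word -/
def gr {M κ D : ℕ} (A : Fin M → Bool × Fin κ → Fin D → ZMod 2) (w : Fin D → ZMod 2) :
    Finset (Fin M × (Bool × Fin κ → ZMod 2)) :=
  Finset.univ.image fun a => (a, sym A w a)

theorem mem_gr {M κ D : ℕ} {A : Fin M → Bool × Fin κ → Fin D → ZMod 2} {w : Fin D → ZMod 2}
    {v : Fin M × (Bool × Fin κ → ZMod 2)} : v ∈ gr A w ↔ sym A w v.1 = v.2 := by
  unfold gr
  rw [Finset.mem_image]
  constructor
  · rintro ⟨a, -, rfl⟩; rfl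
  · intro h; exact ⟨v.1, Finset.mem_univ _, by rw [h]⟩

theorem card_gr {M κ D : ℕ} (A : Fin M → Bool × Fin κ → Fin D → ZMod 2) (w : Fin D → ZMod 2) :
    (gr A w).card = M := by
  unfold gr
  rw [Finset.card_image_of_injective]
  · simp
  · intro a b h
    exact (Prod.mk.injEq _ _ _ _ ▸ h).1

/-- **Codes.** There is a linear code over the field with two elements with `M` symbols of `2 κ`
bits and `2 κ d` message bits such that any `d` symbols are independent. -/
theorem exists_code {M κ d : ℕ} (hκ : 1 ≤ κ) (hM : M ≤ 4 ^ κ) (hd : d ≤ 4 ^ κ) :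
    ∃ A : Fin M → Bool × Fin κ → Fin (2 * κ * d) → ZMod 2,
      ∀ S : Finset (Fin M × (Bool × Fin κ → ZMod 2)), S.card ≤ d →
        (Finset.univ.filter fun w => S ⊆ gr A w).card * (4 ^ κ) ^ S.card ≤
          Fintype.card (Fin (2 * κ * d) → ZMod 2) := by
  classical
  have hp : Fact (Nat.Prime 2) := ⟨Nat.prime_two⟩
  let F := GaloisField 2 (2 * κ)
  have : Fintype F := Fintype.ofFinite F
  have hcardF : Fintype.card F = 4 ^ κ := by
    rw [← Nat.card_eq_fintype_card]
    have := GaloisField.card 2 (2 * κ) (by omega)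
    rw [this, pow_mul]
    norm_num
  have hrank : Module.finrank (ZMod 2) F = 2 * κ := GaloisField.finrank 2 (by omega)
  let b0 := Module.finBasis (ZMod 2) F
  have hcard1 : Fintype.card (Fin (Module.finrank (ZMod 2) F)) = Fintype.card (Bool × Fin κ) := by
    rw [Fintype.card_fin, hrank, Fintype.card_prod, Fintype.card_bool, Fintype.card_fin]
  let e1 : Fin (Module.finrank (ZMod 2) F) ≃ (Bool × Fin κ) := Fintype.equivOfCardEq hcard1
  let b := b0.reindex e1
  let eF : F ≃ₗ[ZMod 2] (Bool × Fin κ → ZMod 2) := b.equivFun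
  -- messages
  have hcard2 : Fintype.card (Fin (2 * κ * d)) = Fintype.card (Fin d × (Bool × Fin κ)) := by
    rw [Fintype.card_fin, Fintype.card_prod, Fintype.card_prod, Fintype.card_bool,
      Fintype.card_fin, Fintype.card_fin]
    ring
  let e2 : Fin (2 * κ * d) ≃ (Fin d × (Bool × Fin κ)) := Fintype.equivOfCardEq hcard2
  -- the word of a message
  let dec : (Fin (2 * κ * d) → ZMod 2) → (Fin d → F) := fun w i =>
    eF.symm fun c => w (e2.symm (i, c))
  have hdec_inj : Function.Injective dec := by
    intro w w' h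
    funext j
    have h1 := congrFun h (e2 j).1
    have h2 := eF.symm.injective h1
    have h3 := congrFun h2 (e2 j).2
    simpa using h3
  obtain ⟨pts0, hpts0⟩ : ∃ pts : Fin M → F, Function.Injective pts := by
    have : Fintype.card (Fin M) ≤ Fintype.card F := by rw [Fintype.card_fin, hcardF]; exact hM
    obtain ⟨f⟩ := Function.Embedding.nonempty_of_card_le this
    exact ⟨f, f.injective⟩
  -- the linear functional
  let A : Fin M → Bool × Fin κ → Fin (2 * κ * d) → ZMod 2 := fun a c j =>
    eF ((b (e2 j).2) * pts0 a ^ ((e2 j).1 : ℕ)) c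
  have hA : ∀ w a, sym A w a = eF ((polF (dec w)).eval (pts0 a)) := by
    intro w a
    funext c
    have h1 : (polF (dec w)).eval (pts0 a) =
        ∑ j : Fin (2 * κ * d), w j • ((b (e2 j).2) * pts0 a ^ ((e2 j).1 : ℕ)) := by
      unfold polF
      rw [Polynomial.eval_finsetSum]
      simp only [Polynomial.eval_mul, Polynomial.eval_C, Polynomial.eval_pow, Polynomial.eval_X]
      have h2 : ∀ i : Fin d, dec w i = ∑ c, w (e2.symm (i, c)) • b c := by
        intro i
        show b.equivFun.symm _ = _
        rw [Module.Basis.equivFun_symm_apply]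
      have h3 : ∀ i : Fin d, dec w i * pts0 a ^ (i : ℕ) =
          ∑ c, w (e2.symm (i, c)) • (b c * pts0 a ^ (i : ℕ)) := by
        intro i
        rw [h2 i, Finset.sum_mul]
        exact Finset.sum_congr rfl fun c _ => smul_mul_assoc _ _ _
      rw [Finset.sum_congr rfl fun i _ => h3 i]
      rw [← Finset.sum_product', Finset.univ_product_univ]
      refine (Fintype.sum_equiv e2 _ _ ?_).symm
      intro j
      simp
    rw [h1, map_sum]
    unfold sym
    rw [Finset.sum_apply]
    refine Finset.sum_congr rfl fun j _ => ?_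
    rw [map_smul]
    simp only [Pi.smul_apply, smul_eq_mul]
    exact mul_comm _ _
  refine ⟨A, fun S hS => ?_⟩
  let S' : Finset (Fin M × F) := S.image fun v => (v.1, eF.symm v.2)
  have hS' : S'.card = S.card := by
    refine Finset.card_image_of_injective _ ?_
    intro v v' h
    simp only [Prod.mk.injEq] at h
    exact Prod.ext h.1 (eF.symm.injective h.2)
  have key := polF_indep (d := d) pts0 hpts0 (by rw [hcardF]; exact hd) S' (by rw [hS']; exact hS)
  rw [hcardF, hS'] at key
  have h1 : (Finset.univ.filter fun w => S ⊆ gr A w).card ≤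
      (Finset.univ.filter fun w : Fin d → F => ∀ v ∈ S', (polF w).eval (pts0 v.1) = v.2).card := by
    refine Finset.card_le_card_of_injOn dec ?_ hdec_inj.injOn
    intro w hw
    simp only [Finset.coe_filter, Finset.mem_univ, true_and, Set.mem_ofPred_eq] at hw ⊢
    intro v hv
    obtain ⟨v₀, hv₀, rfl⟩ := Finset.mem_image.1 hv
    have := mem_gr.1 (hw hv₀)
    rw [hA] at this
    simp only
    rw [← this]
    simp
  have h2 : Fintype.card (Fin (2 * κ * d) → ZMod 2) = (4 ^ κ) ^ d := by
    rw [Fintype.card_fun, ZMod.card, Fintype.card_fin, pow_mul, pow_mul]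
    norm_num
  rw [h2]
  exact (Nat.mul_le_mul_right _ h1).trans key

end Pool.Agent.V8H38.NL
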