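import Pool.Agent.V8H38.NL.Layers

/-!
# Circuits with NOT gates as circuits in layers
-/

namespace Pool.Agent.V8H38.NL

open Finset

variable {n : ℕ}

/-- the node of a gate -/
def Gate.toNode : Gate n → Node n
  | .input i => .input i
  | .const b => .const b
  | .not a => .not a
  | .and a b => .and a b
  | .or a b => .or a b

/-- the circuit as a circuit in layers -/
def Circuit.toNet (C : Circuit n) : Net n where
  nodes := C.nodes.map Gate.toNode
  out := C.out

theorem vals_toNode (x : Fin n → Bool) (l : List (Gate n)) :
    vals x (l.map Gate.toNode) = values x l := by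
  induction l using List.reverseRecOn with
  | nil => rfl
  | append_singleton l g ih =>
      rw [List.map_append, List.map_singleton, vals_append, ih]
      simp only [values, List.foldl_append, List.foldl_cons, List.foldl_nil]
      cases g <;> rfl

theorem Circuit.toNet_eval (C : Circuit n) (x : Fin n → Bool) : C.toNet.eval x = C.eval x := by
  unfold Net.eval Circuit.eval Circuit.toNet
  rw [vals_toNode]

theorem Circuit.toNet_size (C : Circuit n) : C.toNet.size = C.size := by
  unfold Net.size Circuit.size Circuit.toNet
  rw [List.countP_map]
  congr 1
  funext g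
  cases g <;> rfl

/-- the number of NOT gates up to the given node -/
def Circuit.notLev (C : Circuit n) (i : ℕ) : ℕ := (C.nodes.take (i + 1)).countP Gate.isNot

theorem Circuit.notLev_mono (C : Circuit n) {i j : ℕ} (h : i ≤ j) : C.notLev i ≤ C.notLev j := by
  unfold Circuit.notLev
  refine List.Sublist.countP_le ?_
  exact List.take_sublist_take_left (by omega)

theorem Circuit.notLev_lt (C : Circuit n) {i k : ℕ} (hi : i < C.nodes.length)
    (h : Gate.isNot C.nodes[i] = true) (hk : k < i) : C.notLev k < C.notLev i := by
  have h1 : C.notLev k ≤ (C.nodes.take i).countP Gate.isNot := by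
    unfold Circuit.notLev
    exact List.Sublist.countP_le (List.take_sublist_take_left (by omega))
  have h2 : C.notLev i = (C.nodes.take i).countP Gate.isNot + 1 := by
    unfold Circuit.notLev
    rw [List.take_succ_eq_append_getElem hi, List.countP_append]
    simp [h]
  omega

theorem Circuit.toNet_layered (C : Circuit n) : C.toNet.Layered C.notLev := by
  intro i hi
  have hi' : i < C.nodes.length := by simpa [Circuit.toNet] using hi
  have hnode : C.toNet.nodes[i] = (C.nodes[i]).toNode := by simp [Circuit.toNet]
  rw [hnode]
  refine ⟨fun k _ hk => C.notLev_mono hk.le, ?_⟩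
  intro k hk hki
  refine C.notLev_lt hi' ?_ hki
  revert hk
  cases C.nodes[i] <;> simp [Gate.toNode, Node.wires, Gate.isNot]

theorem Circuit.toNet_combos (C : Circuit n) : C.toNet.combos C.notLev ≤ 2 ^ C.nots := by
  classical
  set N : Finset ℕ := (Finset.range C.nodes.length).filter
    fun i => ∃ g : Gate n, C.nodes[i]? = some g ∧ Gate.isNot g = true with hN
  have hcard : N.card = C.nots := by
    rw [hN]
    unfold Circuit.nots
    rw [Finset.card_filter]
    generalize C.nodes = l
    induction l using List.reverseRecOn with
    | nil => simp
    | append_singleton l g ih =>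
        rw [List.countP_append, ← ih]
        simp only [List.length_append, List.length_singleton]
        rw [Finset.sum_range_succ]
        congr 1
        · refine Finset.sum_congr rfl fun i hi => ?_
          have hi' := Finset.mem_range.1 hi
          rw [List.getElem?_append_left hi']
        · simp
  have hcut : ∀ j, (C.toNet.cut C.notLev j).card ≤ 1 ∧
      (j ∉ N.image C.notLev → (C.toNet.cut C.notLev j).card = 0) := by
    intro j
    have key : ∀ k, k ∈ C.toNet.cut C.notLev j → ∃ i ∈ N, C.notLev i = j ∧
        ∃ h : i < C.nodes.length, k ∈ (C.nodes[i]).toNode.wires := by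
      intro k hk
      obtain ⟨i, h, hki, hlev, hw⟩ := mem_cut.1 hk
      have hi' : i < C.nodes.length := by simpa [Circuit.toNet] using h
      have hnode : C.toNet.nodes[i] = (C.nodes[i]).toNode := by simp [Circuit.toNet]
      rw [hnode] at hw
      refine ⟨i, ?_, hlev, hi', hw⟩
      rw [hN, Finset.mem_filter, Finset.mem_range]
      refine ⟨hi', C.nodes[i], List.getElem?_eq_getElem hi', ?_⟩
      revert hw
      cases C.nodes[i] <;> simp [Gate.toNode, Node.wires, Gate.isNot]
    constructor
    · rw [Finset.card_le_one]
      intro a ha b hb
      obtain ⟨i, hi, hlev, h, hw⟩ := key a ha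
      obtain ⟨i', hi', hlev', h', hw'⟩ := key b hb
      have hii : i = i' := by
        obtain ⟨g1, e1, h1⟩ := (Finset.mem_filter.1 hi).2
        obtain ⟨g2, e2, h2⟩ := (Finset.mem_filter.1 hi').2
        rw [List.getElem?_eq_getElem h, Option.some.injEq] at e1
        rw [List.getElem?_eq_getElem h', Option.some.injEq] at e2
        subst e1
        subst e2
        rcases lt_trichotomy i i' with hlt | heq | hgt
        · have := C.notLev_lt h' h2 hlt
          omega
        · exact heq
        · have := C.notLev_lt h h1 hgt
          omega
      subst hii
      revert hw hw'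
      cases C.nodes[i] <;> simp [Gate.toNode, Node.wires]
      rintro rfl rfl
      rfl
    · intro hj
      rw [Finset.card_eq_zero, Finset.eq_empty_iff_forall_notMem]
      intro k hk
      obtain ⟨i, hi, hlev, _⟩ := key k hk
      exact hj (Finset.mem_image.2 ⟨i, hi, hlev⟩)
  unfold Net.combos
  rw [← hcard]
  calc ∏ j ∈ (Finset.range C.toNet.nodes.length).image C.notLev,
        ((C.toNet.cut C.notLev j).card + 1)
      ≤ ∏ j ∈ (Finset.range C.toNet.nodes.length).image C.notLev,
          (if j ∈ N.image C.notLev then 2 else 1) := by
        refine Finset.prod_le_prod' fun j _ => ?_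
        split_ifs with h
        · have := (hcut j).1
          omega
        · rw [(hcut j).2 h]
    _ ≤ ∏ j ∈ N.image C.notLev, 2 := by
        rw [Finset.prod_ite, Finset.prod_const_one, mul_one]
        rw [Finset.prod_const, Finset.prod_const]
        refine Nat.pow_le_pow_right (by norm_num) (Finset.card_le_card ?_)
        intro j hj
        exact (Finset.mem_filter.1 hj).2
    _ ≤ 2 ^ N.card := by
        rw [Finset.prod_const]
        exact Nat.pow_le_pow_right (by norm_num) Finset.card_image_le

end Pool.Agent.V8H38.NL
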