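import Mathlib

/-!
# Boolean circuits with NOT gates (auxiliary)
-/

namespace Pool.Agent.V8H38.NL

/-- A node of a circuit with `n` inputs: an input variable, a constant, a NOT gate, or a two-input
AND or OR gate. The numbers are the numbers (counted from zero) of nodes of the circuit. -/
inductive Gate (n : ℕ) : Type
  | input (i : Fin n)
  | const (b : Bool)
  | not (a : ℕ)
  | and (a b : ℕ)
  | or (a b : ℕ)

namespace Gate

variable {n : ℕ}

/-- The value of a node, given the input `x` and the list `v` of the values of the earlier nodes
(a reference to a node that is not earlier reads `false`). -/
def eval (x : Fin n → Bool) (v : List Bool) : Gate n → Bool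
  | input i => x i
  | const b => b
  | not a => !(v.getD a false)
  | and a b => v.getD a false && v.getD b false
  | or a b => v.getD a false || v.getD b false

/-- NOT gates -/
def isNot : Gate n → Bool
  | not _ => true
  | _ => false

/-- AND gates and OR gates -/
def isAndOr : Gate n → Bool
  | and _ _ => true
  | or _ _ => true
  | _ => false

end Gate

/-- A Boolean circuit with `n` inputs: the list of its nodes, in an order in which every gate comes
after the nodes it reads, and the number of the output node. -/
structure Circuit (n : ℕ) : Type where
  /-- the nodes -/
  nodes : List (Gate n)
  /-- the number of the output node -/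
  out : ℕ

/-- The list of the values of all nodes of a list of nodes. -/
def values {n : ℕ} (x : Fin n → Bool) (l : List (Gate n)) : List Bool :=
  l.foldl (fun v g => v ++ [g.eval x v]) []

namespace Circuit

variable {n : ℕ}

/-- The value of the output node. -/
def eval (C : Circuit n) (x : Fin n → Bool) : Bool := (values x C.nodes).getD C.out false

/-- The size: the number of AND and OR gates. -/
def size (C : Circuit n) : ℕ := C.nodes.countP Gate.isAndOr

/-- The number of NOT gates. -/
def nots (C : Circuit n) : ℕ := C.nodes.countP Gate.isNot

/-- The circuit decides the language `L` on the inputs of length `n`. -/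
def Decides (C : Circuit n) (L : Set (List Bool)) : Prop :=
  ∀ x : Fin n → Bool, C.eval x = true ↔ List.ofFn x ∈ L

end Circuit

end Pool.Agent.V8H38.NL
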