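import Pool.Agent.V8H38.NL.Sun

/-!
# Minimum fragments: comparison of a planted set with noise
-/

set_option linter.unusedSectionVars false

namespace Pool.Agent.V8H38.NL

open Finset

variable {V : Type} [Fintype V] [DecidableEq V]

theorem one_add_pow_le' {u : ℝ} (hu : 0 ≤ u) {k : ℕ} (h : 2 * k * u ≤ 1) :
    (1 + u) ^ k ≤ 1 + 2 * k * u := by
  have h2 : ∀ j : ℕ, j ≤ k → (1 + u) ^ j ≤ 1 + 2 * j * u := by
    intro j
    induction j with
    | zero => intro _; simp
    | succ j ih =>
      intro hj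
      have h3 := ih (by omega)
      have hj' : (j : ℝ) ≤ k := by exact_mod_cast (by omega : j ≤ k)
      have h4 : 2 * (j:ℝ) * u ≤ 1 := by nlinarith
      rw [pow_succ]
      push_cast
      nlinarith [mul_le_mul_of_nonneg_right h3 (by linarith : (0:ℝ) ≤ 1 + u)]
  exact h2 k le_rfl

theorem exists_frag {G : Finset (Finset V)} {S Z : Finset V} (hS : S ∈ G) :
    ∃ T : Finset V, T ⊆ S ∧ Disjoint Z T ∧ acc G (Z ∪ T) ∧
      ∀ S' ∈ G, S' ⊆ Z ∪ T → S' \ Z = T := by
  obtain ⟨S₀, hS₀, hmin⟩ := Finset.exists_min_image (G.filter fun S' => S' ⊆ Z ∪ S)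
    (fun S' => (S' \ Z).card) ⟨S, by simp [hS]⟩
  rw [Finset.mem_filter] at hS₀
  refine ⟨S₀ \ Z, ?_, ?_, ⟨S₀, hS₀.1, ?_⟩, ?_⟩
  · intro v hv
    rw [Finset.mem_sdiff] at hv
    have := hS₀.2 hv.1
    rw [Finset.mem_union] at this
    tauto
  · exact Finset.disjoint_sdiff
  · intro v hv
    by_cases h : v ∈ Z
    · exact Finset.mem_union_left _ h
    · exact Finset.mem_union_right _ (Finset.mem_sdiff.2 ⟨hv, h⟩)
  · intro S' hS' hsub
    have h1 : S' \ Z ⊆ S₀ \ Z := by
      intro v hv
      rw [Finset.mem_sdiff] at hv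
      have := hsub hv.1
      rw [Finset.mem_union] at this
      tauto
    refine Finset.eq_of_subset_of_card_le h1 (hmin S' ?_)
    rw [Finset.mem_filter]
    refine ⟨hS', fun v hv => ?_⟩
    have := hsub hv
    rw [Finset.mem_union, Finset.mem_sdiff] at this
    rcases this with h | h
    · exact Finset.mem_union_left _ h
    · exact hS₀.2 h.1

theorem wt_union {p : ℝ} (h0 : 0 < p) (h1 : p ≤ 1) {Z T : Finset V} (h : Disjoint Z T) :
    wt p Z ≤ wt p (Z ∪ T) * (1 / p) ^ T.card := by
  unfold wt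
  have e : (1 / p) ^ T.card = ∏ v : V, if v ∈ T then 1 / p else 1 := by
    rw [Finset.prod_ite_mem, Finset.univ_inter, Finset.prod_const]
  rw [e, ← Finset.prod_mul_distrib]
  refine Finset.prod_le_prod (fun v _ => by split_ifs <;> linarith) fun v _ => ?_
  by_cases hv : v ∈ Z
  · have hT : v ∉ T := Finset.disjoint_left.1 h hv
    simp [hv, hT]
  · by_cases hT : v ∈ T
    · simp [hv, hT, h0.ne']
      linarith
    · simp [hv, hT]

/-- **Comparison.** Let all members of `G` have at most `l` elements, and let every set `S` with at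
most `l` elements be contained in `Γ w` for at most a fraction `q ^ (-|S|)` of all `w`. If
`4 l ≤ q p`, then `Γ w` contains a member of `G` with probability at most twice the probability
that a random set of density `p` does. -/
theorem comparison {W : Type} [Fintype W] (Γ : W → Finset V) {p : ℝ} (h0 : 0 < p)
    (h1 : p ≤ 1) {l q : ℕ} (hq : 0 < q) (hl : 4 * (l : ℝ) ≤ q * p)
    (hΓ : ∀ S : Finset V, S.card ≤ l →
      (Finset.univ.filter fun w => S ⊆ Γ w).card * q ^ S.card ≤ Fintype.card W)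
    {G : Finset (Finset V)} (hG : ∀ S ∈ G, S.card ≤ l) [DecidablePred fun w => acc G (Γ w)] :
    ((Finset.univ.filter fun w => acc G (Γ w)).card : ℝ) ≤
      2 * N p (ind (acc G)) ∅ * Fintype.card W := by
  classical
  set lam := N p (ind (acc G)) ∅ with hlam
  set a : ℝ := ((Finset.univ.filter fun w => acc G (Γ w)).card : ℝ) with ha
  have haW : a ≤ Fintype.card W := by
    rw [ha]; exact_mod_cast Finset.card_le_univ _
  have hW0 : (0:ℝ) ≤ Fintype.card W := Nat.cast_nonneg _
  have hq0 : (0:ℝ) < q := by exact_mod_cast hq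
  by_cases hhalf : 1 / 2 < lam
  · nlinarith
  push Not at hhalf
  have hlam0 : 0 ≤ lam := Finset.sum_nonneg fun Z _ =>
    mul_nonneg (wt_nonneg h0.le h1 Z) (ind_nonneg _ _)
  -- the accepting and the rejecting sets
  set Ac : Finset (Finset V) := Finset.univ.filter fun Z => acc G Z with hAc
  set Re : Finset (Finset V) := Finset.univ.filter fun Z => ¬ acc G Z with hRe
  have hlamAc : lam = ∑ Z ∈ Ac, wt p Z := by
    rw [hlam, hAc, Finset.sum_filter]
    unfold N
    refine Finset.sum_congr rfl fun Z _ => ?_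
    rw [Finset.empty_union]
    by_cases hZ : acc G Z
    · rw [ind_true hZ]; simp [hZ]
    · rw [ind_false hZ]; simp [hZ]
  have hRe1 : ∑ Z ∈ Re, wt p Z = 1 - lam := by
    have := Finset.sum_filter_add_sum_filter_not (Finset.univ : Finset (Finset V))
      (fun Z => acc G Z) (fun Z => wt p Z)
    rw [sum_wt] at this
    rw [hlamAc]
    linarith
  -- the fragments
  have hfr : ∀ Z S : Finset V, ∃ T : Finset V, S ∈ G → T ⊆ S ∧ Disjoint Z T ∧ acc G (Z ∪ T) ∧
      ∀ S' ∈ G, S' ⊆ Z ∪ T → S' \ Z = T := by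
    intro Z S
    by_cases hS : S ∈ G
    · obtain ⟨T, hT⟩ := exists_frag (Z := Z) hS
      exact ⟨T, fun _ => hT⟩
    · exact ⟨∅, fun h => absurd h hS⟩
  choose fr hfr using hfr
  set U : Finset V → Finset (Finset V) := fun Z => G.image (fr Z) with hU
  have hst : ∀ Y : Finset V, ∃ S : Finset V, acc G Y → S ∈ G ∧ S ⊆ Y := by
    intro Y
    by_cases hY : acc G Y
    · obtain ⟨S, hS⟩ := hY
      exact ⟨S, fun _ => hS⟩
    · exact ⟨∅, fun h => absurd h hY⟩
  choose st hst using hst
  set u : ℝ := 1 / (q * p) with hu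
  have hu0 : 0 ≤ u := by positivity
  -- step 1
  have step1 : ∀ Z ∈ Re, a ≤ Fintype.card W * ∑ T ∈ U Z, (1 / (q:ℝ)) ^ T.card := by
    intro Z hZ
    have e1 : (Finset.univ.filter fun w => acc G (Γ w)) ⊆
        (U Z).biUnion fun T => Finset.univ.filter fun w => T ⊆ Γ w := by
      intro w hw
      rw [Finset.mem_filter] at hw
      obtain ⟨S, hS, hSw⟩ := hw.2
      rw [Finset.mem_biUnion]
      refine ⟨fr Z S, Finset.mem_image_of_mem _ hS, ?_⟩
      rw [Finset.mem_filter]
      exact ⟨Finset.mem_univ _, (hfr Z S hS).1.trans hSw⟩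
    have e2 : a ≤ ∑ T ∈ U Z, ((Finset.univ.filter fun w => T ⊆ Γ w).card : ℝ) := by
      rw [ha]
      exact_mod_cast (Finset.card_le_card e1).trans Finset.card_biUnion_le
    refine e2.trans ?_
    rw [Finset.mul_sum]
    refine Finset.sum_le_sum fun T hT => ?_
    obtain ⟨S, hS, rfl⟩ := Finset.mem_image.1 hT
    have hc : (fr Z S).card ≤ l := (Finset.card_le_card (hfr Z S hS).1).trans (hG S hS)
    have := hΓ _ hc
    rw [one_div, inv_pow, ← div_eq_mul_inv, le_div_iff₀ (by positivity)]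
    exact_mod_cast this
  -- step 2
  have step2 : ∑ Z ∈ Re, wt p Z * ∑ T ∈ U Z, (1 / (q:ℝ)) ^ T.card ≤ lam * (1 / 2) := by
    have f1 : ∑ Z ∈ Re, wt p Z * ∑ T ∈ U Z, (1 / (q:ℝ)) ^ T.card =
        ∑ a ∈ Re.sigma U, wt p a.1 * (1 / (q:ℝ)) ^ a.2.card := by
      rw [Finset.sum_sigma]
      exact Finset.sum_congr rfl fun Z _ => by rw [Finset.mul_sum]
    set B : Finset (Σ _ : Finset V, Finset V) :=
      Ac.sigma fun Y => (st Y).powerset.erase ∅ with hB
    have f2 : ∑ Y ∈ Ac, wt p Y * ∑ T ∈ (st Y).powerset.erase ∅, u ^ T.card =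
        ∑ b ∈ B, wt p b.1 * u ^ b.2.card := by
      rw [hB, Finset.sum_sigma]
      exact Finset.sum_congr rfl fun Z _ => by rw [Finset.mul_sum]
    set i : (Σ _ : Finset V, Finset V) → (Σ _ : Finset V, Finset V) :=
      fun a => ⟨a.1 ∪ a.2, a.2⟩ with hi
    have hdisj : ∀ a ∈ Re.sigma U, Disjoint a.1 a.2 := by
      rintro ⟨Z, T⟩ ha
      rw [Finset.mem_sigma] at ha
      obtain ⟨S, hS, hST⟩ := Finset.mem_image.1 ha.2
      simp only at hST ⊢
      rw [← hST]
      exact (hfr Z S hS).2.1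
    have hinj : Set.InjOn i (Re.sigma U : Finset _) := by
      rintro ⟨Z, T⟩ ha ⟨Z', T'⟩ ha' h
      have h1 := hdisj _ ha
      have h2 := hdisj _ ha'
      simp only [hi, Sigma.mk.injEq, heq_eq_eq] at h
      obtain ⟨h3, h4⟩ := h
      subst h4
      have : Z = Z' := by
        have e1 : (Z ∪ T) \ T = Z := by
          rw [Finset.union_sdiff_right]
          exact Finset.sdiff_eq_self_of_disjoint h1
        have e2 : (Z' ∪ T) \ T = Z' := by
          rw [Finset.union_sdiff_right]
          exact Finset.sdiff_eq_self_of_disjoint h2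
        rw [← e1, ← e2, h3]
      rw [this]
    have hmem : (Re.sigma U).image i ⊆ B := by
      intro b hb
      obtain ⟨⟨Z, T⟩, ha, rfl⟩ := Finset.mem_image.1 hb
      rw [Finset.mem_sigma] at ha
      obtain ⟨hZ, hT⟩ := ha
      simp only at hZ hT
      obtain ⟨S, hS, hST⟩ := Finset.mem_image.1 hT
      have hf := hfr Z S hS
      rw [hST] at hf
      rw [hRe, Finset.mem_filter] at hZ
      have hY : acc G (Z ∪ T) := hf.2.2.1
      rw [hB, Finset.mem_sigma, hAc, Finset.mem_filter]
      refine ⟨⟨Finset.mem_univ _, hY⟩, ?_⟩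
      simp only [hi, Finset.mem_erase, Finset.mem_powerset]
      obtain ⟨g1, g2⟩ := hst _ hY
      have g3 := hf.2.2.2 _ g1 g2
      constructor
      · intro hT0
        subst hT0
        rw [Finset.union_empty] at hY
        exact hZ.2 hY
      · intro v hv
        rw [← g3] at hv
        exact (Finset.mem_sdiff.1 hv).1
    have hnn : ∀ b : (Σ _ : Finset V, Finset V), 0 ≤ wt p b.1 * u ^ b.2.card := fun b =>
      mul_nonneg (wt_nonneg h0.le h1 _) (by positivity)
    have f3 : ∑ a ∈ Re.sigma U, wt p a.1 * (1 / (q:ℝ)) ^ a.2.card ≤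
        ∑ b ∈ B, wt p b.1 * u ^ b.2.card := by
      calc ∑ a ∈ Re.sigma U, wt p a.1 * (1 / (q:ℝ)) ^ a.2.card
          ≤ ∑ a ∈ Re.sigma U, wt p (i a).1 * u ^ (i a).2.card := by
            refine Finset.sum_le_sum fun a ha => ?_
            have := wt_union h0 h1 (hdisj a ha)
            calc wt p a.1 * (1 / (q:ℝ)) ^ a.2.card ≤
                (wt p (a.1 ∪ a.2) * (1 / p) ^ a.2.card) * (1 / (q:ℝ)) ^ a.2.card := by gcongr
              _ = wt p (i a).1 * u ^ (i a).2.card := by
                simp only [hi, hu]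
                rw [mul_assoc, ← mul_pow]
                congr 2
                field_simp
        _ = ∑ b ∈ (Re.sigma U).image i, wt p b.1 * u ^ b.2.card := by
            rw [Finset.sum_image hinj]
        _ ≤ _ := Finset.sum_le_sum_of_subset_of_nonneg hmem fun b _ _ => hnn b
    rw [f1]
    refine f3.trans ?_
    rw [← f2, hlamAc, Finset.sum_mul]
    refine Finset.sum_le_sum fun Y hY => mul_le_mul_of_nonneg_left ?_ (wt_nonneg h0.le h1 _)
    rw [hAc, Finset.mem_filter] at hY
    obtain ⟨g1, -⟩ := hst Y hY.2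
    have g2 := hG _ g1
    have e8 := Finset.sum_pow_mul_eq_add_pow u 1 (st Y)
    simp only [one_pow, mul_one] at e8
    have e9 : ∑ T ∈ (st Y).powerset.erase ∅, u ^ T.card = (u + 1) ^ (st Y).card - 1 := by
      have := Finset.sum_erase_add (st Y).powerset (fun T => u ^ T.card) (a := ∅) (by simp)
      simp only [Finset.card_empty, pow_zero] at this
      linarith
    rw [e9, add_comm]
    have g3 : 4 * (l:ℝ) * u ≤ 1 := by
      rw [hu, mul_one_div, div_le_one (by positivity)]
      exact hl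
    have g4 : ((st Y).card : ℝ) ≤ l := by exact_mod_cast g2
    have g5 : 4 * ((st Y).card : ℝ) * u ≤ 1 := by nlinarith
    have := one_add_pow_le' hu0 (k := (st Y).card) (by nlinarith)
    linarith
  -- conclusion
  have h3 : (1 - lam) * a ≤ Fintype.card W * (lam * (1 / 2)) := by
    calc (1 - lam) * a = ∑ Z ∈ Re, wt p Z * a := by rw [← hRe1, Finset.sum_mul]
      _ ≤ ∑ Z ∈ Re, wt p Z * (Fintype.card W * ∑ T ∈ U Z, (1 / (q:ℝ)) ^ T.card) :=
        Finset.sum_le_sum fun Z hZ => mul_le_mul_of_nonneg_left (step1 Z hZ)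
          (wt_nonneg h0.le h1 _)
      _ = Fintype.card W * ∑ Z ∈ Re, wt p Z * ∑ T ∈ U Z, (1 / (q:ℝ)) ^ T.card := by
        rw [Finset.mul_sum]
        exact Finset.sum_congr rfl fun Z _ => by ring
      _ ≤ _ := mul_le_mul_of_nonneg_left step2 hW0
  have ha0 : 0 ≤ a := Nat.cast_nonneg _
  nlinarith [mul_nonneg hlam0 hW0]

end Pool.Agent.V8H38.NL
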