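import Mathlib

/-!
# Random subsets: the averaging operator of independent noise
-/

set_option linter.unusedSectionVars false

namespace Pool.Agent.V8H38.NL

open Finset

variable {V : Type} [Fintype V] [DecidableEq V]

/-- weight of a set in the product measure of density `p` -/
noncomputable def wt (p : ℝ) (Z : Finset V) : ℝ := ∏ v, if v ∈ Z then p else 1 - p

theorem sum_prod_sets (f g : V → ℝ) :
    ∑ Z : Finset V, ∏ v, (if v ∈ Z then f v else g v) = ∏ v, (f v + g v) := by
  rw [Finset.prod_add, Finset.powerset_univ]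
  refine Finset.sum_congr rfl fun Z _ => ?_
  rw [Finset.prod_ite]
  congr 1
  · congr 1
    ext v; simp
  · congr 1
    ext v; simp

theorem wt_nonneg {p : ℝ} (h0 : 0 ≤ p) (h1 : p ≤ 1) (Z : Finset V) : 0 ≤ wt p Z := by
  unfold wt
  refine Finset.prod_nonneg fun v _ => ?_
  split_ifs <;> linarith

theorem sum_wt (p : ℝ) : ∑ Z : Finset V, wt p Z = 1 := by
  unfold wt
  rw [sum_prod_sets (fun _ => p) (fun _ => 1 - p)]
  simp

/-- the averaging operator: the mean value of `φ` at `x ∪ Z` for a random set `Z` of density `p` -/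
noncomputable def N (p : ℝ) (φ : Finset V → ℝ) (x : Finset V) : ℝ :=
  ∑ Z : Finset V, wt p Z * φ (x ∪ Z)

theorem N_mono {p : ℝ} (h0 : 0 ≤ p) (h1 : p ≤ 1) {φ ψ : Finset V → ℝ} {x : Finset V}
    (h : ∀ y, x ⊆ y → φ y ≤ ψ y) : N p φ x ≤ N p ψ x := by
  unfold N
  exact Finset.sum_le_sum fun Z _ =>
    mul_le_mul_of_nonneg_left (h _ Finset.subset_union_left) (wt_nonneg h0 h1 Z)

theorem N_const (p c : ℝ) (x : Finset V) : N p (fun _ => c) x = c := by
  unfold N
  rw [← Finset.sum_mul, sum_wt, one_mul]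

theorem N_add (p : ℝ) (φ ψ : Finset V → ℝ) (x : Finset V) :
    N p (fun y => φ y + ψ y) x = N p φ x + N p ψ x := by
  unfold N
  rw [← Finset.sum_add_distrib]
  exact Finset.sum_congr rfl fun Z _ => by ring

theorem N_smul (p c : ℝ) (φ : Finset V → ℝ) (x : Finset V) :
    N p (fun y => c * φ y) x = c * N p φ x := by
  unfold N
  rw [Finset.mul_sum]
  exact Finset.sum_congr rfl fun Z _ => by ring

/-- iterated averaging operator -/
noncomputable def NN (p : ℝ) (m : ℕ) (φ : Finset V → ℝ) : Finset V → ℝ := (N p)^[m] φ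

theorem NN_zero (p : ℝ) (φ : Finset V → ℝ) : NN p 0 φ = φ := rfl

theorem NN_succ (p : ℝ) (m : ℕ) (φ : Finset V → ℝ) : NN p (m + 1) φ = N p (NN p m φ) := by
  unfold NN
  rw [Function.iterate_succ_apply']

theorem NN_succ' (p : ℝ) (m : ℕ) (φ : Finset V → ℝ) : NN p (m + 1) φ = NN p m (N p φ) := by
  unfold NN
  rw [Function.iterate_succ_apply]

theorem NN_add_iter (p : ℝ) (m k : ℕ) (φ : Finset V → ℝ) :
    NN p (m + k) φ = NN p m (NN p k φ) := by
  unfold NN
  rw [Function.iterate_add_apply]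

theorem NN_mono {p : ℝ} (h0 : 0 ≤ p) (h1 : p ≤ 1) (m : ℕ) {φ ψ : Finset V → ℝ} :
    ∀ {x : Finset V}, (∀ y, x ⊆ y → φ y ≤ ψ y) → NN p m φ x ≤ NN p m ψ x := by
  induction m with
  | zero => intro x h; exact h x (Finset.Subset.refl _)
  | succ m ih =>
    intro x h
    rw [NN_succ, NN_succ]
    exact N_mono h0 h1 fun y hy => ih fun z hz => h z (hy.trans hz)

theorem NN_const (p c : ℝ) (m : ℕ) (x : Finset V) : NN p m (fun _ => c) x = c := by
  induction m generalizing x with
  | zero => rfl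
  | succ m ih =>
    rw [NN_succ]
    have : NN p m (fun _ : Finset V => c) = fun _ => c := funext ih
    rw [this, N_const]

theorem NN_add (p : ℝ) (m : ℕ) (φ ψ : Finset V → ℝ) :
    NN p m (fun y => φ y + ψ y) = fun x => NN p m φ x + NN p m ψ x := by
  induction m with
  | zero => rfl
  | succ m ih =>
    rw [NN_succ, ih, NN_succ, NN_succ]
    funext x
    exact N_add p _ _ x

theorem NN_smul (p : ℝ) (m : ℕ) (c : ℝ) (φ : Finset V → ℝ) :
    NN p m (fun y => c * φ y) = fun x => c * NN p m φ x := by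
  induction m with
  | zero => rfl
  | succ m ih =>
    rw [NN_succ, ih, NN_succ]
    funext x
    exact N_smul p c _ x

theorem NN_nonneg {p : ℝ} (h0 : 0 ≤ p) (h1 : p ≤ 1) (m : ℕ) {φ : Finset V → ℝ}
    (h : ∀ y, 0 ≤ φ y) (x : Finset V) : 0 ≤ NN p m φ x := by
  have := NN_mono h0 h1 m (φ := fun _ => 0) (ψ := φ) (x := x) fun y _ => h y
  rwa [NN_const] at this

theorem NN_le_one {p : ℝ} (h0 : 0 ≤ p) (h1 : p ≤ 1) (m : ℕ) {φ : Finset V → ℝ}
    (h : ∀ y, φ y ≤ 1) (x : Finset V) : NN p m φ x ≤ 1 := by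
  have := NN_mono h0 h1 m (φ := φ) (ψ := fun _ => 1) (x := x) fun y _ => h y
  rwa [NN_const] at this

/-- translation -/
theorem N_trans (p : ℝ) (φ : Finset V → ℝ) (A x : Finset V) :
    N p (fun y => φ (A ∪ y)) x = N p φ (A ∪ x) := by
  unfold N
  refine Finset.sum_congr rfl fun Z _ => ?_
  rw [Finset.union_assoc]

theorem NN_trans (p : ℝ) (m : ℕ) (φ : Finset V → ℝ) (A x : Finset V) :
    NN p m (fun y => φ (A ∪ y)) x = NN p m φ (A ∪ x) := by
  induction m generalizing x with
  | zero => rfl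
  | succ m ih =>
    rw [NN_succ, NN_succ, ← N_trans]
    congr 1
    funext y
    exact ih y

/-- monotone functions increase -/
theorem N_ge {p : ℝ} (h0 : 0 ≤ p) (h1 : p ≤ 1) {φ : Finset V → ℝ} {x : Finset V}
    (h : ∀ y, x ⊆ y → φ x ≤ φ y) : φ x ≤ N p φ x := by
  calc φ x = N p (fun _ => φ x) x := (N_const p _ x).symm
    _ ≤ N p φ x := N_mono h0 h1 h

theorem N_monotone {p : ℝ} (h0 : 0 ≤ p) (h1 : p ≤ 1) {φ : Finset V → ℝ} (h : Monotone φ) :
    Monotone (N p φ) := by
  intro x y hxy
  unfold N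
  exact Finset.sum_le_sum fun Z _ =>
    mul_le_mul_of_nonneg_left (h (Finset.union_subset_union_left hxy)) (wt_nonneg h0 h1 Z)

theorem NN_monotone {p : ℝ} (h0 : 0 ≤ p) (h1 : p ≤ 1) (m : ℕ) {φ : Finset V → ℝ}
    (h : Monotone φ) : Monotone (NN p m φ) := by
  induction m with
  | zero => exact h
  | succ m ih => rw [NN_succ]; exact N_monotone h0 h1 ih

theorem NN_le_succ {p : ℝ} (h0 : 0 ≤ p) (h1 : p ≤ 1) (m : ℕ) {φ : Finset V → ℝ}
    (h : Monotone φ) (x : Finset V) : NN p m φ x ≤ NN p (m + 1) φ x := by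
  rw [NN_succ]
  exact N_ge h0 h1 fun y hy => NN_monotone h0 h1 m h hy

theorem NN_le_of_le {p : ℝ} (h0 : 0 ≤ p) (h1 : p ≤ 1) {m k : ℕ} (hmk : m ≤ k)
    {φ : Finset V → ℝ} (h : Monotone φ) (x : Finset V) : NN p m φ x ≤ NN p k φ x := by
  induction k, hmk using Nat.le_induction with
  | base => exact le_refl _
  | succ k _ ih => exact ih.trans (NN_le_succ h0 h1 k h x)

/-- the averages of `a ^ |T \ x|` -/
theorem N_psi (p a : ℝ) (T x : Finset V) :
    N p (fun y => a ^ (T \ y).card) x = (p + (1 - p) * a) ^ (T \ x).card := by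
  have h1 : ∀ Z : Finset V, wt p Z * a ^ (T \ (x ∪ Z)).card =
      ∏ v, if v ∈ Z then p else (1 - p) * (if v ∈ T \ x then a else 1) := by
    intro Z
    unfold wt
    have h2 : a ^ (T \ (x ∪ Z)).card = ∏ v, if v ∈ Z then 1 else (if v ∈ T \ x then a else 1) := by
      rw [← Finset.prod_const, ← Finset.prod_filter_mul_prod_filter_not univ (fun v => v ∈ T \ (x ∪ Z))]
      have e1 : (univ.filter fun v => v ∈ T \ (x ∪ Z)) = T \ (x ∪ Z) := by ext v; simp
      rw [e1]
      have e2 : ∏ v ∈ univ.filter (fun v => ¬ v ∈ T \ (x ∪ Z)),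
          (if v ∈ Z then (1:ℝ) else (if v ∈ T \ x then a else 1)) = 1 := by
        refine Finset.prod_eq_one fun v hv => ?_
        simp only [mem_filter, mem_univ, true_and, mem_sdiff, mem_union, not_and, not_not] at hv
        by_cases hZ : v ∈ Z
        · simp [hZ]
        · by_cases hT : v ∈ T
          · have := hv hT
            have hx : v ∈ x := by tauto
            simp [hZ, hx]
          · simp [hZ, hT]
      rw [e2, mul_one]
      refine Finset.prod_congr rfl fun v hv => ?_
      simp only [mem_sdiff, mem_union, not_or] at hv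
      simp [hv.1, hv.2.1, hv.2.2]
    rw [h2, ← Finset.prod_mul_distrib]
    refine Finset.prod_congr rfl fun v _ => ?_
    by_cases hZ : v ∈ Z <;> simp [hZ]
  unfold N
  rw [Finset.sum_congr rfl fun Z _ => h1 Z,
    sum_prod_sets (fun _ => p) (fun v => (1 - p) * (if v ∈ T \ x then a else 1))]
  rw [← Finset.prod_const, ← Finset.prod_filter_mul_prod_filter_not univ (fun v => v ∈ T \ x)]
  have e1 : (univ.filter fun v => v ∈ T \ x) = T \ x := by ext v; simp
  rw [e1]
  have e2 : ∏ v ∈ univ.filter (fun v => ¬ v ∈ T \ x),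
      (p + (1 - p) * (if v ∈ T \ x then a else 1)) = 1 := by
    refine Finset.prod_eq_one fun v hv => ?_
    simp only [mem_filter, mem_univ, true_and] at hv
    simp [hv]
  rw [e2, mul_one]
  refine Finset.prod_congr rfl fun v hv => ?_
  simp [hv]

theorem NN_psi (p a : ℝ) (m : ℕ) (T x : Finset V) :
    NN p m (fun y => a ^ (T \ y).card) x = (1 - (1 - a) * (1 - p) ^ m) ^ (T \ x).card := by
  induction m generalizing a x with
  | zero => simp [NN_zero]
  | succ m ih =>
    rw [NN_succ']
    have : N p (fun y => a ^ (T \ y).card) = fun y => (p + (1 - p) * a) ^ (T \ y).card :=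
      funext fun y => N_psi p a T y
    rw [this, ih]
    congr 1
    ring

open Classical in
/-- the indicator of a property of sets -/
noncomputable def ind (P : Finset V → Prop) (x : Finset V) : ℝ := if P x then 1 else 0

theorem ind_nonneg (P : Finset V → Prop) (x : Finset V) : 0 ≤ ind P x := by
  unfold ind; split_ifs <;> norm_num

theorem ind_le_one (P : Finset V → Prop) (x : Finset V) : ind P x ≤ 1 := by
  unfold ind; split_ifs <;> norm_num

theorem ind_true {P : Finset V → Prop} {x : Finset V} (h : P x) : ind P x = 1 := by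
  unfold ind; simp [h]

theorem ind_false {P : Finset V → Prop} {x : Finset V} (h : ¬ P x) : ind P x = 0 := by
  unfold ind; simp [h]

theorem ind_le {P Q : Finset V → Prop} {x y : Finset V} (h : P x → Q y) : ind P x ≤ ind Q y := by
  by_cases hP : P x
  · rw [ind_true hP, ind_true (h hP)]
  · rw [ind_false hP]; exact ind_nonneg _ _

theorem ind_mono {P : Finset V → Prop} (h : ∀ x y, x ⊆ y → P x → P y) : Monotone (ind P) :=
  fun x y hxy => ind_le (h x y hxy)

/-- probability that a random set contains `T` -/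
theorem N_contains (p : ℝ) (T : Finset V) : N p (ind (fun y => T ⊆ y)) ∅ = p ^ T.card := by
  have h : (ind (fun y => T ⊆ y)) = fun y : Finset V => (0:ℝ) ^ (T \ y).card := by
    funext y
    by_cases hT : T ⊆ y
    · rw [ind_true (P := fun y => T ⊆ y) hT, Finset.sdiff_eq_empty_iff_subset.2 hT]; simp
    · rw [ind_false (P := fun y => T ⊆ y) hT, zero_pow]
      intro h0
      exact hT (Finset.sdiff_eq_empty_iff_subset.1 (Finset.card_eq_zero.1 h0))
  rw [h, N_psi]
  simp

theorem NN_contains (p : ℝ) (m : ℕ) (T : Finset V) :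
    NN p m (ind (fun y => T ⊆ y)) ∅ = (1 - (1 - p) ^ m) ^ T.card := by
  have h : (ind (fun y => T ⊆ y)) = fun y : Finset V => (0:ℝ) ^ (T \ y).card := by
    funext y
    by_cases hT : T ⊆ y
    · rw [ind_true (P := fun y => T ⊆ y) hT, Finset.sdiff_eq_empty_iff_subset.2 hT]; simp
    · rw [ind_false (P := fun y => T ⊆ y) hT, zero_pow]
      intro h0
      exact hT (Finset.sdiff_eq_empty_iff_subset.1 (Finset.card_eq_zero.1 h0))
  rw [h, NN_psi]
  simp

end Pool.Agent.V8H38.NL
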