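import Pool.Agent.V8H38.NL.Prob

/-!
# Spread families, robust sunflowers and closed families
-/

set_option linter.unusedSectionVars false

namespace Pool.Agent.V8H38.NL

open Finset

variable {V : Type} [Fintype V] [DecidableEq V]

/-- some member of the family is contained in the set -/
def acc (F : Finset (Finset V)) (X : Finset V) : Prop := ∃ S ∈ F, S ⊆ X

theorem acc_mono {F : Finset (Finset V)} {X Y : Finset V} (h : X ⊆ Y) (hX : acc F X) : acc F Y := by
  obtain ⟨S, hS, hSX⟩ := hX
  exact ⟨S, hS, hSX.trans h⟩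

theorem acc_sub {F G : Finset (Finset V)} {X : Finset V} (h : F ⊆ G) (hX : acc F X) : acc G X := by
  obtain ⟨S, hS, hSX⟩ := hX
  exact ⟨S, h hS, hSX⟩

theorem one_add_pow_le {u : ℝ} (hu : 0 ≤ u) {k : ℕ} (h : 2 * k * u ≤ 1) : (1 + u) ^ k ≤ 2 := by
  have h2 : ∀ j : ℕ, j ≤ k → (1 + u) ^ j ≤ 1 + 2 * j * u := by
    intro j
    induction j with
    | zero => intro _; simp
    | succ j ih =>
      intro hj
      have h3 := ih (by omega)
      have hj' : (j : ℝ) ≤ k := by exact_mod_cast (by omega : j ≤ k)
      have h4 : 2 * (j:ℝ) * u ≤ 1 := by nlinarith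
      rw [pow_succ]
      push_cast
      nlinarith [mul_le_mul_of_nonneg_right h3 (by linarith : (0:ℝ) ≤ 1 + u)]
  have := h2 k le_rfl
  linarith

/-- **Second moment.** A `κ`-spread family of `k`-sets has a member in a random set of density `p`
with probability at least `1/2`, if `κ p ≥ 2 k`. -/
theorem second_moment {p : ℝ} (h0 : 0 < p) (h1 : p ≤ 1) {k κ : ℕ} (hκ : 0 < κ)
    {F : Finset (Finset V)} (hne : F.Nonempty) (hF : ∀ S ∈ F, S.card = k)
    (hspread : ∀ B : Finset V, (F.filter fun S => B ⊆ S).card * κ ^ B.card ≤ F.card)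
    (hk : 2 * (k : ℝ) ≤ κ * p) : 1 / 2 ≤ N p (ind (acc F)) ∅ := by
  classical
  -- first moment
  set c : ℝ := ((F.card : ℕ) : ℝ) with hc
  have hcpos : 0 < c := by rw [hc]; exact_mod_cast hne.card_pos
  have hκ' : (0:ℝ) < κ := by exact_mod_cast hκ
  set X : Finset V → ℝ := fun Z => ∑ S ∈ F, ind (fun y => S ⊆ y) Z with hX
  have hE1 : ∑ Z : Finset V, wt p Z * X Z = c * p ^ k := by
    have : ∑ Z : Finset V, wt p Z * X Z = ∑ S ∈ F, N p (ind (fun y => S ⊆ y)) ∅ := by
      unfold N
      rw [Finset.sum_comm]
      refine Finset.sum_congr rfl fun Z _ => ?_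
      rw [hX, Finset.mul_sum]
      simp
    rw [this, Finset.sum_congr rfl fun S hS => by rw [N_contains, hF S hS]]
    simp [hc]
  have hE2 : ∑ Z : Finset V, wt p Z * X Z ^ 2 ≤ c ^ 2 * p ^ (2 * k) * 2 := by
    have e1 : ∑ Z : Finset V, wt p Z * X Z ^ 2 = ∑ S ∈ F, ∑ S' ∈ F, p ^ (S ∪ S').card := by
      have : ∀ Z : Finset V, wt p Z * X Z ^ 2 =
          ∑ S ∈ F, ∑ S' ∈ F, wt p Z * ind (fun y => S ∪ S' ⊆ y) (∅ ∪ Z) := by
        intro Z
        rw [hX, sq, Finset.sum_mul_sum, Finset.mul_sum]
        refine Finset.sum_congr rfl fun S _ => ?_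
        rw [Finset.mul_sum]
        refine Finset.sum_congr rfl fun S' _ => ?_
        congr 1
        rw [Finset.empty_union]
        by_cases hS : S ⊆ Z
        · by_cases hS' : S' ⊆ Z
          · rw [ind_true (P := fun y => S ⊆ y) hS, ind_true (P := fun y => S' ⊆ y) hS',
              ind_true (P := fun y => S ∪ S' ⊆ y) (Finset.union_subset hS hS')]
            ring
          · rw [ind_false (P := fun y => S' ⊆ y) hS',
              ind_false (P := fun y => S ∪ S' ⊆ y) fun h => hS' (Finset.subset_union_right.trans h)]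
            ring
        · rw [ind_false (P := fun y => S ⊆ y) hS,
            ind_false (P := fun y => S ∪ S' ⊆ y) fun h => hS (Finset.subset_union_left.trans h)]
          ring
      rw [Finset.sum_congr rfl fun Z _ => this Z, Finset.sum_comm]
      refine Finset.sum_congr rfl fun S _ => ?_
      rw [Finset.sum_comm]
      refine Finset.sum_congr rfl fun S' _ => ?_
      exact N_contains p (S ∪ S')
    rw [e1]
    have e2 : ∀ S ∈ F, ∑ S' ∈ F, p ^ (S ∪ S').card ≤ c * p ^ (2 * k) * 2 := by
      intro S hS
      -- split according to the intersection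
      have e3 : ∑ S' ∈ F, p ^ (S ∪ S').card =
          ∑ B ∈ S.powerset, ∑ S' ∈ F.filter (fun S' => S ∩ S' = B), p ^ (S ∪ S').card := by
        rw [← Finset.sum_fiberwise_of_maps_to (s := F) (t := S.powerset) (g := fun S' => S ∩ S')
          (fun S' _ => by simp [Finset.inter_subset_left])]
      have e4 : ∀ B ∈ S.powerset, ∑ S' ∈ F.filter (fun S' => S ∩ S' = B), p ^ (S ∪ S').card ≤
          c * p ^ (2 * k) * (1 / (κ * p)) ^ B.card := by
        intro B hB
        have hBS := Finset.mem_powerset.1 hB
        have hBk : B.card ≤ k := by rw [← hF S hS]; exact Finset.card_le_card hBS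
        have e5 : ∀ S' ∈ F.filter (fun S' => S ∩ S' = B), p ^ (S ∪ S').card =
            p ^ (2 * k - B.card) := by
          intro S' hS'
          rw [Finset.mem_filter] at hS'
          have := Finset.card_union_add_card_inter S S'
          rw [hF S hS, hF S' hS'.1, hS'.2] at this
          congr 1
          omega
        rw [Finset.sum_congr rfl e5, Finset.sum_const, nsmul_eq_mul]
        have e6 : ((F.filter fun S' => S ∩ S' = B).card : ℝ) * κ ^ B.card ≤ c := by
          have h2 : (F.filter fun S' => S ∩ S' = B).card ≤ (F.filter fun S => B ⊆ S).card := by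
            refine Finset.card_le_card fun S' hS' => ?_
            rw [Finset.mem_filter] at hS' ⊢
            refine ⟨hS'.1, ?_⟩
            rw [← hS'.2]
            exact Finset.inter_subset_right
          have h3 := hspread B
          rw [hc]
          exact_mod_cast (Nat.mul_le_mul_right _ h2).trans h3
        have e7 : ((F.filter fun S' => S ∩ S' = B).card : ℝ) ≤ c * (1 / κ) ^ B.card := by
          rw [one_div, inv_pow]
          rw [← div_eq_mul_inv, le_div_iff₀ (by positivity)]
          exact e6
        calc ((F.filter fun S' => S ∩ S' = B).card : ℝ) * p ^ (2 * k - B.card)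
            ≤ c * (1 / κ) ^ B.card * p ^ (2 * k - B.card) := by gcongr
          _ = c * p ^ (2 * k) * (1 / (κ * p)) ^ B.card := by
            have : p ^ (2 * k) = p ^ (2 * k - B.card) * p ^ B.card := by
              rw [← pow_add]; congr 1; omega
            rw [this, one_div, one_div, mul_inv, mul_pow, inv_pow, inv_pow]
            field_simp
      rw [e3]
      refine (Finset.sum_le_sum e4).trans ?_
      rw [← Finset.mul_sum]
      refine mul_le_mul_of_nonneg_left ?_ (by positivity)
      have e8 := Finset.sum_pow_mul_eq_add_pow (1 / ((κ:ℝ) * p)) 1 S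
      simp only [one_pow, mul_one] at e8
      rw [e8, hF S hS, add_comm]
      refine one_add_pow_le (by positivity) ?_
      rw [mul_one_div, div_le_one (by positivity)]
      exact hk
    calc ∑ S ∈ F, ∑ S' ∈ F, p ^ (S ∪ S').card ≤ ∑ S ∈ F, c * p ^ (2 * k) * 2 :=
          Finset.sum_le_sum e2
      _ = c ^ 2 * p ^ (2 * k) * 2 := by rw [Finset.sum_const, nsmul_eq_mul]; ring
  -- Cauchy-Schwarz
  have hw : ∀ Z : Finset V, 0 ≤ wt p Z := wt_nonneg h0.le h1
  have hCS : (∑ Z : Finset V, wt p Z * X Z) ^ 2 ≤
      (∑ Z : Finset V, wt p Z * X Z ^ 2) * (∑ Z : Finset V, wt p Z * ind (acc F) Z) := by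
    have := Finset.sum_mul_sq_le_sq_mul_sq (Finset.univ : Finset (Finset V))
      (fun Z => Real.sqrt (wt p Z) * X Z) (fun Z => Real.sqrt (wt p Z) * ind (acc F) Z)
    have e1 : ∀ Z : Finset V, Real.sqrt (wt p Z) * X Z * (Real.sqrt (wt p Z) * ind (acc F) Z) =
        wt p Z * X Z := by
      intro Z
      have hs := Real.mul_self_sqrt (hw Z)
      by_cases hZ : acc F Z
      · rw [ind_true hZ]
        linear_combination (X Z) * hs
      · rw [ind_false hZ]
        have : X Z = 0 := by
          rw [hX]
          refine Finset.sum_eq_zero fun S hS => ?_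
          exact ind_false (P := fun y => S ⊆ y) fun h => hZ ⟨S, hS, h⟩
        rw [this]; ring
    have e2 : ∀ Z : Finset V, (Real.sqrt (wt p Z) * X Z) ^ 2 = wt p Z * X Z ^ 2 := by
      intro Z
      rw [mul_pow, Real.sq_sqrt (hw Z)]
    have e3 : ∀ Z : Finset V, (Real.sqrt (wt p Z) * ind (acc F) Z) ^ 2 =
        wt p Z * ind (acc F) Z := by
      intro Z
      rw [mul_pow, Real.sq_sqrt (hw Z)]
      by_cases hZ : acc F Z
      · rw [ind_true hZ]; ring
      · rw [ind_false hZ]; ring
    simp only [e1, e2, e3] at this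
    exact this
  have hfin : N p (ind (acc F)) ∅ = ∑ Z : Finset V, wt p Z * ind (acc F) Z := by
    unfold N
    simp
  rw [hfin]
  set P := ∑ Z : Finset V, wt p Z * ind (acc F) Z with hP
  have hP0 : 0 ≤ P := Finset.sum_nonneg fun Z _ => mul_nonneg (hw Z) (ind_nonneg _ _)
  rw [hE1] at hCS
  have h2 : (c * p ^ k) ^ 2 ≤ c ^ 2 * p ^ (2 * k) * 2 * P :=
    hCS.trans (mul_le_mul_of_nonneg_right hE2 hP0)
  have h3 : (c * p ^ k) ^ 2 = c ^ 2 * p ^ (2 * k) := by rw [mul_pow, ← pow_mul, mul_comm k 2]
  rw [h3] at h2
  have h4 : 0 < c ^ 2 * p ^ (2 * k) := by positivity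
  have h5 : c ^ 2 * p ^ (2 * k) * 1 ≤ c ^ 2 * p ^ (2 * k) * (2 * P) := by linarith
  have h6 := le_of_mul_le_mul_left h5 h4
  linarith

/-- A large family of `k`-sets has a kernel with spread link. -/
theorem exists_spread_link {k κ : ℕ} (hκ : 0 < κ) {F : Finset (Finset V)}
    (hF : ∀ S ∈ F, S.card = k) (hbig : κ ^ k < F.card) :
    ∃ A : Finset V, A.card < k ∧ (F.filter fun S => A ⊆ S).Nonempty ∧
      ∀ B : Finset V, Disjoint A B →
        (F.filter fun S => A ∪ B ⊆ S).card * κ ^ B.card ≤ (F.filter fun S => A ⊆ S).card := by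
  classical
  set Q : Finset (Finset V) := Finset.univ.filter fun A =>
    A.card ≤ k ∧ κ ^ (k - A.card) < (F.filter fun S => A ⊆ S).card with hQ
  have hQne : Q.Nonempty := ⟨∅, by simp [hQ, hbig]⟩
  obtain ⟨A, hA, hmax⟩ := Finset.exists_max_image Q Finset.card hQne
  rw [hQ, Finset.mem_filter] at hA
  obtain ⟨-, hAk, hAbig⟩ := hA
  refine ⟨A, ?_, ?_, ?_⟩
  · rcases lt_or_eq_of_le hAk with h | h
    · exact h
    · exfalso
      rw [h, Nat.sub_self, pow_zero] at hAbig
      have : (F.filter fun S => A ⊆ S).card ≤ 1 := by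
        refine Finset.card_le_one.2 fun S hS S' hS' => ?_
        rw [Finset.mem_filter] at hS hS'
        have e1 : A = S := Finset.eq_of_subset_of_card_le hS.2 (by rw [hF S hS.1, h])
        have e2 : A = S' := Finset.eq_of_subset_of_card_le hS'.2 (by rw [hF S' hS'.1, h])
        rw [← e1, ← e2]
      omega
  · rw [← Finset.card_pos]
    exact lt_of_le_of_lt (Nat.zero_le _) hAbig
  · intro B hAB
    by_cases hB : B = ∅
    · subst hB; simp
    have hBc : 0 < B.card := Finset.card_pos.2 (Finset.nonempty_iff_ne_empty.2 hB)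
    have hcard : (A ∪ B).card = A.card + B.card := Finset.card_union_of_disjoint hAB
    by_cases hk : (A ∪ B).card ≤ k
    · have hnot : A ∪ B ∉ Q := fun h => by
        have := hmax _ h
        omega
      rw [hQ, Finset.mem_filter] at hnot
      push Not at hnot
      have h2 := hnot (Finset.mem_univ _) hk
      calc (F.filter fun S => A ∪ B ⊆ S).card * κ ^ B.card
          ≤ κ ^ (k - (A ∪ B).card) * κ ^ B.card := Nat.mul_le_mul_right _ h2
        _ = κ ^ (k - A.card) := by rw [← pow_add]; congr 1; omega
        _ ≤ _ := hAbig.le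
    · have : (F.filter fun S => A ∪ B ⊆ S) = ∅ := by
        rw [Finset.filter_eq_empty_iff]
        intro S hS hsub
        have := Finset.card_le_card hsub
        rw [hF S hS] at this
        omega
      rw [this]; simp

/-- One round of noise halves the probability of missing a family with spread link. -/
theorem boost_one {p : ℝ} (h0 : 0 < p) (h1 : p ≤ 1) {k κ : ℕ} (hκ : 0 < κ)
    {F : Finset (Finset V)} (hF : ∀ S ∈ F, S.card = k) {A : Finset V} (hA : A.card < k)
    (hne : (F.filter fun S => A ⊆ S).Nonempty)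
    (hlink : ∀ B : Finset V, Disjoint A B →
        (F.filter fun S => A ∪ B ⊆ S).card * κ ^ B.card ≤ (F.filter fun S => A ⊆ S).card)
    (hk : 2 * (k : ℝ) ≤ κ * p) {x : Finset V} (hx : A ⊆ x) :
    N p (ind (fun y => ¬ acc F y)) x ≤ 1 / 2 * ind (fun y => ¬ acc F y) x := by
  classical
  by_cases hacc : acc F x
  · rw [ind_false (P := fun y => ¬ acc F y) (fun h => h hacc), mul_zero]
    have : ∀ Z : Finset V, ind (fun y => ¬ acc F y) (x ∪ Z) = 0 := fun Z =>
      ind_false (P := fun y => ¬ acc F y) fun h => h (acc_mono Finset.subset_union_left hacc)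
    unfold N
    rw [Finset.sum_congr rfl fun Z _ => by rw [this Z, mul_zero]]
    simp
  · rw [ind_true (P := fun y => ¬ acc F y) hacc, mul_one]
    set G : Finset (Finset V) := (F.filter fun S => A ⊆ S).image (fun S => S \ A) with hG
    have hinj : Set.InjOn (fun S => S \ A) (F.filter fun S => A ⊆ S : Finset (Finset V)) := by
      intro S hS S' hS' h
      simp only [Finset.coe_filter, Set.mem_ofPred_eq] at hS hS'
      have e1 := Finset.sdiff_union_of_subset hS.2
      have e2 := Finset.sdiff_union_of_subset hS'.2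
      have h' : S \ A = S' \ A := h
      rw [← e1, ← e2, h']
    have hGcard : G.card = (F.filter fun S => A ⊆ S).card := Finset.card_image_of_injOn hinj
    have hG1 : ∀ S ∈ G, S.card = k - A.card := by
      intro S hS
      rw [hG, Finset.mem_image] at hS
      obtain ⟨S', hS', rfl⟩ := hS
      rw [Finset.mem_filter] at hS'
      rw [Finset.card_sdiff_of_subset hS'.2, hF S' hS'.1]
    have hG2 : ∀ B : Finset V, (G.filter fun S => B ⊆ S).card * κ ^ B.card ≤ G.card := by
      intro B
      by_cases hAB : Disjoint A B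
      · have h2 : (G.filter fun S => B ⊆ S).card ≤ (F.filter fun S => A ∪ B ⊆ S).card := by
          have : (G.filter fun S => B ⊆ S) ⊆ (F.filter fun S => A ∪ B ⊆ S).image (fun S => S \ A) := by
            intro S hS
            rw [Finset.mem_filter, hG, Finset.mem_image] at hS
            obtain ⟨⟨S', hS', rfl⟩, hB⟩ := hS
            rw [Finset.mem_filter] at hS'
            rw [Finset.mem_image]
            refine ⟨S', ?_, rfl⟩
            rw [Finset.mem_filter]
            exact ⟨hS'.1, Finset.union_subset hS'.2 (hB.trans Finset.sdiff_subset)⟩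
          exact (Finset.card_le_card this).trans Finset.card_image_le
        rw [hGcard]
        exact (Nat.mul_le_mul_right _ h2).trans (hlink B hAB)
      · have : (G.filter fun S => B ⊆ S) = ∅ := by
          rw [Finset.filter_eq_empty_iff]
          intro S hS hsub
          rw [hG, Finset.mem_image] at hS
          obtain ⟨S', hS', rfl⟩ := hS
          apply hAB
          rw [Finset.disjoint_left]
          intro v hvA hvB
          have := hsub hvB
          rw [Finset.mem_sdiff] at this
          exact this.2 hvA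
        rw [this]; simp
    have hsm := second_moment h0 h1 hκ (k := k - A.card) (F := G) (by
      rw [hG]; exact hne.image _) hG1 hG2 (by
      have : ((k - A.card : ℕ) : ℝ) ≤ k := by exact_mod_cast Nat.sub_le _ _
      linarith)
    have e1 : N p (ind (fun y => ¬ acc F y)) x ≤ N p (fun y => 1 - ind (acc G) y) ∅ := by
      unfold N
      refine Finset.sum_le_sum fun Z _ => mul_le_mul_of_nonneg_left ?_ (wt_nonneg h0.le h1 Z)
      show ind (fun y => ¬ acc F y) (x ∪ Z) ≤ 1 - ind (acc G) (∅ ∪ Z)
      by_cases hGZ : acc G (∅ ∪ Z)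
      · rw [ind_true hGZ]
        rw [ind_false (P := fun y => ¬ acc F y)]
        · norm_num
        · intro h
          apply h
          obtain ⟨S, hS, hSZ⟩ := hGZ
          rw [hG, Finset.mem_image] at hS
          obtain ⟨S', hS', rfl⟩ := hS
          rw [Finset.mem_filter] at hS'
          refine ⟨S', hS'.1, ?_⟩
          intro v hv
          by_cases hvA : v ∈ A
          · exact Finset.mem_union_left _ (hx hvA)
          · refine Finset.mem_union_right _ ?_
            have := hSZ (Finset.mem_sdiff.2 ⟨hv, hvA⟩)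
            simpa using this
      · rw [ind_false hGZ]
        have := ind_le_one (fun y => ¬ acc F y) (x ∪ Z)
        linarith
    have e2 : N p (fun y => 1 - ind (acc G) y) ∅ = 1 - N p (ind (acc G)) ∅ := by
      have e3 : (fun y => 1 - ind (acc G) y) = fun y : Finset V => (fun _ => (1:ℝ)) y +
          (fun y => (-1) * ind (acc G) y) y := by
        funext y; ring
      rw [e3, N_add, N_const, N_smul]
      ring
    rw [e2] at e1
    linarith

theorem boost {p : ℝ} (h0 : 0 < p) (h1 : p ≤ 1) {k κ : ℕ} (hκ : 0 < κ)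
    {F : Finset (Finset V)} (hF : ∀ S ∈ F, S.card = k) {A : Finset V} (hA : A.card < k)
    (hne : (F.filter fun S => A ⊆ S).Nonempty)
    (hlink : ∀ B : Finset V, Disjoint A B →
        (F.filter fun S => A ∪ B ⊆ S).card * κ ^ B.card ≤ (F.filter fun S => A ⊆ S).card)
    (hk : 2 * (k : ℝ) ≤ κ * p) (m : ℕ) : ∀ {x : Finset V}, A ⊆ x →
    NN p m (ind (fun y => ¬ acc F y)) x ≤ (1 / 2) ^ m * ind (fun y => ¬ acc F y) x := by
  induction m with
  | zero => intro x hx; simp [NN_zero]
  | succ m ih =>
    intro x hx
    rw [NN_succ']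
    have h2 : NN p m (N p (ind fun y => ¬ acc F y)) x ≤
        NN p m (fun y => 1 / 2 * ind (fun y => ¬ acc F y) y) x :=
      NN_mono h0.le h1 m fun y hy => boost_one h0 h1 hκ hF hA hne hlink hk (hx.trans hy)
    rw [NN_smul] at h2
    have h3 := ih hx
    calc NN p m (N p (ind fun y => ¬ acc F y)) x ≤
        1 / 2 * NN p m (ind fun y => ¬ acc F y) x := h2
      _ ≤ 1 / 2 * ((1 / 2) ^ m * ind (fun y => ¬ acc F y) x) := by gcongr
      _ = _ := by rw [pow_succ]; ring

/-- closed families -/
def Closed (p : ℝ) (m c : ℕ) (δ : ℝ) (F : Finset (Finset V)) : Prop :=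
  ∀ A : Finset V, A.card ≤ c → NN p m (ind (fun y => ¬ acc F y)) A ≤ δ → acc F A

/-- the sets with at most `c` elements -/
def small (V : Type) [Fintype V] [DecidableEq V] (c : ℕ) : Finset (Finset V) :=
  Finset.univ.filter fun A => A.card ≤ c

theorem exists_closed {p : ℝ} (h0 : 0 ≤ p) (h1 : p ≤ 1) (m c : ℕ) {δ : ℝ} (hδ : 0 ≤ δ) :
    ∀ (j : ℕ) (F : Finset (Finset V)), (small V c \ F).card ≤ j →
      ∃ G : Finset (Finset V), F ⊆ G ∧ (∀ S ∈ G, S ∈ F ∨ S.card ≤ c) ∧ Closed p m c δ G ∧
        NN p m (ind (fun y => acc G y ∧ ¬ acc F y)) ∅ ≤ j * δ := by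
  intro j
  induction j with
  | zero =>
    intro F hF
    refine ⟨F, Finset.Subset.refl _, fun S hS => Or.inl hS, ?_, ?_⟩
    · intro A hA _
      have : A ∈ F := by
        by_contra h
        have : A ∈ small V c \ F := by simp [small, hA, h]
        have := Finset.card_pos.2 ⟨A, this⟩
        omega
      exact ⟨A, this, Finset.Subset.refl _⟩
    · have : (ind fun y => acc F y ∧ ¬ acc F y) = fun _ : Finset V => (0:ℝ) := by
        funext y; exact ind_false (P := fun y => acc F y ∧ ¬ acc F y) (by tauto)
      rw [this, NN_const]; simp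
  | succ j ih =>
    intro F hF
    by_cases hcl : Closed p m c δ F
    · refine ⟨F, Finset.Subset.refl _, fun S hS => Or.inl hS, hcl, ?_⟩
      have : (ind fun y => acc F y ∧ ¬ acc F y) = fun _ : Finset V => (0:ℝ) := by
        funext y; exact ind_false (P := fun y => acc F y ∧ ¬ acc F y) (by tauto)
      rw [this, NN_const]; positivity
    · unfold Closed at hcl
      push Not at hcl
      obtain ⟨A, hA, hsmall, hnot⟩ := hcl
      have hAF : A ∉ F := fun h => hnot ⟨A, h, Finset.Subset.refl _⟩
      have hcard : (small V c \ insert A F).card ≤ j := by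
        have h2 : (small V c \ insert A F) = (small V c \ F).erase A := by
          ext S; simp only [Finset.mem_sdiff, Finset.mem_insert, Finset.mem_erase]; tauto
        rw [h2, Finset.card_erase_of_mem (by simp [small, hA, hAF])]
        omega
      obtain ⟨G, hG1, hG2, hG3, hG4⟩ := ih (insert A F) hcard
      refine ⟨G, (Finset.subset_insert _ _).trans hG1, ?_, hG3, ?_⟩
      · intro S hS
        rcases hG2 S hS with h | h
        · rcases Finset.mem_insert.1 h with h | h
          · right; rw [h]; exact hA
          · left; exact h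
        · right; exact h
      · have e1 : NN p m (ind fun y => acc G y ∧ ¬ acc F y) ∅ ≤
            NN p m (fun y => ind (fun y => acc G y ∧ ¬ acc (insert A F) y) y +
              ind (fun y => ¬ acc F y) (A ∪ y)) ∅ := by
          refine NN_mono h0 h1 m fun y _ => ?_
          by_cases hy : acc G y ∧ ¬ acc F y
          · rw [ind_true hy]
            by_cases hy2 : acc (insert A F) y
            · have hAy : A ⊆ y := by
                obtain ⟨S, hS, hSy⟩ := hy2
                rcases Finset.mem_insert.1 hS with h | h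
                · rw [← h]; exact hSy
                · exact absurd ⟨S, h, hSy⟩ hy.2
              rw [Finset.union_eq_right.2 hAy, ind_true (P := fun y => ¬ acc F y) hy.2]
              have := ind_nonneg (fun y => acc G y ∧ ¬ acc (insert A F) y) y
              linarith
            · rw [ind_true (P := fun y => acc G y ∧ ¬ acc (insert A F) y) ⟨hy.1, hy2⟩]
              have := ind_nonneg (fun y => ¬ acc F y) (A ∪ y)
              linarith
          · rw [ind_false hy]
            have := ind_nonneg (fun y => ¬ acc F y) (A ∪ y)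
            have := ind_nonneg (fun y => acc G y ∧ ¬ acc (insert A F) y) y
            linarith
        rw [NN_add] at e1
        have e2 := NN_trans p m (ind (fun y => ¬ acc F y)) A ∅
        rw [Finset.union_empty] at e2
        simp only [e2] at e1
        push_cast
        linarith

/-- the members of a family which are minimal with respect to inclusion -/
def mins (F : Finset (Finset V)) : Finset (Finset V) := F.filter fun S => ∀ T ∈ F, T ⊆ S → T = S

theorem exists_min {F : Finset (Finset V)} {X : Finset V} (h : acc F X) : acc (mins F) X := by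
  classical
  obtain ⟨S, hS, hSX⟩ := h
  obtain ⟨T, hT, hmin⟩ := Finset.exists_min_image (F.filter fun T => T ⊆ S) Finset.card
    ⟨S, by simp [hS]⟩
  rw [Finset.mem_filter] at hT
  refine ⟨T, ?_, hT.2.trans hSX⟩
  unfold mins
  rw [Finset.mem_filter]
  refine ⟨hT.1, fun U hU hUT => ?_⟩
  have := hmin U (by rw [Finset.mem_filter]; exact ⟨hU, hUT.trans hT.2⟩)
  exact Finset.eq_of_subset_of_card_le hUT this

/-- closed families have few minimal members of each size -/
theorem card_mins_le {p : ℝ} (h0 : 0 < p) (h1 : p ≤ 1) {m c κ : ℕ} (hκ : 0 < κ)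
    (hk : 2 * (c : ℝ) ≤ κ * p) {F : Finset (Finset V)} (hcl : Closed p m c ((1 / 2) ^ m) F)
    {k : ℕ} (hkc : k ≤ c) : ((mins F).filter fun S => S.card = k).card ≤ κ ^ k := by
  classical
  by_contra hbig
  push Not at hbig
  set Fk := (mins F).filter fun S => S.card = k with hFk
  have hF : ∀ S ∈ Fk, S.card = k := fun S hS => (Finset.mem_filter.1 hS).2
  obtain ⟨A, hA, hne, hlink⟩ := exists_spread_link hκ hF hbig
  have hk2 : 2 * (k : ℝ) ≤ κ * p := by
    have : (k : ℝ) ≤ c := by exact_mod_cast hkc
    linarith
  have hb := boost h0 h1 hκ hF hA hne hlink hk2 m (x := A) (Finset.Subset.refl _)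
  have hacc : acc F A := by
    refine hcl A (by omega) ?_
    calc NN p m (ind fun y => ¬ acc F y) A ≤ NN p m (ind fun y => ¬ acc Fk y) A := by
          refine NN_mono h0.le h1 m fun y _ => ind_le fun h h' => h ?_
          refine acc_sub ?_ h'
          exact (Finset.filter_subset _ _).trans (Finset.filter_subset _ _)
      _ ≤ (1 / 2) ^ m * ind (fun y => ¬ acc Fk y) A := hb
      _ ≤ (1 / 2) ^ m * 1 := by
          refine mul_le_mul_of_nonneg_left (ind_le_one _ _) (by positivity)
      _ = _ := mul_one _
  obtain ⟨T, hT, hTA⟩ := hacc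
  obtain ⟨S, hS⟩ := hne
  rw [Finset.mem_filter, hFk, Finset.mem_filter] at hS
  obtain ⟨⟨hS1, hS2⟩, hS3⟩ := hS
  unfold mins at hS1
  rw [Finset.mem_filter] at hS1
  have := hS1.2 T hT (hTA.trans hS3)
  rw [this] at hTA
  have := Finset.card_le_card hTA
  omega

end Pool.Agent.V8H38.NL
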